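import Mathlib

/-!
# Unipotent isometries attached to isotropic vectors
-/

namespace Pool.Agent.R911.Iso

variable {A : Type*} [Ring A] [StarRing A]

/-- The unipotent matrix attached to an isotropic vector. -/
def eich (a b : A) : Matrix (Fin 3) (Fin 3) A :=
  !![1 - 2 * (a * star a), -(2 * (a * star b)), 2 * a;
     -(2 * (b * star a)), 1 - 2 * (b * star b), 2 * b;
     -(2 * star a), -(2 * star b), 1]

theorem eich_isometry {a b : A} (h : star a * a + star b * b = 0) :
    star (eich a b) * eich a b = 1 := by
  have h1 : star b * b = -(star a * a) := eq_neg_of_add_eq_zero_right h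
  have h2 : ∀ x, star b * (b * x) = -(star a * (a * x)) := by
    intro x
    rw [← mul_assoc, h1, neg_mul, mul_assoc]
  have h3 : ∀ x y : A, x * (2 * y) = 2 * (x * y) := by
    intro x y
    rw [← mul_assoc, ← mul_assoc, mul_two, two_mul]
  have h4 : ∀ x : A, x * 2 = 2 * x := by
    intro x
    rw [mul_two, two_mul]
  ext i j
  rw [Matrix.mul_apply, Fin.sum_univ_three]
  simp only [Matrix.star_apply]
  fin_cases i <;> fin_cases j <;>
  · simp [eich, mul_sub, sub_mul, mul_add, mul_assoc, h1, h2, h3, h4]
    try (simp only [two_mul]; abel)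

end Pool.Agent.R911.Iso
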