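import Mathlib

/-!
# Positive definite forms: eigenvalues of self-adjoint and orthogonal elements
-/

open Polynomial Matrix

namespace Pool.Agent.R911.Iso

section Lin

variable {V : Type*} [AddCommGroup V] [Module ℚ V] [Module.Finite ℚ V]

/-- A root of the minimal polynomial is an eigenvalue of the complex matrix. -/
lemma exists_eigvec {n : ℕ} (b : Module.Basis (Fin n) ℚ V) (T : V →ₗ[ℚ] V) {lam : ℂ}
    (h : aeval lam (minpoly ℚ T) = 0) : ∃ v : Fin n → ℂ, v ≠ 0 ∧
      ((LinearMap.toMatrix b b T).map (algebraMap ℚ ℂ)) *ᵥ v = lam • v := by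
  classical
  set M := LinearMap.toMatrix b b T with hM
  have h1 : aeval lam M.charpoly = 0 := by
    have h2 : minpoly ℚ T ∣ M.charpoly := by
      rw [hM, LinearMap.charpoly_toMatrix]
      exact LinearMap.minpoly_dvd_charpoly T
    obtain ⟨r, hr⟩ := h2
    rw [hr, map_mul, h, zero_mul]
  have h2 : (Matrix.scalar (Fin n) lam - M.map (algebraMap ℚ ℂ)).det = 0 := by
    rw [← Matrix.eval_charpoly, Matrix.charpoly_map, eval_map_algebraMap, h1]
  obtain ⟨v, hv, hv2⟩ := Matrix.exists_mulVec_eq_zero_iff.2 h2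
  refine ⟨v, hv, ?_⟩
  rw [Matrix.sub_mulVec, sub_eq_zero] at hv2
  rw [← hv2, Matrix.scalar_apply, Matrix.diagonal_const_mulVec]

/-- Hermitian calculus for an orthogonal basis: a linear map and its adjoint. -/
lemma eig_pair {n : ℕ} (b : Module.Basis (Fin n) ℚ V) (f : V →ₗ[ℚ] V →ₗ[ℚ] ℚ)
    (hs : ∀ x y, f x y = f y x)
    (hb : ∀ i j, i ≠ j → f (b i) (b j) = 0) (T T' : V →ₗ[ℚ] V)
    (hT : ∀ x y, f (T x) y = f x (T' y)) (v w : Fin n → ℂ) :
    ∑ i, (f (b i) (b i) : ℂ) * (starRingEnd ℂ (v i) *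
      (((LinearMap.toMatrix b b T).map (algebraMap ℚ ℂ)) *ᵥ w) i) =
    ∑ i, (f (b i) (b i) : ℂ) * (starRingEnd ℂ
      ((((LinearMap.toMatrix b b T').map (algebraMap ℚ ℂ)) *ᵥ v) i) * w i) := by
  classical
  have h1 : ∀ i j, f (b i) (b i) * LinearMap.toMatrix b b T i j =
      f (b j) (b j) * LinearMap.toMatrix b b T' j i := by
    intro i j
    have e1 : ∀ (S : V →ₗ[ℚ] V) (i j : Fin n), f (b i) (S (b j)) =
        f (b i) (b i) * LinearMap.toMatrix b b S i j := by
      intro S i j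
      conv_lhs => rw [← b.sum_repr (S (b j))]
      rw [map_sum, Finset.sum_eq_single i]
      · rw [map_smul, smul_eq_mul, LinearMap.toMatrix_apply, mul_comm]
      · intro k _ hk
        rw [map_smul, hb i k (Ne.symm hk), smul_zero]
      · intro h; exact absurd (Finset.mem_univ _) h
    rw [← e1, ← e1, hs, hT]
  simp only [Matrix.mulVec, dotProduct, Matrix.map_apply, eq_ratCast, map_sum, map_mul,
    Finset.mul_sum, Finset.sum_mul]
  rw [Finset.sum_comm]
  apply Finset.sum_congr rfl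
  intro j _
  apply Finset.sum_congr rfl
  intro i _
  have h2 := h1 i j
  have h3 : ((f (b i) (b i) : ℚ) : ℂ) * (LinearMap.toMatrix b b T i j : ℚ) =
      ((f (b j) (b j) : ℚ) : ℂ) * (LinearMap.toMatrix b b T' j i : ℚ) := by
    exact_mod_cast congrArg (fun q : ℚ => (q : ℂ)) h2
  have h4 : starRingEnd ℂ ((LinearMap.toMatrix b b T' j i : ℚ) : ℂ) =
      ((LinearMap.toMatrix b b T' j i : ℚ) : ℂ) := map_ratCast _ _
  rw [h4]
  linear_combination (starRingEnd ℂ (v i)) * w j * h3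

lemma herm_pos {n : ℕ} (b : Module.Basis (Fin n) ℚ V) (f : V →ₗ[ℚ] V →ₗ[ℚ] ℚ)
    (hp : ∀ x, x ≠ 0 → 0 < f x x) {v : Fin n → ℂ} (hv : v ≠ 0) :
    ∑ i, (f (b i) (b i) : ℂ) * (starRingEnd ℂ (v i) * v i) ≠ 0 := by
  have h1 : ∀ i, (f (b i) (b i) : ℂ) * (starRingEnd ℂ (v i) * v i) =
      (((f (b i) (b i) : ℚ) : ℝ) * Complex.normSq (v i) : ℝ) := by
    intro i
    rw [← Complex.normSq_eq_conj_mul_self]
    push_cast
    rfl
  rw [Finset.sum_congr rfl (fun i _ => h1 i), ← Complex.ofReal_sum]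
  obtain ⟨i, hi⟩ := Function.ne_iff.1 hv
  have h2 : 0 < ∑ i, ((f (b i) (b i) : ℚ) : ℝ) * Complex.normSq (v i) := by
    apply Finset.sum_pos'
    · intro j _
      exact mul_nonneg (by exact_mod_cast (hp _ (b.ne_zero j)).le) (Complex.normSq_nonneg _)
    · refine ⟨i, Finset.mem_univ _, mul_pos (by exact_mod_cast hp _ (b.ne_zero i)) ?_⟩
      exact Complex.normSq_pos.2 hi
  exact_mod_cast h2.ne'

/-- **Eigenvalues for a positive definite form.** -/
theorem eig_of_pos (f : V →ₗ[ℚ] V →ₗ[ℚ] ℚ) (hs : ∀ x y, f x y = f y x)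
    (hp : ∀ x, x ≠ 0 → 0 < f x x) (T T' : V →ₗ[ℚ] V) (hT : ∀ x y, f (T x) y = f x (T' y))
    {lam : ℂ} (h : aeval lam (minpoly ℚ T) = 0) :
    (T' = T → lam.im = 0) ∧ (T' = -T → lam.re = 0) ∧ (T' ∘ₗ T = LinearMap.id → ‖lam‖ = 1) := by
  classical
  obtain ⟨b, hb⟩ := LinearMap.BilinForm.exists_orthogonal_basis (B := f)
    ⟨fun x y => hs x y⟩
  have hb' : ∀ i j, i ≠ j → f (b i) (b j) = 0 := fun i j hij => hb hij
  obtain ⟨v, hv, hv2⟩ := exists_eigvec b T h
  set N := ∑ i, (f (b i) (b i) : ℂ) * (starRingEnd ℂ (v i) * v i) with hN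
  have hN0 := herm_pos b f hp hv
  have hT' : ∀ x y, f (T' x) y = f x (T y) := by
    intro x y
    rw [hs, ← hT, hs]
  have h1 := eig_pair b f hs hb' T T' hT v v
  have h2 : ∑ i, (f (b i) (b i) : ℂ) * (starRingEnd ℂ (v i) *
      (((LinearMap.toMatrix b b T).map (algebraMap ℚ ℂ)) *ᵥ v) i) = lam * N := by
    rw [hv2, hN, Finset.mul_sum]
    apply Finset.sum_congr rfl
    intro i _
    rw [Pi.smul_apply, smul_eq_mul]
    ring
  rw [h2] at h1
  refine ⟨?_, ?_, ?_⟩
  · intro hTT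
    rw [hTT, hv2] at h1
    have h3 : ∑ i, (f (b i) (b i) : ℂ) * (starRingEnd ℂ ((lam • v) i) * v i) =
        starRingEnd ℂ lam * N := by
      rw [hN, Finset.mul_sum]
      apply Finset.sum_congr rfl
      intro i _
      rw [Pi.smul_apply, smul_eq_mul, map_mul]
      ring
    rw [h3] at h1
    exact Complex.conj_eq_iff_im.1 (mul_right_cancel₀ hN0 h1).symm
  · intro hTT
    rw [hTT, map_neg, Matrix.map_neg _ (by intro a; exact map_neg _ a), Matrix.neg_mulVec,
      hv2] at h1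
    have h3 : ∑ i, (f (b i) (b i) : ℂ) * (starRingEnd ℂ ((-(lam • v)) i) * v i) =
        -starRingEnd ℂ lam * N := by
      rw [hN, Finset.mul_sum]
      apply Finset.sum_congr rfl
      intro i _
      rw [Pi.neg_apply, Pi.smul_apply, smul_eq_mul, map_neg, map_mul]
      ring
    rw [h3] at h1
    have h4 := congrArg Complex.re (mul_right_cancel₀ hN0 h1)
    rw [Complex.neg_re, Complex.conj_re] at h4
    linarith
  · intro hTT
    have h3 := eig_pair b f hs hb' T' T hT' v (((LinearMap.toMatrix b b T).map (algebraMap ℚ ℂ)) *ᵥ v)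
    have h4 : ((LinearMap.toMatrix b b T').map (algebraMap ℚ ℂ)) *ᵥ
        (((LinearMap.toMatrix b b T).map (algebraMap ℚ ℂ)) *ᵥ v) = v := by
      rw [Matrix.mulVec_mulVec, ← Matrix.map_mul, ← LinearMap.toMatrix_comp, hTT,
        LinearMap.toMatrix_id, Matrix.map_one _ (map_zero _) (map_one _), Matrix.one_mulVec]
    rw [h4, hv2, ← hN] at h3
    have h5 : ∑ i, (f (b i) (b i) : ℂ) * (starRingEnd ℂ ((lam • v) i) * (lam • v) i) =
        (starRingEnd ℂ lam * lam) * N := by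
      rw [hN, Finset.mul_sum]
      apply Finset.sum_congr rfl
      intro i _
      rw [Pi.smul_apply, smul_eq_mul, map_mul]
      ring
    rw [h5] at h3
    have h6 : starRingEnd ℂ lam * lam = 1 := by
      apply mul_right_cancel₀ hN0
      rw [← h3, one_mul]
    have h7 : Complex.normSq lam = 1 := by
      have : ((Complex.normSq lam : ℝ) : ℂ) = 1 := by
        rw [Complex.normSq_eq_conj_mul_self, h6]
      exact_mod_cast this
    rw [Complex.normSq_eq_norm_sq] at h7
    nlinarith [norm_nonneg lam, sq_nonneg (‖lam‖ - 1), sq_nonneg (‖lam‖ + 1)]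

end Lin

end Pool.Agent.R911.Iso
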