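import Pool.Agent.R911.Iso.SkewB
import Pool.Agent.R911.Iso.Eich
import Pool.Agent.R911.Iso.Pos

/-!
# Algebras with involution and trace: positivity and isometries
-/

open Polynomial Matrix

namespace Pool.Agent.R911.Iso

/-- The trace on matrices over an algebra with a trace. -/
noncomputable def mtr {A : Type*} [Ring A] [Algebra ℚ A] (τ : A →ₗ[ℚ] ℚ) (m : ℕ) :
    Matrix (Fin m) (Fin m) A →ₗ[ℚ] ℚ where
  toFun z := ∑ i, τ (z i i)
  map_add' z w := by simp [Finset.sum_add_distrib]
  map_smul' q z := by simp [Finset.mul_sum]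

lemma mtr_apply {A : Type*} [Ring A] [Algebra ℚ A] (τ : A →ₗ[ℚ] ℚ) (m : ℕ)
    (z : Matrix (Fin m) (Fin m) A) : mtr τ m z = ∑ i, τ (z i i) := rfl

/-- A trace on a finite-dimensional algebra with involution. -/
structure TrData {A : Type*} [Ring A] [StarRing A] [Algebra ℚ A] (τ : A →ₗ[ℚ] ℚ) : Prop where
  comm : ∀ a b, τ (a * b) = τ (b * a)
  symm : ∀ a, τ (star a) = τ a
  nondeg : ∀ a, (∀ b, τ (a * b) = 0) → a = 0
  spec : ∀ (m : ℕ) (z : Matrix (Fin m) (Fin m) A), ∃ S : Multiset ℂ,
    (∀ l ∈ S, aeval l (minpoly ℚ z) = 0) ∧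
      ((mtr τ m (z * z) : ℚ) : ℂ) = (S.map (fun l => l * l)).sum

variable {A : Type*} [Ring A] [StarRing A] [Algebra ℚ A] {τ : A →ₗ[ℚ] ℚ}

section Form

/-- The form `τ (a* b)`. -/
noncomputable def fm (τ : A →ₗ[ℚ] ℚ) (m : ℕ) :
    Matrix (Fin m) (Fin m) A →ₗ[ℚ] Matrix (Fin m) (Fin m) A →ₗ[ℚ] ℚ :=
  LinearMap.mk₂ ℚ (fun a b => mtr τ m (star a * b))
    (fun a a' b => by rw [star_add, add_mul, map_add])
    (fun q a b => by rw [star_rat_smul, smul_mul_assoc, map_smul])
    (fun a b b' => by rw [mul_add, map_add])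
    (fun q a b => by rw [mul_smul_comm, map_smul])

lemma fm_apply (m : ℕ) (a b : Matrix (Fin m) (Fin m) A) :
    fm τ m a b = mtr τ m (star a * b) := rfl

lemma fm_eq (m : ℕ) (a b : Matrix (Fin m) (Fin m) A) :
    fm τ m a b = ∑ i, ∑ j, τ (star (a j i) * b j i) := by
  rw [fm_apply, mtr_apply]
  apply Finset.sum_congr rfl
  intro i _
  rw [Matrix.mul_apply, map_sum]
  rfl

lemma fm_adj (m : ℕ) (w a b : Matrix (Fin m) (Fin m) A) :
    fm τ m (w * a) b = fm τ m a (star w * b) := by
  rw [fm_apply, fm_apply, star_mul, mul_assoc]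

variable (T : TrData τ)

include T

lemma TrData.form_symm (a b : A) : τ (star a * b) = τ (star b * a) := by
  rw [← T.symm (star a * b), star_mul, star_star]

lemma TrData.fm_symm (m : ℕ) (a b : Matrix (Fin m) (Fin m) A) : fm τ m a b = fm τ m b a := by
  rw [fm_eq, fm_eq]
  apply Finset.sum_congr rfl
  intro i _
  apply Finset.sum_congr rfl
  intro j _
  exact T.form_symm _ _

/-- Semidefinite and nondegenerate implies definite. -/
lemma TrData.definite (hp : ∀ a, 0 ≤ τ (star a * a)) {a : A} (ha : a ≠ 0) :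
    0 < τ (star a * a) := by
  rcases (hp a).lt_or_eq with h | h
  · exact h
  exfalso
  apply ha
  have key : ∀ b, τ (star a * b) = 0 := by
    intro b
    by_contra hb
    have h1 : ∀ t : ℚ, 0 ≤ 2 * t * τ (star a * b) + t ^ 2 * τ (star b * b) := by
      intro t
      have h2 := hp (a + t • b)
      rw [star_add, star_rat_smul, add_mul, mul_add, mul_add, smul_mul_assoc, smul_mul_assoc,
        mul_smul_comm, mul_smul_comm, map_add, map_add, map_add, map_smul, map_smul, map_smul,
        map_smul, ← h, T.form_symm b a] at h2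
      simp only [smul_eq_mul] at h2
      nlinarith [h2]
    have h3 := hp b
    set x := τ (star a * b)
    set y := τ (star b * b)
    have hy : 0 ≤ y := h3
    by_cases hy0 : y = 0
    · have h4 := h1 (-x)
      rw [hy0] at h4
      have : 0 < x ^ 2 := by positivity
      nlinarith
    · have h4 := h1 (-x / y)
      have hy1 : 0 < y := lt_of_le_of_ne hy (Ne.symm hy0)
      have h5 : 2 * (-x / y) * x + (-x / y) ^ 2 * y = -(x ^ 2 / y) := by
        field_simp
        ring
      rw [h5] at h4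
      have : 0 < x ^ 2 / y := by positivity
      linarith
  apply T.nondeg
  intro b
  rw [T.comm, ← T.symm, star_mul]
  exact key (star b)

lemma TrData.fm_pos (hp : ∀ a, 0 ≤ τ (star a * a)) (m : ℕ) {a : Matrix (Fin m) (Fin m) A}
    (ha : a ≠ 0) : 0 < fm τ m a a := by
  rw [fm_eq]
  have h1 : ∃ i j, a j i ≠ 0 := by
    by_contra h
    push Not at h
    exact ha (by ext i j; exact h j i)
  obtain ⟨i, j, hij⟩ := h1
  apply Finset.sum_pos'
  · intro i _
    exact Finset.sum_nonneg (fun j _ => hp _)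
  · exact ⟨i, Finset.mem_univ _, Finset.sum_pos' (fun j _ => hp _)
      ⟨j, Finset.mem_univ _, T.definite hp hij⟩⟩

/-- **Eigenvalues of self-adjoint, skew and orthogonal matrices if the trace form is positive.** -/
theorem TrData.eig [Module.Finite ℚ A] (hp : ∀ a, 0 ≤ τ (star a * a)) (m : ℕ)
    (w : Matrix (Fin m) (Fin m) A) {lam : ℂ} (h : aeval lam (minpoly ℚ w) = 0) :
    (star w = w → lam.im = 0) ∧ (star w = -w → lam.re = 0) ∧ (star w * w = 1 → ‖lam‖ = 1) := by
  have h1 : minpoly ℚ (Algebra.lmul ℚ (Matrix (Fin m) (Fin m) A) w) = minpoly ℚ w :=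
    minpoly.algHom_eq _ Algebra.lmul_injective _
  obtain ⟨e1, e2, e3⟩ := eig_of_pos (fm τ m) (T.fm_symm m) (fun x hx => T.fm_pos hp m hx)
    (Algebra.lmul ℚ (Matrix (Fin m) (Fin m) A) w)
    (Algebra.lmul ℚ (Matrix (Fin m) (Fin m) A) (star w)) (fun x y => fm_adj m w x y)
    (by rw [h1]; exact h)
  refine ⟨fun hw => e1 (by rw [hw]), fun hw => e2 (by rw [hw, map_neg]), fun hw => e3 ?_⟩
  ext x : 1
  change star w * (w * x) = x
  rw [← mul_assoc, hw, one_mul]

end Form

/-- The same for elements of the algebra. -/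
theorem TrData.eig_one [Module.Finite ℚ A] (T : TrData τ) (hp : ∀ a, 0 ≤ τ (star a * a))
    (w : A) {lam : ℂ} (h : aeval lam (minpoly ℚ w) = 0) :
    (star w = w → lam.im = 0) ∧ (star w = -w → lam.re = 0) := by
  let φ : A →ₐ[ℚ] Matrix (Fin 1) (Fin 1) A := (Matrix.scalar (Fin 1)).toRatAlgHom
  have hφ : ∀ a, φ a = Matrix.diagonal (fun _ => a) := fun a => rfl
  have hinj : Function.Injective φ := by
    intro a b hab
    rw [hφ, hφ] at hab
    have := congrArg (fun M => M 0 0) hab
    simpa using this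
  have hst : ∀ a, star (φ a) = φ (star a) := by
    intro a
    ext i j
    rw [Matrix.star_apply, hφ, hφ, Subsingleton.elim i j, Matrix.diagonal_apply_eq,
      Matrix.diagonal_apply_eq]
  rw [← minpoly.algHom_eq φ hinj w] at h
  obtain ⟨e1, e2, -⟩ := T.eig hp 1 (φ w) h
  exact ⟨fun hw => e1 (by rw [hst, hw]), fun hw => e2 (by rw [hst, hw, map_neg])⟩

section Converse

variable (T : TrData τ)

/-- The skew matrix attached to an element. -/
def skw (a : A) : Matrix (Fin 2) (Fin 2) A := !![0, a; -star a, 0]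

lemma skw_star (a : A) : star (skw a) = -skw a := by
  ext i j
  fin_cases i <;> fin_cases j <;> simp [skw, Matrix.star_apply]

include T in
lemma mtr_skw (a : A) : mtr τ 2 (skw a * skw a) = -2 * τ (star a * a) := by
  rw [mtr_apply, Fin.sum_univ_two, Matrix.mul_apply, Matrix.mul_apply, Fin.sum_univ_two,
    Fin.sum_univ_two]
  simp only [skw, Matrix.of_apply, Matrix.cons_val', Matrix.cons_val_zero, Matrix.cons_val_one,
    Matrix.cons_val_fin_one, mul_zero, zero_mul, zero_add, add_zero, mul_neg, neg_mul, map_neg]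
  rw [T.comm a (star a)]
  ring

lemma exists_re_ne {S : Multiset ℂ} (h : 0 < ((S.map (fun l => l * l)).sum).re) :
    ∃ l ∈ S, l.re ≠ 0 := by
  by_contra hc
  push Not at hc
  have h1 : ∀ S : Multiset ℂ, (∀ l ∈ S, l.re = 0) → ((S.map (fun l => l * l)).sum).re ≤ 0 := by
    intro S
    induction S using Multiset.induction_on with
    | empty => intro _; simp
    | cons a s ih =>
      intro hS
      rw [Multiset.map_cons, Multiset.sum_cons, Complex.add_re, Complex.mul_re,
        hS a (Multiset.mem_cons_self a s)]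
      have := ih (fun l hl => hS l (Multiset.mem_cons_of_mem hl))
      nlinarith [mul_self_nonneg a.im]
  exact absurd (h1 S hc) (not_le.2 h)

lemma exists_im_ne {S : Multiset ℂ} (h : ((S.map (fun l => l * l)).sum).re < 0) :
    ∃ l ∈ S, l.im ≠ 0 := by
  by_contra hc
  push Not at hc
  have h1 : ∀ S : Multiset ℂ, (∀ l ∈ S, l.im = 0) → 0 ≤ ((S.map (fun l => l * l)).sum).re := by
    intro S
    induction S using Multiset.induction_on with
    | empty => intro _; simp
    | cons a s ih =>
      intro hS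
      rw [Multiset.map_cons, Multiset.sum_cons, Complex.add_re, Complex.mul_re,
        hS a (Multiset.mem_cons_self a s)]
      have := ih (fun l hl => hS l (Multiset.mem_cons_of_mem hl))
      nlinarith [mul_self_nonneg a.re]
  exact absurd (h1 S hc) (not_le.2 h)

include T in
/-- If the trace form is not positive there is a skew matrix with an eigenvalue off the imaginary
axis. -/
theorem TrData.exists_skew (hn : ¬ ∀ a, 0 ≤ τ (star a * a)) :
    ∃ (z : Matrix (Fin 2) (Fin 2) A) (lam : ℂ), star z = -z ∧ aeval lam (minpoly ℚ z) = 0 ∧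
      lam.re ≠ 0 := by
  push Not at hn
  obtain ⟨a, ha⟩ := hn
  obtain ⟨S, hS, hS2⟩ := T.spec 2 (skw a)
  have h1 : 0 < ((S.map (fun l => l * l)).sum).re := by
    rw [← hS2, mtr_skw T]
    have : (0 : ℝ) < ((-2 * τ (star a * a) : ℚ) : ℝ) := by
      exact_mod_cast (by linarith : (0 : ℚ) < -2 * τ (star a * a))
    simpa using this
  obtain ⟨l, hl, hl2⟩ := exists_re_ne h1
  exact ⟨skw a, l, skw_star a, hS l hl, hl2⟩

/-- The Cayley transform. -/
theorem exists_cayley {B : Type*} [Ring B] [StarRing B] [Algebra ℚ B] {z : B}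
    {lam : ℂ} (hint : IsIntegral ℚ z) (hz : star z = -z) (hl : aeval lam (minpoly ℚ z) = 0)
    (hre : lam.re ≠ 0) :
    ∃ (u : B) (mu : ℂ), star u * u = 1 ∧ aeval mu (minpoly ℚ u) = 0 ∧ ‖mu‖ ≠ 1 := by
  have hp0 := minpoly.ne_zero hint
  obtain ⟨N, hN⟩ : ∃ N : ℕ, 0 < N ∧ ¬ (minpoly ℚ z).IsRoot (N : ℚ) := by
    by_contra hc
    push Not at hc
    have h1 : Set.Infinite {x : ℚ | (minpoly ℚ z).IsRoot x} := by
      apply Set.infinite_of_injective_forall_mem (f := fun n : ℕ => ((n + 1 : ℕ) : ℚ))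
      · intro a b hab
        have : ((a + 1 : ℕ) : ℚ) = ((b + 1 : ℕ) : ℚ) := hab
        have h2 : a + 1 = b + 1 := by exact_mod_cast this
        omega
      · intro n
        exact hc (n + 1) (Nat.succ_pos n)
    exact h1 (Polynomial.finite_setOfPred_isRoot hp0)
  obtain ⟨hN0, hN1⟩ := hN
  have hcop : IsCoprime (X - C (N : ℚ)) (minpoly ℚ z) := by
    rcases EuclideanDomain.dvd_or_coprime (X - C (N : ℚ)) (minpoly ℚ z)
      (irreducible_X_sub_C _) with h | h
    · exact absurd (dvd_iff_isRoot.1 h) hN1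
    · exact h
  obtain ⟨a, b, hab⟩ := hcop
  -- `(N - z) G (z) = 1` with `G = - a`
  have h1 : aeval z (C (N : ℚ) - X) * aeval z (-a) = 1 := by
    rw [← map_mul, show (C (N : ℚ) - X) * (-a) = 1 - b * minpoly ℚ z by
      linear_combination hab, map_sub, map_mul, minpoly.aeval, mul_zero, sub_zero, map_one]
  have h1' : aeval z (-a) * aeval z (C (N : ℚ) - X) = 1 := by
    rw [← map_mul, mul_comm, map_mul, h1]
  have h2 : aeval lam (C (N : ℚ) - X) * aeval lam (-a) = 1 := by
    rw [← map_mul, show (C (N : ℚ) - X) * (-a) = 1 - b * minpoly ℚ z by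
      linear_combination hab, map_sub, map_mul, hl, mul_zero, sub_zero, map_one]
  have hst : ∀ P : ℚ[X], star (aeval z P) = aeval z (ng P) := by
    intro P
    rw [star_aeval, aeval_ng, hz]
  have hngm : ng (C (N : ℚ) - X) = C (N : ℚ) + X := by
    simp [ng]
  have hngp : ng (C (N : ℚ) + X) = C (N : ℚ) - X := by
    rw [ng, add_comp, C_comp, X_comp, sub_eq_add_neg]
  have h3 : aeval z (ng (-a)) * aeval z (C (N : ℚ) + X) = 1 := by
    have := congrArg star h1
    rw [star_mul, hst, hst, star_one, hngm] at this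
    exact this
  refine ⟨aeval z ((C (N : ℚ) + X) * (-a)), aeval lam ((C (N : ℚ) + X) * (-a)), ?_, ?_, ?_⟩
  · rw [hst, ng_mul, hngp, mul_comm (C (N : ℚ) - X), map_mul, map_mul]
    calc aeval z (ng (-a)) * aeval z (C (N : ℚ) - X) * (aeval z (C (N : ℚ) + X) * aeval z (-a))
        = aeval z (ng (-a)) * (aeval z (C (N : ℚ) - X) * aeval z (C (N : ℚ) + X)) *
          aeval z (-a) := by noncomm_ring
      _ = aeval z (ng (-a)) * (aeval z (C (N : ℚ) + X) * aeval z (C (N : ℚ) - X)) *
          aeval z (-a) := by rw [← map_mul, mul_comm, map_mul]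
      _ = (aeval z (ng (-a)) * aeval z (C (N : ℚ) + X)) * (aeval z (C (N : ℚ) - X) *
          aeval z (-a)) := by noncomm_ring
      _ = 1 := by rw [h3, h1, one_mul]
  · set F := (C (N : ℚ) + X) * (-a) with hF
    have h4 : aeval z ((minpoly ℚ (aeval z F)).comp F) = 0 := by
      rw [aeval_comp, minpoly.aeval]
    obtain ⟨r, hr⟩ := minpoly.dvd ℚ z h4
    have h5 : aeval lam ((minpoly ℚ (aeval z F)).comp F) = 0 := by
      rw [hr, map_mul, hl, zero_mul]
    rw [aeval_comp] at h5
    exact h5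
  · rw [map_mul, norm_mul]
    intro h4
    have h5 : ‖aeval lam (C (N : ℚ) - X)‖ * ‖aeval lam (-a)‖ = 1 := by
      rw [← norm_mul, h2, norm_one]
    have h6 : ‖aeval lam (-a)‖ ≠ 0 := by
      intro h; rw [h, mul_zero] at h5; exact zero_ne_one h5
    have h7 : ‖aeval lam (C (N : ℚ) + X)‖ = ‖aeval lam (C (N : ℚ) - X)‖ :=
      mul_right_cancel₀ h6 (h4.trans h5.symm)
    have h8 : aeval lam (C (N : ℚ) + X) = (N : ℂ) + lam := by simp
    have h9 : aeval lam (C (N : ℚ) - X) = (N : ℂ) - lam := by simp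
    rw [h8, h9] at h7
    have h10 : Complex.normSq ((N : ℂ) + lam) = Complex.normSq ((N : ℂ) - lam) := by
      rw [Complex.normSq_eq_norm_sq, Complex.normSq_eq_norm_sq, h7]
    rw [Complex.normSq_apply, Complex.normSq_apply] at h10
    simp only [Complex.add_re, Complex.natCast_re, Complex.add_im, Complex.natCast_im, zero_add,
      Complex.sub_re, Complex.sub_im, zero_sub] at h10
    have h11 : (4 * (N : ℝ)) * lam.re = 0 := by nlinarith
    rcases mul_eq_zero.1 h11 with h | h
    · have : (N : ℝ) ≠ 0 := by exact_mod_cast hN0.ne'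
      apply this; linarith
    · exact hre h

end Converse

end Pool.Agent.R911.Iso
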