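import Pool.Agent.R911.Iso.Abs

/-!
# Algebras with involution and trace: finiteness of the groups of integral isometries
-/

open Polynomial Matrix

namespace Pool.Agent.R911.Iso

variable {A : Type*} [Ring A] [StarRing A] [Algebra ℚ A] {τ : A →ₗ[ℚ] ℚ}

/-- The isometries of the free module of rank `m` with entries in the subring `R`. -/
def isoSet (R : Subring A) (m : ℕ) : Set (Matrix (Fin m) (Fin m) A) :=
  {u | (∀ i j, u i j ∈ R) ∧ star u * u = 1}

section Spectrum

/-- **Positivity from the spectra of the self-adjoint and the skew elements.** -/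
theorem TrData.pos_of_spectrum (T : TrData τ)
    (h1 : ∀ s : A, star s = s → ∀ l : ℂ, aeval l (minpoly ℚ s) = 0 → l.im = 0)
    (h2 : ∀ s : A, star s = -s → ∀ l : ℂ, aeval l (minpoly ℚ s) = 0 → l.re = 0) :
    ∀ a, 0 ≤ τ (star a * a) := by
  let φ : A →ₐ[ℚ] Matrix (Fin 1) (Fin 1) A := (Matrix.scalar (Fin 1)).toRatAlgHom
  have hφ : ∀ a, φ a = Matrix.diagonal (fun _ => a) := fun a => rfl
  have hinj : Function.Injective φ := by
    intro a b hab
    rw [hφ, hφ] at hab
    have := congrArg (fun M => M 0 0) hab
    simpa using this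
  have hmin : ∀ a : A, minpoly ℚ (φ a) = minpoly ℚ a := fun a => minpoly.algHom_eq φ hinj a
  have htr : ∀ a : A, mtr τ 1 (φ a) = τ a := by
    intro a
    rw [mtr_apply, Fin.sum_univ_one, hφ, Matrix.diagonal_apply_eq]
  have hs : ∀ s : A, star s = s → 0 ≤ τ (s * s) := by
    intro s hs
    by_contra hc
    obtain ⟨S, hS, hS2⟩ := T.spec 1 (φ s)
    rw [← map_mul, htr] at hS2
    have h3 : ((S.map (fun l => l * l)).sum).re < 0 := by
      rw [← hS2]
      have : ((τ (s * s) : ℚ) : ℝ) < 0 := by exact_mod_cast not_le.1 hc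
      simpa using this
    obtain ⟨l, hl, hl2⟩ := exists_im_ne h3
    exact hl2 (h1 s hs l (by rw [← hmin]; exact hS l hl))
  have ht : ∀ s : A, star s = -s → τ (s * s) ≤ 0 := by
    intro s hs
    by_contra hc
    obtain ⟨S, hS, hS2⟩ := T.spec 1 (φ s)
    rw [← map_mul, htr] at hS2
    have h3 : 0 < ((S.map (fun l => l * l)).sum).re := by
      rw [← hS2]
      have : (0 : ℝ) < ((τ (s * s) : ℚ) : ℝ) := by exact_mod_cast not_le.1 hc
      simpa using this
    obtain ⟨l, hl, hl2⟩ := exists_re_ne h3
    exact hl2 (h2 s hs l (by rw [← hmin]; exact hS l hl))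
  intro a
  have e1 := hs (a + star a) (by rw [star_add, star_star, add_comm])
  have e2 := ht (a - star a) (by rw [star_sub, star_star, neg_sub])
  have e3 : τ ((a + star a) * (a + star a)) - τ ((a - star a) * (a - star a)) =
      4 * τ (star a * a) := by
    rw [← map_sub, show (a + star a) * (a + star a) - (a - star a) * (a - star a) =
      2 • (a * star a) + 2 • (star a * a) by noncomm_ring, map_add, map_nsmul, map_nsmul,
      T.comm a (star a)]
    simp only [nsmul_eq_mul]
    push_cast
    ring
  linarith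

end Spectrum

section Finite

lemma natCast_mem_mul (R : Subring A) {c : ℕ} {a : A} (h : (c : A) * a ∈ R) (d : ℕ) :
    ((d * c : ℕ) : A) * a ∈ R := by
  rw [Nat.cast_mul, mul_assoc]
  exact R.mul_mem (natCast_mem R d) h

/-- A common denominator. -/
lemma exists_denom {R : Subring A} (hR : ∀ a : A, ∃ c : ℕ, 0 < c ∧ (c : A) * a ∈ R)
    {ι : Type*} (s : Finset ι) (a : ι → A) :
    ∃ c : ℕ, 0 < c ∧ ∀ i ∈ s, (c : A) * a i ∈ R := by
  classical
  choose c hc hc2 using fun i => hR (a i)
  refine ⟨∏ i ∈ s, c i, Finset.prod_pos (fun i _ => hc i), ?_⟩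
  intro i hi
  rw [← Finset.prod_erase_mul s c hi]
  exact natCast_mem_mul R (hc2 i) _

/-- The embedding of the matrices of rank two in those of rank three. -/
def emb3 (u : Matrix (Fin 2) (Fin 2) A) : Matrix (Fin 3) (Fin 3) A :=
  !![u 0 0, u 0 1, 0; u 1 0, u 1 1, 0; 0, 0, 1]

lemma emb3_isometry {u : Matrix (Fin 2) (Fin 2) A} (h : star u * u = 1) :
    star (emb3 u) * emb3 u = 1 := by
  have e : ∀ i j, star (u 0 i) * u 0 j + star (u 1 i) * u 1 j = if i = j then 1 else 0 := by
    intro i j
    have := congrArg (fun M => M i j) h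
    simp only [Matrix.mul_apply, Fin.sum_univ_two, Matrix.star_apply, Matrix.one_apply] at this
    exact this
  ext i j
  rw [Matrix.mul_apply, Fin.sum_univ_three]
  simp only [Matrix.star_apply]
  fin_cases i <;> fin_cases j <;> simp [emb3, e]

/-- **Finiteness of the group of integral isometries of rank three implies positivity.** -/
theorem TrData.pos_of_finite [Module.Finite ℚ A] (T : TrData τ) (R : Subring A)
    (hR : ∀ a : A, ∃ c : ℕ, 0 < c ∧ (c : A) * a ∈ R) (hfin : (isoSet R 3).Finite) :
    ∀ a, 0 ≤ τ (star a * a) := by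
  classical
  by_contra hn
  obtain ⟨z, lam, hz, hl, hre⟩ := T.exists_skew hn
  have htf : ∀ (c : ℕ) (a : A), 0 < c → (c : A) * a = 0 → a = 0 := by
    intro c a hc h
    have h1 : ((c : ℚ)) • a = 0 := by
      rw [Algebra.smul_def, map_natCast, h]
    rcases smul_eq_zero.1 h1 with h2 | h2
    · exact absurd (by exact_mod_cast h2) hc.ne'
    · exact h2
  have hsn : ∀ (c : ℕ) (a : A), star ((c : A) * a) = (c : A) * star a := by
    intro c a
    rw [star_mul, star_natCast, (Nat.cast_commute c (star a)).eq]
  by_cases hiso : ∃ v : Fin 2 → A, v ≠ 0 ∧ star (v 0) * v 0 + star (v 1) * v 1 = 0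
  · obtain ⟨v, hv0, hv⟩ := hiso
    obtain ⟨C, hC, hCR⟩ := exists_denom hR (Finset.univ : Finset (Fin 2 × Bool))
      (fun p => if p.2 then v p.1 else star (v p.1))
    have hC1 : ∀ i, (C : A) * v i ∈ R := fun i => by simpa using hCR (i, true) (Finset.mem_univ _)
    have hC2 : ∀ i, (C : A) * star (v i) ∈ R := fun i => by
      simpa using hCR (i, false) (Finset.mem_univ _)
    let a : ℕ → Fin 2 → A := fun k i => (((k + 1) * C : ℕ) : A) * v i
    have ha1 : ∀ k i, a k i ∈ R := fun k i => natCast_mem_mul R (hC1 i) (k + 1)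
    have ha2 : ∀ k i, star (a k i) ∈ R := by
      intro k i
      change star ((((k + 1) * C : ℕ) : A) * v i) ∈ R
      rw [hsn]
      exact natCast_mem_mul R (hC2 i) (k + 1)
    have h2R : (2 : A) ∈ R := by exact_mod_cast natCast_mem R 2
    have hmem : ∀ k, eich (a k 0) (a k 1) ∈ isoSet R 3 := by
      intro k
      constructor
      · intro i j
        fin_cases i <;> fin_cases j <;> simp only [eich, Matrix.of_apply, Matrix.cons_val',
          Matrix.cons_val_zero, Matrix.cons_val_one, Matrix.cons_val_fin_one, Fin.mk_one,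
          Fin.zero_eta, Fin.reduceFinMk, Matrix.cons_val]
        · exact R.sub_mem R.one_mem (R.mul_mem h2R (R.mul_mem (ha1 _ _) (ha2 _ _)))
        · exact R.neg_mem (R.mul_mem h2R (R.mul_mem (ha1 _ _) (ha2 _ _)))
        · exact R.mul_mem h2R (ha1 _ _)
        · exact R.neg_mem (R.mul_mem h2R (R.mul_mem (ha1 _ _) (ha2 _ _)))
        · exact R.sub_mem R.one_mem (R.mul_mem h2R (R.mul_mem (ha1 _ _) (ha2 _ _)))
        · exact R.mul_mem h2R (ha1 _ _)
        · exact R.neg_mem (R.mul_mem h2R (ha2 _ _))
        · exact R.neg_mem (R.mul_mem h2R (ha2 _ _))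
        · exact R.one_mem
      · apply eich_isometry
        have h1 : ∀ i, star (a k i) * a k i =
            ((((k + 1) * C : ℕ) : A) * (((k + 1) * C : ℕ) : A)) * (star (v i) * v i) := by
          intro i
          change star ((((k + 1) * C : ℕ) : A) * v i) * ((((k + 1) * C : ℕ) : A) * v i) = _
          rw [hsn]
          generalize ((k + 1) * C : ℕ) = n
          rw [mul_assoc, ← mul_assoc (star (v i)), ← (Nat.cast_commute n (star (v i))).eq,
            mul_assoc, ← mul_assoc]
        rw [h1, h1, ← mul_add, hv, mul_zero]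
    have hinj : Function.Injective (fun k => eich (a k 0) (a k 1)) := by
      intro k l hkl
      have h3 : ∀ i, a k i = a l i := by
        intro i
        have h4 : ∀ i, (2 : A) * a k i = 2 * a l i := by
          intro i
          fin_cases i
          · have := congrArg (fun M => M 0 2) hkl
            simpa [eich] using this
          · have := congrArg (fun M => M 1 2) hkl
            simpa [eich] using this
        have h5 : ((2 : ℕ) : A) * (a k i - a l i) = 0 := by
          push_cast
          rw [mul_sub, h4 i, sub_self]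
        exact sub_eq_zero.1 (htf 2 _ two_pos h5)
      by_contra hne
      apply hv0
      funext i
      have h4 := h3 i
      change (((k + 1) * C : ℕ) : A) * v i = (((l + 1) * C : ℕ) : A) * v i at h4
      rcases lt_or_gt_of_ne hne with h | h
      · have h5 : (((l - k) * C : ℕ) : A) * v i = 0 := by
          have h6 : (l + 1) * C = (k + 1) * C + (l - k) * C := by
            rw [← add_mul]; congr 1; omega
          rw [h6, Nat.cast_add ((k + 1) * C) ((l - k) * C),
            add_mul ((((k + 1) * C : ℕ)) : A)] at h4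
          exact left_eq_add.1 h4
        exact htf _ _ (Nat.mul_pos (by omega) hC) h5
      · have h5 : (((k - l) * C : ℕ) : A) * v i = 0 := by
          have h6 : (k + 1) * C = (l + 1) * C + (k - l) * C := by
            rw [← add_mul]; congr 1; omega
          rw [h6, Nat.cast_add ((l + 1) * C) ((k - l) * C),
            add_mul ((((l + 1) * C : ℕ)) : A)] at h4
          exact left_eq_add.1 h4.symm
        exact htf _ _ (Nat.mul_pos (by omega) hC) h5
    exact Set.infinite_of_injective_forall_mem hinj hmem hfin
  · have han : ∀ w : Matrix (Fin 2) (Fin 2) A, star w * w = 0 → w = 0 := by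
      intro w hw
      have h1 : ∀ j, (fun i => w i j) = 0 := by
        intro j
        by_contra hne
        apply hiso
        refine ⟨fun i => w i j, hne, ?_⟩
        have := congrArg (fun M => M j j) hw
        simpa [Matrix.mul_apply, Fin.sum_univ_two, Matrix.star_apply] using this
      ext i j
      exact congrFun (h1 j) i
    have S : SkewData z lam := ⟨hz, han, Algebra.IsIntegral.isIntegral z, hl, hre⟩
    let R2 : Subring (Matrix (Fin 2) (Fin 2) A) :=
      { carrier := {w | ∀ i j, w i j ∈ R}
        mul_mem' := by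
          intro a b ha hb i j
          rw [Matrix.mul_apply]
          exact R.sum_mem (fun k _ => R.mul_mem (ha i k) (hb k j))
        one_mem' := by
          intro i j
          rw [Matrix.one_apply]
          split_ifs
          · exact R.one_mem
          · exact R.zero_mem
        add_mem' := fun ha hb i j => R.add_mem (ha i j) (hb i j)
        zero_mem' := fun i j => R.zero_mem
        neg_mem' := fun ha i j => R.neg_mem (ha i j) }
    have hR2 : ∀ b : Matrix (Fin 2) (Fin 2) A, ∃ c : ℕ, 0 < c ∧
        (c : Matrix (Fin 2) (Fin 2) A) * b ∈ R2 := by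
      intro b
      obtain ⟨c, hc, hc2⟩ := exists_denom hR (Finset.univ : Finset (Fin 2 × Fin 2))
        (fun p => b p.1 p.2)
      refine ⟨c, hc, fun i j => ?_⟩
      rw [← nsmul_eq_mul, Matrix.smul_apply, nsmul_eq_mul]
      exact hc2 (i, j) (Finset.mem_univ _)
    obtain ⟨u, hu, hu1, huinj⟩ := S.exists_isometry R2 hR2
    have hpow : ∀ n : ℕ, star (u ^ n) * u ^ n = 1 := by
      intro n
      induction n with
      | zero => simp
      | succ n ih =>
        rw [pow_succ', star_mul, mul_assoc, ← mul_assoc (star u), hu1, one_mul, ih]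
    have hmem : ∀ n : ℕ, emb3 (u ^ n) ∈ isoSet R 3 := by
      intro n
      refine ⟨?_, emb3_isometry (hpow n)⟩
      have h1 : ∀ i j, (u ^ n) i j ∈ R := R2.pow_mem hu n
      intro i j
      fin_cases i <;> fin_cases j <;> simp [emb3, h1]
    have hinj : Function.Injective (fun n : ℕ => emb3 (u ^ n)) := by
      intro k l hkl
      apply huinj
      have e : ∀ i j : Fin 3, emb3 (u ^ k) i j = emb3 (u ^ l) i j := fun i j =>
        congrArg (fun M => M i j) hkl
      change u ^ k = u ^ l
      ext i j
      fin_cases i <;> fin_cases j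
      · simpa [emb3] using e 0 0
      · simpa [emb3] using e 0 1
      · simpa [emb3] using e 1 0
      · simpa [emb3] using e 1 1
    exact Set.infinite_of_injective_forall_mem hinj hmem hfin

/-- **Positivity implies finiteness of the groups of integral isometries.** -/
theorem TrData.finite_of_pos [Module.Finite ℚ A] (T : TrData τ) (hp : ∀ a, 0 ≤ τ (star a * a))
    (R : Subring A)
    (hint : ∀ a : A, ∃ N : ℕ, 0 < N ∧ ∀ u ∈ R, ∃ n : ℤ, (N : ℚ) * τ (a * u) = n) (m : ℕ) :
    (isoSet R m).Finite := by
  classical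
  let b := Module.finBasis ℚ A
  choose N hN0 hN using fun k => hint (b k)
  choose! n hn using hN
  -- Cauchy-Schwarz
  let f1 : A →ₗ[ℚ] A →ₗ[ℚ] ℚ := LinearMap.mk₂ ℚ (fun a b => τ (star a * b))
    (fun a a' b => by rw [star_add, add_mul, map_add])
    (fun q a b => by rw [star_rat_smul, smul_mul_assoc, map_smul])
    (fun a b b' => by rw [mul_add, map_add])
    (fun q a b => by rw [mul_smul_comm, map_smul])
  have hcs : ∀ x y : A, τ (star x * y) ^ 2 ≤ τ (star x * x) * τ (star y * y) := by
    intro x y
    have h1 : ∀ t : ℚ, 0 ≤ τ (star x * x) + 2 * t * τ (star x * y) + t ^ 2 * τ (star y * y) := by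
      intro t
      have h2 := hp (x + t • y)
      rw [star_add, star_rat_smul, add_mul, mul_add, mul_add, smul_mul_assoc, smul_mul_assoc,
        mul_smul_comm, mul_smul_comm, map_add, map_add, map_add, map_smul, map_smul, map_smul,
        map_smul, T.form_symm y x] at h2
      simp only [smul_eq_mul] at h2
      nlinarith [h2]
    have h3 := hp y
    rcases h3.lt_or_eq with h4 | h4
    · have h5 := h1 (-(τ (star x * y)) / τ (star y * y))
      have h6 : τ (star x * x) + 2 * (-(τ (star x * y)) / τ (star y * y)) * τ (star x * y) +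
          (-(τ (star x * y)) / τ (star y * y)) ^ 2 * τ (star y * y) =
          τ (star x * x) - τ (star x * y) ^ 2 / τ (star y * y) := by
        field_simp
        ring
      rw [h6, sub_nonneg, div_le_iff₀ h4] at h5
      exact h5
    · rw [← h4, mul_zero]
      by_contra hc
      have h5 := h1 (-(τ (star x * x) + 1) / (2 * τ (star x * y)))
      have h6 : τ (star x * y) ≠ 0 := by
        intro h; apply hc; rw [h]; norm_num
      rw [← h4] at h5
      have h7 : τ (star x * x) + 2 * (-(τ (star x * x) + 1) / (2 * τ (star x * y))) *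
          τ (star x * y) + (-(τ (star x * x) + 1) / (2 * τ (star x * y))) ^ 2 * 0 = -1 := by
        field_simp
        ring
      rw [h7] at h5
      linarith
  -- the bound
  have hbd : ∀ u ∈ isoSet R m, ∀ i j, τ (star (u i j) * u i j) ≤ m * τ 1 := by
    rintro u ⟨-, hu⟩ i j
    have h1 : fm τ m u u = m * τ 1 := by
      rw [fm_apply, hu, mtr_apply]
      simp
    rw [← h1, fm_eq]
    refine le_trans ?_ (Finset.single_le_sum (f := fun j => ∑ i, τ (star (u i j) * u i j))
      (fun j _ => Finset.sum_nonneg (fun i _ => hp _)) (Finset.mem_univ j))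
    exact Finset.single_le_sum (f := fun i => τ (star (u i j) * u i j))
      (fun i _ => hp _) (Finset.mem_univ i)
  have hτ1 : 0 ≤ τ 1 := by simpa using hp 1
  obtain ⟨M, hM⟩ : ∃ M : ℕ, ∀ k, ((N k : ℚ)) ^ 2 * (τ (b k * star (b k)) * (m * τ 1)) ≤ M := by
    obtain ⟨M, hM⟩ := exists_nat_ge (∑ k, ((N k : ℚ)) ^ 2 * (τ (b k * star (b k)) * (m * τ 1)))
    refine ⟨M, fun k => le_trans ?_ hM⟩
    apply Finset.single_le_sum (f := fun k => ((N k : ℚ)) ^ 2 * (τ (b k * star (b k)) *
      (m * τ 1))) _ (Finset.mem_univ k)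
    intro k _
    have h2 := hp (star (b k))
    rw [star_star] at h2
    positivity
  let Φ : Matrix (Fin m) (Fin m) A → (Fin m → Fin m → Fin (Module.finrank ℚ A) → ℤ) :=
    fun u i j k => n k (u i j)
  have hbox : ∀ u ∈ isoSet R m, ∀ i j k, Φ u i j k ∈ Set.Icc (-(M : ℤ)) M := by
    intro u hu i j k
    have h1 := hn k (u i j) (hu.1 i j)
    have h2 := hcs (star (b k)) (u i j)
    rw [star_star] at h2
    have h3 := hbd u hu i j
    have h4 := hp (star (b k))
    rw [star_star] at h4
    have h5 : ((n k (u i j) : ℤ) : ℚ) ^ 2 ≤ M := by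
      rw [← h1, mul_pow]
      refine le_trans ?_ (hM k)
      apply mul_le_mul_of_nonneg_left _ (by positivity)
      exact h2.trans (mul_le_mul_of_nonneg_left h3 h4)
    have h6 : (n k (u i j)) ^ 2 ≤ (M : ℤ) := by exact_mod_cast h5
    change n k (u i j) ∈ _
    constructor
    · nlinarith [sq_nonneg (n k (u i j) + 1), sq_nonneg (n k (u i j)), h6,
        Int.le_self_sq (-(n k (u i j)))]
    · nlinarith [Int.le_self_sq (n k (u i j))]
  have hinj : Set.InjOn Φ (isoSet R m) := by
    intro u hu v hv huv
    ext i j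
    have h1 : ∀ k, τ (b k * (u i j - v i j)) = 0 := by
      intro k
      have h2 := congrFun (congrFun (congrFun huv i) j) k
      change n k (u i j) = n k (v i j) at h2
      have h3 := hn k (u i j) (hu.1 i j)
      have h4 := hn k (v i j) (hv.1 i j)
      rw [h2, ← h4] at h3
      have h5 : (N k : ℚ) ≠ 0 := by exact_mod_cast (hN0 k).ne'
      rw [mul_sub, map_sub, mul_left_cancel₀ h5 h3, sub_self]
    rw [← sub_eq_zero]
    apply T.nondeg
    intro a
    rw [T.comm, ← b.sum_repr a, Finset.sum_mul, map_sum]
    apply Finset.sum_eq_zero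
    intro k _
    rw [smul_mul_assoc, map_smul, h1, smul_zero]
  apply Set.Finite.of_finite_image _ hinj
  apply Set.Finite.subset (s := {g : Fin m → Fin m → Fin (Module.finrank ℚ A) → ℤ |
    ∀ i j k, g i j k ∈ Set.Icc (-(M : ℤ)) M})
  · have : {g : Fin m → Fin m → Fin (Module.finrank ℚ A) → ℤ |
        ∀ i j k, g i j k ∈ Set.Icc (-(M : ℤ)) M} =
        Set.pi Set.univ (fun _ => Set.pi Set.univ (fun _ => Set.pi Set.univ
          (fun _ => Set.Icc (-(M : ℤ)) M))) := by
      ext g; simp only [Set.mem_pi, Set.mem_univ, true_implies, Set.mem_ofPred_eq]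
    rw [this]
    exact Set.Finite.pi (fun _ => Set.Finite.pi (fun _ => Set.Finite.pi
      (fun _ => Set.finite_Icc _ _)))
  · rintro _ ⟨u, hu, rfl⟩
    exact hbox u hu

end Finite

end Pool.Agent.R911.Iso
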