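import Pool.Agent.R911.Iso.Quot
import Pool.Agent.W539.Ker.Ops
import Pool.Agent.W539.Ker.Fam
import Pool.Agent.H914R2.GConv

/-!
# The algebra of the correspondences of degree zero with the Lefschetz involution
-/

open CategoryTheory AlgebraicGeometry Finset

universe u v

namespace Pool.Agent.R911.Iso

open Pool.Agent.H914 Pool.Agent.H914.VarClass Pool.Agent.H914.VarClass.Obj
  Pool.Agent.H914.WeilCohomology Pool.Agent.H281R3.HT Pool.Agent.W552 Pool.Agent.W539.Ker

variable {k : Type u} [Field k] {𝒱 : VarClass k} {ops : CycleOps 𝒱}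

/-- The ring of the algebraic operators of degree zero. -/
def AR (W : WeilCohomology.{u, v} ops) (X : 𝒱.Obj) : Subring (Module.End W.K (W.H X)) where
  carrier := {u | ROp W X 0 u}
  mul_mem' := rop_mul0
  one_mem' := rop_opAlg.one
  add_mem' := rop_opAlg.add
  zero_mem' := rop_opAlg.zero 0
  neg_mem' := rop_opAlg.neg

variable {W : WeilCohomology.{u, v} ops} {X : 𝒱.Obj}

lemma mem_AR {u : Module.End W.K (W.H X)} : u ∈ AR W X ↔ ROp W X 0 u := Iff.rfl

noncomputable instance : Algebra ℚ (AR W X) :=
  RingHom.toAlgebra'
    { toFun := fun q => ⟨(q : W.K) • 1, rop_opAlg.smul q rop_opAlg.one⟩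
      map_one' := by
        apply Subtype.ext
        change ((1 : ℚ) : W.K) • (1 : Module.End W.K (W.H X)) = 1
        rw [Rat.cast_one, one_smul]
      map_mul' := by
        intro a b
        apply Subtype.ext
        change ((a * b : ℚ) : W.K) • (1 : Module.End W.K (W.H X)) =
          ((a : W.K) • 1) * ((b : W.K) • 1)
        rw [Rat.cast_mul, smul_mul_smul_comm, one_mul]
      map_zero' := by
        apply Subtype.ext
        change ((0 : ℚ) : W.K) • (1 : Module.End W.K (W.H X)) = 0
        rw [Rat.cast_zero, zero_smul]
      map_add' := by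
        intro a b
        apply Subtype.ext
        change ((a + b : ℚ) : W.K) • (1 : Module.End W.K (W.H X)) =
          ((a : W.K) • 1) + ((b : W.K) • 1)
        rw [Rat.cast_add, add_smul] }
    (by
      intro q x
      apply Subtype.ext
      change ((q : W.K) • 1) * (x : Module.End W.K (W.H X)) = x * ((q : W.K) • 1)
      rw [smul_mul_assoc, one_mul, mul_smul_comm, mul_one])

lemma AR.coe_smul (q : ℚ) (x : AR W X) :
    ((q • x : AR W X) : Module.End W.K (W.H X)) = (q : W.K) • (x : Module.End W.K (W.H X)) := by
  rw [Algebra.smul_def]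
  change ((q : W.K) • 1) * (x : Module.End W.K (W.H X)) = _
  rw [smul_mul_assoc, one_mul]

/-- The action on the cohomology. -/
def rho (W : WeilCohomology.{u, v} ops) (X : 𝒱.Obj) : AR W X →+* Module.End W.K (W.H X) :=
  (AR W X).subtype

lemma rho_apply (x : AR W X) : rho W X x = (x : Module.End W.K (W.H X)) := rfl

/-- Algebraic operators of weight zero are induced by cycles of the middle codimension. -/
lemma rop_of_aop {u : Module.End W.K (W.H X)} (h : AOp W X X u) (h0 : Hm W 0 u) :
    ROp W X 0 u := by
  obtain ⟨c, hc, rfl⟩ := h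
  have h1 := hm_corr.1 h0
  rcases AS_wt (W := W) hc (m := 0) h1 with rfl | ⟨j, hj, hcj⟩
  · rw [corr_zero]; exact rop_opAlg.zero 0
  · obtain ⟨z, hz, rfl⟩ := hcj
    have : j = X.dim := by
      rw [dim_prod] at hj
      push_cast at hj
      omega
    subst this
    exact rop_of_cyc hz

lemma hm_of_rop {u : Module.End W.K (W.H X)} (h : ROp W X 0 u) : Hm W 0 u := by
  obtain ⟨z, hz, rfl⟩ := cyc_of_rop h
  rw [hm_corr]
  rw [Fr.wt_gr (W.cl_mem hz), dim_prod]
  push_cast
  congr 1
  ring

lemma par_comm_of_rop {u : Module.End W.K (W.H X)} (h : ROp W X 0 u) (x : W.H X) :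
    u (par (W.isInternal X) x) = par (W.isInternal X) (u x) := by
  have h1 : u * par (W.isInternal X) = par (W.isInternal X) * u := by
    apply gr_ext (W.isInternal X)
    intro i a ha
    have h2 : u a ∈ W.gr X i := by
      have h3 := rop_opAlg.hom h i a ha
      rwa [mul_zero, add_zero, grZ_natCast] at h3
    rw [Module.End.mul_apply, Module.End.mul_apply, par, scal_apply _ _ ha, scal_apply _ _ h2,
      map_smul]
  exact congrArg (fun F => F x) h1

section Adj

variable {D : X.Cycles} {f : Module.End W.K (W.H X)} (G : Gd W X D f)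

include G

lemma exists_adj (u : AR W X) : ∃ u' : AR W X, ∀ p q,
    bf W X D f ((u : Module.End W.K (W.H X)) p) q =
      bf W X D f p ((u' : Module.End W.K (W.H X)) q) := by
  obtain ⟨u', hu', hadj⟩ := G.adj G (AOp.of_rop u.2)
  have h1 : Hm W 0 u' := by
    have := G.hm_adj G hadj (hm_of_rop u.2)
    simpa using this
  exact ⟨⟨u', rop_of_aop hu' h1⟩, hadj⟩

/-- The adjoint. -/
noncomputable def adjR (u : AR W X) : AR W X := (exists_adj G u).choose

lemma adjR_spec (u : AR W X) (p q : W.H X) :
    bf W X D f ((u : Module.End W.K (W.H X)) p) q =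
      bf W X D f p ((adjR G u : Module.End W.K (W.H X)) q) :=
  (exists_adj G u).choose_spec p q

lemma adjR_unique {u v : AR W X} (h : ∀ p q,
    bf W X D f ((u : Module.End W.K (W.H X)) p) q =
      bf W X D f p ((v : Module.End W.K (W.H X)) q)) : v = adjR G u := by
  apply Subtype.ext
  apply LinearMap.ext
  intro q
  rw [← sub_eq_zero]
  apply G.nondeg
  intro p
  rw [map_sub, ← h, ← adjR_spec G, sub_self]

lemma adjR_symm (u : AR W X) (p q : W.H X) :
    bf W X D f ((adjR G u : Module.End W.K (W.H X)) p) q =
      bf W X D f p ((u : Module.End W.K (W.H X)) q) := by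
  rw [G.sy, ← adjR_spec G, par_comm_of_rop u.2, ← G.sy]

/-- The Lefschetz involution. -/
@[reducible]
noncomputable def starR : StarRing (AR W X) where
  star := adjR G
  star_involutive := by
    intro u
    exact (adjR_unique G (adjR_symm G u)).symm
  star_mul := by
    intro u v
    symm
    apply adjR_unique G
    intro p q
    change bf W X D f ((u : Module.End W.K (W.H X)) ((v : Module.End W.K (W.H X)) p)) q =
      bf W X D f p ((adjR G v : Module.End W.K (W.H X))
        ((adjR G u : Module.End W.K (W.H X)) q))
    rw [adjR_spec G, adjR_spec G]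
  star_add := by
    intro u v
    symm
    apply adjR_unique G
    intro p q
    change bf W X D f ((u : Module.End W.K (W.H X)) p + (v : Module.End W.K (W.H X)) p) q =
      bf W X D f p ((adjR G u : Module.End W.K (W.H X)) q +
        (adjR G v : Module.End W.K (W.H X)) q)
    rw [map_add, LinearMap.add_apply, adjR_spec G, adjR_spec G, map_add]

/-- The traces are rational. -/
lemma ratRep : RatRep (rho W X) where
  smul q r := AR.coe_smul q r
  rat r := G.trace_rat (AOp.of_rop r.2)

/-- The involution preserves the trace. -/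
lemma starTrace : letI := starR G; StarTrace (rho W X) := by
  intro u
  change LinearMap.trace W.K (W.H X) (adjR G u : Module.End W.K (W.H X)) =
    LinearMap.trace W.K (W.H X) (u : Module.End W.K (W.H X))
  let β : W.H X →ₗ[W.K] Module.Dual W.K (W.H X) := (bf W X D f).flip
  have hinj : Function.Injective β := by
    rw [injective_iff_map_eq_zero]
    intro z hz
    apply G.nondeg
    intro y
    exact congrArg (fun F => F y) hz
  have hbij : Function.Bijective β := by
    refine ⟨hinj, ?_⟩
    exact (LinearMap.injective_iff_surjective_of_finrank_eq_finrank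
      (Subspace.dual_finrank_eq (K := W.K) (V := W.H X)).symm).1 hinj
  let e := LinearEquiv.ofBijective β hbij
  have h1 : e.conj (adjR G u : Module.End W.K (W.H X)) =
      Module.Dual.transpose (R := W.K) (u : Module.End W.K (W.H X)) := by
    apply LinearMap.ext
    intro φ
    obtain ⟨y, rfl⟩ := e.surjective φ
    rw [LinearEquiv.conj_apply_apply, LinearEquiv.symm_apply_apply]
    apply LinearMap.ext
    intro x
    change bf W X D f x ((adjR G u : Module.End W.K (W.H X)) y) = bf W X D f
      ((u : Module.End W.K (W.H X)) x) y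
    rw [adjR_spec G]
  rw [← LinearMap.trace_conj' _ e, h1]
  exact LinearMap.trace_transpose' _

end Adj

end Pool.Agent.R911.Iso
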