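import Pool.Agent.W539.Ker.Defs

/-!
# Isometries of the cohomology and of the numerical motive: definitions
-/

open CategoryTheory AlgebraicGeometry Polynomial

universe u v

namespace Pool.Agent.R911.Iso

open Pool.Agent.H914 Pool.Agent.H914.VarClass Pool.Agent.H914.VarClass.Obj
  Pool.Agent.W539.Ker

section Lin

variable {K : Type*} [Field K] {V : Type*} [AddCommGroup V] [Module K V] {A : Type*} [Ring A]
  [Algebra K A]

/-- The operator `s` is the star operator of the operator `L` (of degree `2`, satisfying hard
Lefschetz in dimension `n`): if `x` is primitive of degree `i ≤ n`, then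
`s (L ^ j x) = (-1) ^ (i (i + 1) / 2) j! / (n - i - j)! L ^ (n - i - j) x` for `j ≤ n - i`. -/
def StarFor (gr : ℕ → Submodule K V) (n : ℕ) (L s : Module.End K V) : Prop :=
  ∀ i ≤ n, ∀ x ∈ gr i, (L ^ (n - i + 1)) x = 0 → ∀ j ≤ n - i,
    s ((L ^ j) x) = ((-1 : K) ^ (i * (i + 1) / 2) * ((j.factorial : K) *
      ((n - i - j).factorial : K)⁻¹)) • (L ^ (n - i - j)) x

/-- The operators `a` and `b` are adjoint for the form `(x, y) ↦ tr (x · s y)`. -/
def AdjointFor (tr : A →ₗ[K] K) (s a b : Module.End K A) : Prop :=
  ∀ x y, tr (a x * s y) = tr (x * s (b y))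

/-- The operator `F` on `A ^ m` preserves the form `(x, y) ↦ ∑ i, tr (x i · s (y i))`. -/
def PreservesForm (tr : A →ₗ[K] K) (s : Module.End K A) (m : ℕ)
    (F : Module.End K (Fin m → A)) : Prop :=
  ∀ x y, ∑ i, tr (F x i * s (F y i)) = ∑ i, tr (x i * s (y i))

/-- The operator on `V ^ m` given by a matrix of operators on `V`. -/
noncomputable def matEnd (m : ℕ) (a : Fin m → Fin m → Module.End K V) :
    Module.End K (Fin m → V) :=
  LinearMap.pi fun i => ∑ j, a i j ∘ₗ LinearMap.proj j

/-- The operator `F` is annihilated by a nonzero polynomial with rational coefficients all of whose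
complex roots lie in `S`. -/
def RootsIn [CharZero K] (F : Module.End K V) (S : Set ℂ) : Prop :=
  ∃ P : ℚ[X], P ≠ 0 ∧ aeval F (P.map (algebraMap ℚ K)) = 0 ∧ ∀ z : ℂ, aeval z P = 0 → z ∈ S

end Lin

variable {k : Type u} [Field k] {𝒱 : VarClass k} {ops : CycleOps 𝒱}

/-- The cycle `z` on `X` has integral coefficients. -/
def IntegralCycle (X : 𝒱.Obj) (z : X.Cycles) : Prop :=
  ∀ x, ∃ n : ℤ, X.V.coeff z x = n

/-- Products, pull-backs and push-forwards of homogeneous cycles with integral coefficients have
integral coefficients: the operations on cycles represent those of the Chow groups with integral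
coefficients. -/
structure IntegralOps (ops : CycleOps 𝒱) : Prop where
  mul : ∀ {X : 𝒱.Obj} {p q : ℕ} {z w : X.Cycles}, X.IsCyc p z → X.IsCyc q w →
    IntegralCycle X z → IntegralCycle X w → IntegralCycle X (ops.mul z w)
  pull : ∀ {X Y : 𝒱.Obj} (f : X ⟶ Y) {p : ℕ} {z : Y.Cycles}, Y.IsCyc p z →
    IntegralCycle Y z → IntegralCycle X (ops.pull f z)
  push : ∀ {X Y : 𝒱.Obj} (f : X ⟶ Y) {p : ℕ} {z : X.Cycles}, X.IsCyc p z →
    IntegralCycle X z → IntegralCycle Y (ops.push f z)

/-- The cycle `z` of codimension `p` on `X` is numerically equivalent to zero. -/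
def NumZero (ops : CycleOps 𝒱) (X : 𝒱.Obj) (p : ℕ) (z : X.Cycles) : Prop :=
  ∀ w, X.IsCyc (X.dim - p) w → X.V.degCycle (ops.mul z w) = 0

/-- The standard conjecture of Hodge type for `X` and the divisor `D`: for `2 n ≤ dim X` the
pairing `(-1) ^ n deg (z · D ^ (dim X - 2 n) · z)` is positive on all cycles `z` of codimension `n`
with primitive class which are not numerically equivalent to zero. -/
def HodgeStandard (W : WeilCohomology.{u, v} ops) (X : 𝒱.Obj) (D : X.Cycles) : Prop :=
  ∀ n, 2 * n ≤ X.dim → ∀ z, Primitive W X D n z → ¬ NumZero ops X n z →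
    0 < pairing ops X D n z z

/-- The operator `s` is the Hodge star operator of `X` and `D` (without the factors
`i ^ (p - q)`): the star operator of the cup product with the class of `D`. -/
def IsStar (W : WeilCohomology.{u, v} ops) (X : 𝒱.Obj) (D : X.Cycles)
    (s : Module.End W.K (W.H X)) : Prop :=
  StarFor (W.gr X) X.dim (LinearMap.mulLeft W.K (W.cl X D)) s

/-- The operator of a correspondence on the cohomology of `X`. -/
noncomputable def act (W : WeilCohomology.{u, v} ops) (X : 𝒱.Obj) (u : (X.prod X).Cycles) :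
    Module.End W.K (W.H X) :=
  W.corr (W.cl _ u)

/-- The correspondences `u` and `v` on `X` are adjoint for the Hodge-Riemann form
`(x, y) ↦ tr (x · s y)`. -/
def IsAdjoint (W : WeilCohomology.{u, v} ops) (X : 𝒱.Obj) (s : Module.End W.K (W.H X))
    (u v : (X.prod X).Cycles) : Prop :=
  AdjointFor (W.tr X) s (act W X u) (act W X v)

/-- The operator on `H(X) ^ m` given by a matrix of correspondences. -/
noncomputable def matOp (W : WeilCohomology.{u, v} ops) (X : 𝒱.Obj) (m : ℕ)
    (u : Fin m → Fin m → (X.prod X).Cycles) : Module.End W.K (Fin m → W.H X) :=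
  matEnd m fun i j => act W X (u i j)

/-- The Riemann hypothesis for the algebraic isometries of `H(X) ^ m`: if the operator of a matrix
of cycles of codimension `dim X` on `X × X` preserves the Hodge-Riemann form
`∑ i, tr (x i · s (y i))`, then its eigenvalues are algebraic numbers all of whose complex
conjugates have absolute value one. -/
def IsometriesRiemann (W : WeilCohomology.{u, v} ops) (X : 𝒱.Obj) (s : Module.End W.K (W.H X))
    (m : ℕ) : Prop :=
  ∀ u : Fin m → Fin m → (X.prod X).Cycles, (∀ i j, (X.prod X).IsCyc X.dim (u i j)) →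
    PreservesForm (W.tr X) s m (matOp W X m u) → RootsIn (matOp W X m u) {z | ‖z‖ = 1}

/-- Self-adjoint correspondences have real, and skew-adjoint correspondences have purely imaginary
eigenvalues. -/
def RealSpectrum (W : WeilCohomology.{u, v} ops) (X : 𝒱.Obj) (s : Module.End W.K (W.H X)) :
    Prop :=
  ∀ u : (X.prod X).Cycles, (X.prod X).IsCyc X.dim u →
    (IsAdjoint W X s u u → RootsIn (act W X u) {z | z.im = 0}) ∧
      (IsAdjoint W X s u (-u) → RootsIn (act W X u) {z | z.re = 0})

/-- The matrix `u` of cycles of codimension `dim X` on `X × X` is an isometry of the sum of `m`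
copies of the motive of `X` modulo numerical equivalence: `u* u` is numerically equivalent to the
identity matrix, where `u*` is the transpose of the matrix of the adjoint cycles. -/
def IsNumIsometry (W : WeilCohomology.{u, v} ops) (X : 𝒱.Obj) (s : Module.End W.K (W.H X))
    (m : ℕ) (u : Fin m → Fin m → (X.prod X).Cycles) : Prop :=
  (∀ i j, (X.prod X).IsCyc X.dim (u i j)) ∧
  ∃ v : Fin m → Fin m → (X.prod X).Cycles,
    (∀ i j, (X.prod X).IsCyc X.dim (v i j) ∧ IsAdjoint W X s (u j i) (v i j)) ∧
    ∀ i j, NumZero ops (X.prod X) X.dim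
      ((∑ l, compCyc ops (u l j) (v i l)) -
        if i = j then ops.push (diag X) X.V.fundCycle else 0)

/-- Up to numerical equivalence there are only finitely many isometries with integral coefficients
of the sum of `m` copies of the motive of `X`: each one is numerically equivalent to a member of a
finite set of matrices of cycles of codimension `dim X` on `X × X`. -/
def FinitelyManyIsometries (W : WeilCohomology.{u, v} ops) (X : 𝒱.Obj)
    (s : Module.End W.K (W.H X)) (m : ℕ) : Prop :=
  ∃ S : Finset (Fin m → Fin m → (X.prod X).Cycles),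
    (∀ u ∈ S, ∀ i j, (X.prod X).IsCyc X.dim (u i j)) ∧
    ∀ u, IsNumIsometry W X s m u → (∀ i j, IntegralCycle (X.prod X) (u i j)) →
      ∃ u' ∈ S, ∀ i j, NumZero ops (X.prod X) X.dim (u i j - u' i j)

end Pool.Agent.R911.Iso
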