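import Pool.Agent.R911.Iso.Geo

/-!
# Existence and uniqueness of the Hodge star operator
-/

open CategoryTheory AlgebraicGeometry Finset Polynomial

universe u v

namespace Pool.Agent.R911.Iso

open Pool.Agent.H914 Pool.Agent.H914.VarClass Pool.Agent.H914.VarClass.Obj
  Pool.Agent.H914.WeilCohomology Pool.Agent.H281R3.HT Pool.Agent.W552 Pool.Agent.W539.Ker

variable {k : Type u} [Field k] {𝒱 : VarClass k} {ops : CycleOps 𝒱}
  {W : WeilCohomology.{u, v} ops} {X : 𝒱.Obj}
  {D : X.Cycles} {f : Module.End W.K (W.H X)} (G : Gd W X D f)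

include G

/-- The star operator exists. -/
lemma isStar_st : IsStar0 W X D (st W X D f * par (W.isInternal X)) := by
  intro i hi a ha hp j hj
  have h4 := pow_L_mem G.ls.hL ha j
  rw [Module.End.mul_apply, par, scal_apply _ _ h4, map_smul, st_apply h4, wop,
    G.ls.w_L_pow hi ha hp hj, smul_smul, smul_smul]
  congr 1
  have e1 : (sg (i + 2 * j) : W.K) = (sg i : W.K) * (-1) ^ j := by
    rw [sg_add, sg_two_mul, show i * (2 * j) = 2 * (i * j) by ring, pow_mul (-1 : ℤ) 2]
    push_cast
    simp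
  have e2 : ((-1 : W.K)) ^ (i * (i + 1) / 2) = (-1) ^ (i + 2 * j) * (sg i : W.K) := by
    rw [sg]
    push_cast
    rw [← pow_add]
    have h5 : i * (i + 1) / 2 = i * (i - 1) / 2 + i := by
      rcases Nat.eq_zero_or_pos i with rfl | h
      · simp
      · obtain ⟨m, rfl⟩ : ∃ m, i = m + 1 := ⟨i - 1, by omega⟩
        rw [Nat.add_sub_cancel]
        have h6 : (m + 1) * (m + 1 + 1) = (m + 1) * m + 2 * (m + 1) := by ring
        rw [h6, Nat.add_mul_div_left _ _ (by norm_num : 0 < 2)]
    rw [h5, show i + 2 * j + i * (i - 1) / 2 = (i * (i - 1) / 2 + i) + 2 * j by ring,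
      pow_add _ (i * (i - 1) / 2 + i), pow_mul (-1 : W.K) 2]
    simp
  have e3 : ((-1 : W.K)) ^ j * (-1) ^ j = 1 := by rw [← mul_pow]; simp
  rw [e1, e2]
  linear_combination ((-1 : W.K) ^ (i + 2 * j) * (sg i : W.K) * ((j.factorial : W.K) *
    ((X.dim - i - j).factorial : W.K)⁻¹)) * e3

/-- The star operator exists and is unique. -/
theorem existsUnique_star : ∃! s, IsStar0 W X D s := by
  refine ⟨_, isStar_st G, fun s hs => ?_⟩
  apply LinearMap.ext
  intro x
  rw [star_eq G hs, Module.End.mul_apply]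

end Pool.Agent.R911.Iso
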