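import Pool.Agent.R911.Iso.Geo4
import Pool.Agent.R911.Iso.Star

/-!
# The two criteria
-/

open CategoryTheory AlgebraicGeometry Finset Polynomial

universe u v

namespace Pool.Agent.R911.Iso

open Pool.Agent.H914 Pool.Agent.H914.VarClass Pool.Agent.H914.VarClass.Obj
  Pool.Agent.H914.WeilCohomology Pool.Agent.H281R3.HT Pool.Agent.W552 Pool.Agent.W539.Ker

variable {k : Type u} [Field k] {𝒱 : VarClass k} {ops : CycleOps 𝒱}
  {W : WeilCohomology.{u, v} ops} {X : 𝒱.Obj} {D : X.Cycles}

lemma isStar_iff {s : Module.End W.K (W.H X)} : IsStar W X D s ↔ IsStar0 W X D s := Iff.rfl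

lemma isometriesRiemann_iff {s : Module.End W.K (W.H X)} {m : ℕ} :
    IsometriesRiemann W X s m ↔ IsometriesRiemann0 W X s m := Iff.rfl

lemma realSpectrum_iff {s : Module.End W.K (W.H X)} :
    RealSpectrum W X s ↔ RealSpectrum0 W X s := Iff.rfl

lemma finitelyManyIsometries_iff {s : Module.End W.K (W.H X)} {m : ℕ} :
    FinitelyManyIsometries W X s m ↔ FinitelyManyIsometries0 W X s m := Iff.rfl

/-- The star operator exists and is unique. -/
theorem star_existsUnique (hD : X.IsCyc 1 D) (hHL : HardLefschetz W X D)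
    (hB : LefschetzB W X D) : ∃! s, IsStar W X D s := by
  obtain ⟨f, G⟩ := exists_gd hD hHL hB
  exact existsUnique_star G

/-- The spectral criterion. -/
theorem spectral_criterion (hD : X.IsCyc 1 D) (hHL : HardLefschetz W X D)
    (hB : LefschetzB W X D) {s : Module.End W.K (W.H X)} (hs : IsStar W X D s) :
    List.TFAE [HodgeStandard W (X.prod X) (boxSum ops D), RealSpectrum W X s,
        IsometriesRiemann W X s 2, ∀ m, IsometriesRiemann W X s m] := by
  obtain ⟨f, G⟩ := exists_gd hD hHL hB
  exact spectral_tfae G hs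

/-- The criterion by finiteness. -/
theorem finite_criterion (hI : IntegralOps ops) (hD : X.IsCyc 1 D) (hHL : HardLefschetz W X D)
    (hB : LefschetzB W X D) {s : Module.End W.K (W.H X)} (hs : IsStar W X D s) :
    List.TFAE [HodgeStandard W (X.prod X) (boxSum ops D), FinitelyManyIsometries W X s 3,
        ∀ m, FinitelyManyIsometries W X s m] := by
  obtain ⟨f, G⟩ := exists_gd hD hHL hB
  exact finite_tfae G hI hs

end Pool.Agent.R911.Iso
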