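import Pool.Agent.R911.Iso.Defs

/-!
# Unfolded forms of the definitions
-/

open CategoryTheory AlgebraicGeometry Polynomial

universe u v

namespace Pool.Agent.R911.Iso

open Pool.Agent.H914 Pool.Agent.H914.VarClass Pool.Agent.H914.VarClass.Obj
  Pool.Agent.W539.Ker

variable {k : Type u} [Field k] {𝒱 : VarClass k} {ops : CycleOps 𝒱}

/-- The operator `s` is the Hodge star operator (without the factors `i ^ (p - q)`): if `x` is
primitive of degree `i ≤ n = dim X` and `L` is the cup product with the class of `D`, then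
`s (L ^ j x) = (-1) ^ (i (i + 1) / 2) j! / (n - i - j)! L ^ (n - i - j) x` for `j ≤ n - i`. -/
def IsStar0 (W : WeilCohomology.{u, v} ops) (X : 𝒱.Obj) (D : X.Cycles)
    (s : Module.End W.K (W.H X)) : Prop :=
  ∀ i ≤ X.dim, ∀ x ∈ W.gr X i,
    ((LinearMap.mulLeft W.K (W.cl X D)) ^ (X.dim - i + 1)) x = 0 → ∀ j ≤ X.dim - i,
      s (((LinearMap.mulLeft W.K (W.cl X D)) ^ j) x) =
        ((-1 : W.K) ^ (i * (i + 1) / 2) * ((j.factorial : W.K) *
          ((X.dim - i - j).factorial : W.K)⁻¹)) •
            ((LinearMap.mulLeft W.K (W.cl X D)) ^ (X.dim - i - j)) x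

/-- The correspondences `u` and `v` on `X` are adjoint for the Hodge-Riemann form
`(x, y) ↦ tr (x · s y)`. -/
def IsAdjoint0 (W : WeilCohomology.{u, v} ops) (X : 𝒱.Obj) (s : Module.End W.K (W.H X))
    (u v : (X.prod X).Cycles) : Prop :=
  ∀ x y, W.tr X (W.corr (W.cl _ u) x * s y) = W.tr X (x * s (W.corr (W.cl _ v) y))

/-- The operator on `H(X) ^ m` given by a matrix of correspondences. -/
noncomputable def matOp0 (W : WeilCohomology.{u, v} ops) (X : 𝒱.Obj) (m : ℕ)
    (u : Fin m → Fin m → (X.prod X).Cycles) : Module.End W.K (Fin m → W.H X) :=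
  LinearMap.pi fun i => ∑ j, W.corr (W.cl _ (u i j)) ∘ₗ LinearMap.proj j

/-- The Riemann hypothesis for the algebraic isometries of `H(X) ^ m`: if the operator of a matrix
of cycles of codimension `dim X` on `X × X` preserves the Hodge-Riemann form
`∑ i, tr (x i · s (y i))`, then its eigenvalues are algebraic numbers all of whose complex
conjugates have absolute value one. -/
def IsometriesRiemann0 (W : WeilCohomology.{u, v} ops) (X : 𝒱.Obj) (s : Module.End W.K (W.H X))
    (m : ℕ) : Prop :=
  ∀ u : Fin m → Fin m → (X.prod X).Cycles, (∀ i j, (X.prod X).IsCyc X.dim (u i j)) →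
    (∀ x y, ∑ i, W.tr X (matOp0 W X m u x i * s (matOp0 W X m u y i)) =
      ∑ i, W.tr X (x i * s (y i))) →
    RootsIn (matOp0 W X m u) {z | ‖z‖ = 1}

/-- Self-adjoint correspondences have real, and skew-adjoint correspondences have purely imaginary
eigenvalues. -/
def RealSpectrum0 (W : WeilCohomology.{u, v} ops) (X : 𝒱.Obj) (s : Module.End W.K (W.H X)) :
    Prop :=
  ∀ u : (X.prod X).Cycles, (X.prod X).IsCyc X.dim u →
    (IsAdjoint0 W X s u u → RootsIn (W.corr (W.cl _ u)) {z | z.im = 0}) ∧
      (IsAdjoint0 W X s u (-u) → RootsIn (W.corr (W.cl _ u)) {z | z.re = 0})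

/-- The matrix `u` of cycles of codimension `dim X` on `X × X` is an isometry of the sum of `m`
copies of the motive of `X` modulo numerical equivalence: `u* u` is numerically equivalent to the
identity matrix, where `u*` is the transpose of the matrix of the adjoint cycles. -/
def IsNumIsometry0 (W : WeilCohomology.{u, v} ops) (X : 𝒱.Obj) (s : Module.End W.K (W.H X))
    (m : ℕ) (u : Fin m → Fin m → (X.prod X).Cycles) : Prop :=
  (∀ i j, (X.prod X).IsCyc X.dim (u i j)) ∧
  ∃ v : Fin m → Fin m → (X.prod X).Cycles,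
    (∀ i j, (X.prod X).IsCyc X.dim (v i j) ∧ IsAdjoint0 W X s (u j i) (v i j)) ∧
    ∀ i j, NumZero ops (X.prod X) X.dim
      ((∑ l, compCyc ops (u l j) (v i l)) -
        if i = j then ops.push (diag X) X.V.fundCycle else 0)

/-- Up to numerical equivalence there are only finitely many isometries with integral coefficients
of the sum of `m` copies of the motive of `X`: each one is numerically equivalent to a member of a
finite set of matrices of cycles of codimension `dim X` on `X × X`. -/
def FinitelyManyIsometries0 (W : WeilCohomology.{u, v} ops) (X : 𝒱.Obj)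
    (s : Module.End W.K (W.H X)) (m : ℕ) : Prop :=
  ∃ S : Finset (Fin m → Fin m → (X.prod X).Cycles),
    (∀ u ∈ S, ∀ i j, (X.prod X).IsCyc X.dim (u i j)) ∧
    ∀ u, IsNumIsometry0 W X s m u → (∀ i j, IntegralCycle (X.prod X) (u i j)) →
      ∃ u' ∈ S, ∀ i j, NumZero ops (X.prod X) X.dim (u i j - u' i j)

end Pool.Agent.R911.Iso
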