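import Pool.Agent.R911.Iso.Alg
import Pool.Agent.R911.Iso.Raw

/-!
# The numerical algebra of correspondences, positivity and integral structures
-/

open CategoryTheory AlgebraicGeometry Finset Polynomial

universe u v

namespace Pool.Agent.R911.Iso

open Pool.Agent.H914 Pool.Agent.H914.VarClass Pool.Agent.H914.VarClass.Obj
  Pool.Agent.H914.WeilCohomology Pool.Agent.H281R3.HT Pool.Agent.W552 Pool.Agent.W539.Ker

variable {k : Type u} [Field k] {𝒱 : VarClass k} {ops : CycleOps 𝒱}
  {W : WeilCohomology.{u, v} ops} {X : 𝒱.Obj}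

/-- The operator of a correspondence of degree zero. -/
noncomputable def cR (W : WeilCohomology.{u, v} ops) {z : (X.prod X).Cycles}
    (hz : (X.prod X).IsCyc X.dim z) : AR W X := ⟨W.corr (W.cl _ z), rop_of_cyc hz⟩

lemma cR_coe {z : (X.prod X).Cycles} (hz : (X.prod X).IsCyc X.dim z) :
    (cR W hz : Module.End W.K (W.H X)) = W.corr (W.cl _ z) := rfl

lemma exists_cR (u : AR W X) : ∃ (z : (X.prod X).Cycles) (hz : (X.prod X).IsCyc X.dim z),
    cR W hz = u := by
  obtain ⟨z, hz, h⟩ := cyc_of_rop u.2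
  exact ⟨z, hz, Subtype.ext h⟩

section One

variable {D : X.Cycles} {f : Module.End W.K (W.H X)} (G : Gd W X D f)

include G

lemma par_rop : ROp W X 0 (par (W.isInternal X)) := by
  apply rop_of_aop G.pa
  apply gr_ext (W.isInternal X)
  intro i a ha
  rw [LinearMap.comp_apply, LinearMap.add_apply, LinearMap.comp_apply, LinearMap.smul_apply,
    Fr.wt_gr ha, par, scal_apply _ _ ha, map_smul, map_smul, Fr.wt_gr ha, scal_apply _ _ ha]
  simp only [Int.cast_zero, zero_smul, add_zero]
  rw [smul_comm]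

/-- The star operator of the statement. -/
lemma star_eq {s : Module.End W.K (W.H X)} (hs : IsStar0 W X D s) (x : W.H X) :
    s x = st W X D f (par (W.isInternal X) x) := by
  refine lef_induction' (W.isInternal X) (n := X.dim) G.ls.hL G.ls.hbd G.ls.hHL
    (p := fun x => s x = st W X D f (par (W.isInternal X) x))
    (fun a b ha hb => by rw [map_add, ha, hb, map_add, map_add]) ?_ x
  intro i hi a ha hp j
  by_cases hj : X.dim - i < j
  · rw [L_pow_gt hp hj]; simp
  push Not at hj
  have h4 := pow_L_mem G.ls.hL ha j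
  rw [hs i hi a ha hp j hj, par, scal_apply _ _ h4, map_smul, st_apply h4, wop,
    G.ls.w_L_pow hi ha hp hj, smul_smul, smul_smul]
  congr 1
  have e1 : (sg (i + 2 * j) : W.K) = (sg i : W.K) * (-1) ^ j := by
    rw [sg_add, sg_two_mul, show i * (2 * j) = 2 * (i * j) by ring, pow_mul (-1 : ℤ) 2]
    push_cast
    simp
  have e2 : ((-1 : W.K)) ^ (i * (i + 1) / 2) = (-1) ^ (i + 2 * j) * (sg i : W.K) := by
    rw [sg]
    push_cast
    rw [← pow_add]
    have h5 : i * (i + 1) / 2 = i * (i - 1) / 2 + i := by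
      rcases Nat.eq_zero_or_pos i with rfl | h
      · simp
      · obtain ⟨m, rfl⟩ : ∃ m, i = m + 1 := ⟨i - 1, by omega⟩
        rw [Nat.add_sub_cancel]
        have h6 : (m + 1) * (m + 1 + 1) = (m + 1) * m + 2 * (m + 1) := by ring
        rw [h6, Nat.add_mul_div_left _ _ (by norm_num : 0 < 2)]
    rw [h5, show i + 2 * j + i * (i - 1) / 2 = (i * (i - 1) / 2 + i) + 2 * j by ring,
      pow_add _ (i * (i - 1) / 2 + i), pow_mul (-1 : W.K) 2]
    simp
  have e3 : ((-1 : W.K)) ^ j * (-1) ^ j = 1 := by rw [← mul_pow]; simp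
  rw [e1, e2]
  linear_combination (-((-1 : W.K) ^ (i + 2 * j) * (sg i : W.K) * ((j.factorial : W.K) *
    ((X.dim - i - j).factorial : W.K)⁻¹))) * e3

/-- Adjoint correspondences. -/
lemma isAdjoint_iff {s : Module.End W.K (W.H X)} (hs : IsStar0 W X D s)
    {u v : (X.prod X).Cycles} (hu : (X.prod X).IsCyc X.dim u) (hv : (X.prod X).IsCyc X.dim v) :
    IsAdjoint0 W X s u v ↔ adjR G (cR W hu) = cR W hv := by
  have h1 : ∀ x y : W.H X, W.tr X (x * s y) = bf W X D f x (par (W.isInternal X) y) := by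
    intro x y
    rw [star_eq G hs, bf_apply]
  have hpp : ∀ y : W.H X, par (W.isInternal X) (par (W.isInternal X) y) = y := by
    intro y
    rw [← Module.End.mul_apply, H914.par_mul_par, Module.End.one_apply]
  constructor
  · intro h
    symm
    apply adjR_unique G
    intro p q
    have h2 := h p (par (W.isInternal X) q)
    rw [h1, h1, hpp] at h2
    rw [cR_coe, cR_coe, h2, ← cR_coe (W := W) hv, par_comm_of_rop (cR W hv).2, hpp]
  · intro h x y
    rw [h1, h1, ← cR_coe (W := W) hu, adjR_spec G, h, par_comm_of_rop (cR W hv).2, cR_coe]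

/-- Numerical equivalence and the radical of the trace form. -/
lemma numZero_iff {z : (X.prod X).Cycles} (hz : (X.prod X).IsCyc X.dim z) :
    NumZero ops (X.prod X) X.dim z ↔ qm (rho W X) (cR W hz) = 0 := by
  have hd : (X.prod X).dim - X.dim = X.dim := by rw [dim_prod]; omega
  have key : ∀ w : (X.prod X).Cycles, (X.prod X).IsCyc X.dim w →
      (((X.prod X).V.degCycle (ops.mul z w) : ℚ) : W.K) = LinearMap.trace W.K (W.H X)
        (par (W.isInternal X) * W.corr (W.cl _ z) *
          W.corr (W.cl _ (ops.pull (swap X X) w))) := by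
    intro w hw
    rw [W.cl_pull, ← tr_mul_eq_trace (W.cl_mem hz), ← W.cl_mul, W.tr_cl]
    exact ops.mul_mem hz hw
  rw [qm_eq_zero]
  constructor
  · intro h v
    obtain ⟨w, hw, hwv⟩ := cyc_of_rop (rop_mul0 v.2 (par_rop G))
    have h1 := key (ops.pull (swap X X) w) (ops.pull_mem _ hw)
    rw [h _ (by rw [hd]; exact ops.pull_mem _ hw), Rat.cast_zero, W.cl_pull, W.cl_pull,
      swap_swap, hwv] at h1
    rw [map_mul, rho_apply, rho_apply, cR_coe]
    rw [mul_assoc, LinearMap.trace_mul_comm] at h1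
    rw [mul_assoc, mul_assoc, H914.par_mul_par, mul_one] at h1
    exact h1.symm
  · intro h w hw
    rw [hd] at hw
    have h1 := key w hw
    have h2 : ROp W X 0 (W.corr (W.cl _ (ops.pull (swap X X) w)) * par (W.isInternal X)) :=
      rop_mul0 (rop_of_cyc (ops.pull_mem _ hw)) (par_rop G)
    have h3 := h ⟨_, h2⟩
    rw [map_mul, rho_apply, rho_apply, cR_coe] at h3
    rw [mul_assoc, LinearMap.trace_mul_comm, mul_assoc] at h1
    change LinearMap.trace W.K (W.H X) (W.corr (W.cl _ z) *
      (W.corr (W.cl _ (ops.pull (swap X X) w)) * par (W.isInternal X))) = 0 at h3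
    rw [h3] at h1
    exact_mod_cast h1

/-- The trace of `u* u` is the value of the Hodge-Riemann form of the product. -/
lemma trace_star_mul {z : (X.prod X).Cycles} (hz : (X.prod X).IsCyc X.dim z) :
    LinearMap.trace W.K (W.H X) ((adjR G (cR W hz) : Module.End W.K (W.H X)) *
      (cR W hz : Module.End W.K (W.H X))) =
      bf W (X.prod X) (boxSum ops D) (extSum W f f) (W.cl _ z) (W.cl _ z) := by
  exact G.trace_corr G (AS.of ⟨z, hz, rfl⟩) (AS.of ⟨z, hz, rfl⟩)
    (fun a b => adjR_spec G (cR W hz) a b)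

end One

end Pool.Agent.R911.Iso
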