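import Pool.Agent.R911.Iso.Geo

/-!
# The standard conjecture of Hodge type for `X × X` and the positivity of the trace form
-/

open CategoryTheory AlgebraicGeometry Finset Polynomial

universe u v

namespace Pool.Agent.R911.Iso

open Pool.Agent.H914 Pool.Agent.H914.VarClass Pool.Agent.H914.VarClass.Obj
  Pool.Agent.H914.WeilCohomology Pool.Agent.H281R3.HT Pool.Agent.W552 Pool.Agent.W539.Ker

variable {k : Type u} [Field k] {𝒱 : VarClass k} {ops : CycleOps 𝒱}
  {W : WeilCohomology.{u, v} ops} {X : 𝒱.Obj}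

section Form

variable {Z : 𝒱.Obj} {E : Z.Cycles} {g : Module.End W.K (W.H Z)} (F : Fr W Z E g)

include F

/-- Numerically trivial primitive cycles have vanishing pairing. -/
lemma pairing_of_numZero {n : ℕ} (hn : 2 * n ≤ Z.dim) {z : Z.Cycles} (hz : Z.IsCyc n z)
    (h : NumZero ops Z n z) : pairing ops Z E n z z = 0 := by
  rw [pairing, h, mul_zero]
  have := divPow_mem (ops := ops) F.hD (Z.dim - 2 * n) hz
  rwa [show n + (Z.dim - 2 * n) = Z.dim - n by omega] at this

/-- **The Hodge-Riemann form on the algebraic classes is nonnegative if the standard conjecture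
of Hodge type holds.** -/
theorem bf_nonneg (hH : HodgeStandard W Z E) {l : ℕ} {c : W.H Z} (hc : c ∈ algClasses W Z l) :
    ∃ q : ℚ, 0 ≤ q ∧ bf W Z E g c c = q := by
  set L := LinearMap.mulLeft W.K (W.cl Z E) with hL
  obtain ⟨u, hu, hs⟩ := (ap_alg F).decomp (mulLeft_isHom F.hD) W_hbd hc
  rw [← hL] at hu hs
  have key : ∀ b ∈ range (l + 1), (L ^ b) (u b) = 0 ∨ ∃ z, Primitive W Z E (l - b) z ∧
      u b = W.cl Z z ∧ 2 * (l - b) ≤ Z.dim ∧ b ≤ Z.dim - 2 * (l - b) := by
    intro b hb
    rw [Finset.mem_range] at hb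
    obtain ⟨h1, h2, h3⟩ := hu b (by omega)
    by_cases h0 : (L ^ b) (u b) = 0
    · exact Or.inl h0
    right
    have hv0 : u b ≠ 0 := by rintro h; apply h0; rw [h, map_zero]
    have h4 := h2 hv0
    have h5 : b ≤ Z.dim - 2 * (l - b) := by
      by_contra h6
      exact h0 (L_pow_gt (n := Z.dim) (i := 2 * (l - b)) h3 (by omega))
    obtain ⟨z, hz, hz'⟩ := h1
    refine ⟨z, ⟨hz, ?_⟩, hz'.symm, h4, h5⟩
    rw [cl_divPow, hz']; exact h3
  have hcross : ∀ b ∈ range (l + 1), ∀ b' ∈ range (l + 1), b ≠ b' →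
      bf W Z E g ((L ^ b) (u b)) ((L ^ b') (u b')) = 0 := by
    intro b hb b' hb' hne
    rcases key b hb with h0 | ⟨z, hz, hvz, h1, h2⟩
    · rw [h0, map_zero, LinearMap.zero_apply]
    rcases key b' hb' with h0 | ⟨z', hz', hvz', h1', h2'⟩
    · rw [h0, map_zero]
    rw [hvz, hvz']
    rw [Finset.mem_range] at hb hb'
    exact bf_cross F h1 h1' (by omega) hz hz' (by omega) h2'
  have hdiag : ∀ b ∈ range (l + 1), ∃ q : ℚ, 0 ≤ q ∧
      bf W Z E g ((L ^ b) (u b)) ((L ^ b) (u b)) = q := by
    intro b hb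
    rcases key b hb with h0 | ⟨z, hz, hvz, h1, h2⟩
    · exact ⟨0, le_rfl, by rw [h0]; simp⟩
    · refine ⟨_, ?_, by rw [hvz]; exact bf_same F h1 hz hz h2⟩
      apply mul_nonneg (by positivity)
      by_cases hn : NumZero ops Z (l - b) z
      · rw [pairing_of_numZero F h1 hz.1 hn]
      · exact (hH _ h1 z hz hn).le
  choose! q hq hq' using hdiag
  refine ⟨∑ b ∈ range (l + 1), q b, Finset.sum_nonneg hq, ?_⟩
  rw [hs, map_sum, Rat.cast_sum]
  apply Finset.sum_congr rfl
  intro b hb
  rw [map_sum, LinearMap.sum_apply, Finset.sum_eq_single b, hq' b hb]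
  · intro b' hb' hne
    exact hcross b' hb' b hb hne
  · intro h; exact absurd hb h

/-- A primitive cycle and its multiple in the middle codimension. -/
lemma numZero_of_middle {n j : ℕ} (hn : 2 * (n + j) = Z.dim) {z : Z.Cycles} (hz : Z.IsCyc n z)
    (h : NumZero ops Z (n + j) (divPow ops E j z)) : NumZero ops Z n z := by
  intro w hw
  obtain ⟨w', hw', hww⟩ := F.lefschetzA n (by omega) w hw
  have h1 := h (divPow ops E j w') (by
    have := divPow_mem (ops := ops) F.hD j hw'
    rwa [show Z.dim - (n + j) = n + j by omega])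
  have e1 : ((Z.V.degCycle (ops.mul z w) : ℚ) : W.K) =
      ((Z.V.degCycle (ops.mul (divPow ops E j z) (divPow ops E j w')) : ℚ) : W.K) := by
    have m1 := ops.mul_mem hz hw
    rw [show n + (Z.dim - n) = Z.dim by omega] at m1
    have m2 := ops.mul_mem (divPow_mem (ops := ops) F.hD j hz)
      (divPow_mem (ops := ops) F.hD j hw')
    rw [show n + j + (n + j) = Z.dim by omega] at m2
    rw [← W.tr_cl m1, ← W.tr_cl m2, W.cl_mul, W.cl_mul, ← hww, cl_divPow, cl_divPow, cl_divPow,
      L_pow_self F.hD, ← Module.End.mul_apply, ← pow_add]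
    congr 4
    omega
  rw [h1, Rat.cast_zero] at e1
  exact_mod_cast e1

end Form

section Main

variable {D : X.Cycles} {f : Module.End W.K (W.H X)} (G : Gd W X D f)

include G

/-- **The standard conjecture of Hodge type for `X × X` is the nonnegativity of the trace form on
the numerical algebra.** -/
theorem hodge_iff : HodgeStandard W (X.prod X) (boxSum ops D) ↔
    letI := starR G
    letI := (starTrace G).starRing
    ∀ a : QA (rho W X), 0 ≤ (ratRep G).tQ (star a * a) := by
  letI i1 := starR G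
  letI i2 := (starTrace G).starRing
  have hTD := (starTrace G).trData (ratRep G)
  have F2 : Fr W (X.prod X) (boxSum ops D) (extSum W f f) := G.fr.prod G.fr
  have hcast : ∀ {z : (X.prod X).Cycles} (hz : (X.prod X).IsCyc X.dim z),
      (((ratRep G).tQ (star (qm (rho W X) (cR W hz)) * qm (rho W X) (cR W hz)) : ℚ) : W.K) =
      bf W (X.prod X) (boxSum ops D) (extSum W f f) (W.cl _ z) (W.cl _ z) := by
    intro z hz
    have h1 : star (qm (rho W X) (cR W hz)) = qm (rho W X) (star (cR W hz)) :=
      (starTrace G).star_qm _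
    rw [h1, ← map_mul, (ratRep G).tQ_cast, ← trace_star_mul G hz]
    rfl
  constructor
  · intro hH a
    obtain ⟨u, rfl⟩ := qm_surj (rho W X) a
    obtain ⟨z, hz, rfl⟩ := exists_cR u
    obtain ⟨q, hq, hq'⟩ := bf_nonneg F2 hH (l := X.dim) ⟨z, hz, rfl⟩
    have h2 := hcast hz
    rw [hq'] at h2
    have h3 : (ratRep G).tQ (star (qm (rho W X) (cR W hz)) * qm (rho W X) (cR W hz)) = q := by
      exact_mod_cast h2
    rw [h3]
    exact hq
  · intro hp n hn z hz hnz
    have hdim : (X.prod X).dim = 2 * X.dim := by rw [dim_prod]; ring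
    set j := X.dim - n with hj
    have hnj : n + j = X.dim := by omega
    have hj2 : j ≤ (X.prod X).dim - 2 * n := by omega
    have hy : (X.prod X).IsCyc X.dim (divPow ops (boxSum ops D) j z) := by
      have := divPow_mem (ops := ops) F2.hD j hz.1
      rwa [hnj] at this
    have h1 := hcast hy
    rw [cl_divPow, bf_same F2 hn hz hz hj2] at h1
    have h2 : (ratRep G).tQ (star (qm (rho W X) (cR W hy)) * qm (rho W X) (cR W hy)) =
        j.factorial * (((X.prod X).dim - 2 * n - j).factorial : ℚ)⁻¹ *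
          pairing ops (X.prod X) (boxSum ops D) n z z := by exact_mod_cast h1
    have hc : (0 : ℚ) < j.factorial * (((X.prod X).dim - 2 * n - j).factorial : ℚ)⁻¹ := by
      positivity
    have hne : qm (rho W X) (cR W hy) ≠ 0 := by
      intro h0
      apply hnz
      apply numZero_of_middle F2 (n := n) (j := j) (by omega) hz.1
      have := (numZero_iff G hy).2 h0
      rwa [← hnj] at this
    have h3 := hTD.definite hp hne
    rw [h2] at h3
    exact (pos_iff_pos_of_mul_pos h3).1 hc

end Main

end Pool.Agent.R911.Iso
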