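import Pool.Agent.R911.Iso.Quot
import Pool.Agent.R911.Iso.Defs

/-!
# Spectra and positivity for algebras of operators with rational traces
-/

open Polynomial

namespace Pool.Agent.R911.Iso

variable {K : Type*} [Field K] [CharZero K] {V : Type*} [AddCommGroup V] [Module K V]
  [Module.Finite K V] {R₀ : Type*} [Ring R₀] [Algebra ℚ R₀] {ρ : R₀ →+* Module.End K V}

lemma RatRep.aeval_rep (H : RatRep ρ) (x : R₀) (p : ℚ[X]) :
    ρ (aeval x p) = aeval (ρ x) (p.map (algebraMap ℚ K)) := by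
  induction p using Polynomial.induction_on' with
  | add p q hp hq => rw [map_add, map_add, hp, hq, Polynomial.map_add, map_add]
  | monomial n a =>
    rw [aeval_monomial, Polynomial.map_monomial, aeval_monomial, ← Algebra.smul_def,
      ← Algebra.smul_def, H.smul, map_pow]
    rfl

lemma nilpotent_of_qm {x : R₀} (hx : qm ρ x = 0) : IsNilpotent (ρ x) := by
  apply H914.isNilpotent_of_trace_pow
  intro r
  rw [← map_pow, pow_succ']
  exact qm_eq_zero.1 hx _

/-- Roots of annihilating polynomials, for elements. -/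
lemma RatRep.rootsIn_of (H : RatRep ρ) (x : R₀) {S : Set ℂ}
    (h : ∀ l : ℂ, aeval l (minpoly ℚ (qm ρ x)) = 0 → l ∈ S) : RootsIn (ρ x) S := by
  have : Module.Finite ℚ (QA ρ) := H.finite
  have h1 : qm ρ (aeval x (minpoly ℚ (qm ρ x))) = 0 := by
    rw [← Polynomial.aeval_algHom_apply, minpoly.aeval]
  obtain ⟨N, hN⟩ := nilpotent_of_qm h1
  refine ⟨(minpoly ℚ (qm ρ x)) ^ (N + 1), pow_ne_zero _ (minpoly.ne_zero
    (Algebra.IsIntegral.isIntegral _)), ?_, ?_⟩
  · rw [← H.aeval_rep, map_pow, map_pow, pow_succ, hN, zero_mul]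
  · intro z hz
    apply h
    rw [map_pow] at hz
    exact (pow_eq_zero_iff (Nat.succ_ne_zero N)).1 hz

lemma RatRep.of_rootsIn (H : RatRep ρ) (hinj : Function.Injective ρ) (x : R₀) {S : Set ℂ}
    (h : RootsIn (ρ x) S) {l : ℂ} (hl : aeval l (minpoly ℚ (qm ρ x)) = 0) : l ∈ S := by
  obtain ⟨P, hP0, hP, hPS⟩ := h
  apply hPS
  rw [← H.aeval_rep] at hP
  have h1 : aeval x P = 0 := hinj (by rw [hP, map_zero])
  have h2 : aeval (qm ρ x) P = 0 := by rw [Polynomial.aeval_algHom_apply, h1, map_zero]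
  obtain ⟨r, hr⟩ := minpoly.dvd ℚ _ h2
  rw [hr, map_mul, hl, zero_mul]

/-- Roots of annihilating polynomials, for matrices. -/
lemma RatRep.rootsIn_mat (H : RatRep ρ) (m : ℕ) (z : Matrix (Fin m) (Fin m) R₀) {S : Set ℂ}
    (h : ∀ l : ℂ, aeval l (minpoly ℚ (RatRep.mqm ρ m z)) = 0 → l ∈ S) :
    RootsIn (RatRep.mrep ρ m z) S := by
  have : Module.Finite ℚ (QA ρ) := H.finite
  obtain ⟨N, hN⟩ := H.nilpotent_of_aeval m z (minpoly.aeval ℚ (RatRep.mqm ρ m z))
  refine ⟨(minpoly ℚ (RatRep.mqm ρ m z)) ^ (N + 1), pow_ne_zero _ (minpoly.ne_zero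
    (Algebra.IsIntegral.isIntegral _)), ?_, ?_⟩
  · rw [Polynomial.map_pow, map_pow, pow_succ, hN, zero_mul]
  · intro z hz
    apply h
    rw [map_pow] at hz
    exact (pow_eq_zero_iff (Nat.succ_ne_zero N)).1 hz

lemma mrep_injective (hinj : Function.Injective ρ) (m : ℕ) :
    Function.Injective (RatRep.mrep ρ m) := by
  apply (endVecRingEquivMatrixEnd (Fin m) K V).symm.injective.comp
  intro a b hab
  ext i j
  exact hinj (congrArg (fun M => M i j) hab)

/-- Matrices of operators are algebraic. -/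
lemma RatRep.integral_mat (H : RatRep ρ) (hinj : Function.Injective ρ) (m : ℕ)
    (z : Matrix (Fin m) (Fin m) R₀) : IsIntegral ℚ z := by
  obtain ⟨P, hP0, hP, -⟩ := H.rootsIn_mat m z (S := Set.univ) (fun _ _ => trivial)
  rw [← H.aeval_mrep_aux] at hP
  have h1 : aeval z P = 0 := mrep_injective hinj m (by rw [hP, map_zero])
  exact isAlgebraic_iff_isIntegral.1 ⟨P, hP0, h1⟩

section Star

variable [StarRing R₀]

/-- Positivity of the trace form on the quotient. -/
def PosQ (H : RatRep ρ) (hst : StarTrace ρ) : Prop :=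
  letI := hst.starRing
  ∀ a : QA ρ, 0 ≤ H.tQ (star a * a)

lemma star_mqm (hst : StarTrace ρ) (m : ℕ) (w : Matrix (Fin m) (Fin m) R₀) :
    letI := hst.starRing
    star (RatRep.mqm ρ m w) = RatRep.mqm ρ m (star w) := by
  letI := hst.starRing
  ext i j
  rw [Matrix.star_apply, RatRep.mqm_apply, RatRep.mqm_apply, Matrix.star_apply]
  exact hst.star_qm _

lemma PosQ.real (H : RatRep ρ) (hst : StarTrace ρ) (hp : PosQ H hst) (u : R₀) :
    (star u = u → RootsIn (ρ u) {z | z.im = 0}) ∧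
      (star u = -u → RootsIn (ρ u) {z | z.re = 0}) := by
  letI := hst.starRing
  have hTD := hst.trData H
  have hfin : Module.Finite ℚ (QA ρ) := H.finite
  have hq : star (qm ρ u) = qm ρ (star u) := hst.star_qm u
  constructor
  · intro hu
    rw [hu] at hq
    exact H.rootsIn_of u (fun l hl => (hTD.eig_one hp _ hl).1 hq)
  · intro hu
    rw [hu, map_neg] at hq
    exact H.rootsIn_of u (fun l hl => (hTD.eig_one hp _ hl).2 hq)

lemma PosQ.isom (H : RatRep ρ) (hst : StarTrace ρ) (hp : PosQ H hst) (m : ℕ)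
    (U : Matrix (Fin m) (Fin m) R₀) (hU : star U * U = 1) :
    RootsIn (RatRep.mrep ρ m U) {z | ‖z‖ = 1} := by
  letI := hst.starRing
  have hTD := hst.trData H
  have hfin : Module.Finite ℚ (QA ρ) := H.finite
  apply H.rootsIn_mat
  intro l hl
  apply (hTD.eig hp m _ hl).2.2
  have h3 : star (RatRep.mqm ρ m U) = RatRep.mqm ρ m (star U) := star_mqm hst m U
  rw [h3, ← map_mul, hU, map_one]

lemma PosQ.of_real (H : RatRep ρ) (hst : StarTrace ρ) (hinj : Function.Injective ρ)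
    (h1 : ∀ u : R₀, star u = u → RootsIn (ρ u) {z | z.im = 0})
    (h2 : ∀ u : R₀, star u = -u → RootsIn (ρ u) {z | z.re = 0}) : PosQ H hst := by
  letI := hst.starRing
  have hTD := hst.trData H
  have hq : ∀ u, star (qm ρ u) = qm ρ (star u) := hst.star_qm
  apply hTD.pos_of_spectrum
  · intro a ha l hl
    obtain ⟨u₀, rfl⟩ := qm_surj ρ a
    have e1 : star ((1 / 2 : ℚ) • (u₀ + star u₀)) = (1 / 2 : ℚ) • (u₀ + star u₀) := by
      rw [star_rat_smul, star_add, star_star, add_comm]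
    have e2 : qm ρ ((1 / 2 : ℚ) • (u₀ + star u₀)) = qm ρ u₀ := by
      rw [map_smul, map_add, ← hq, ha, ← two_smul ℚ, smul_smul]
      norm_num
    rw [← e2] at hl
    exact H.of_rootsIn hinj _ (h1 _ e1) hl
  · intro a ha l hl
    obtain ⟨u₀, rfl⟩ := qm_surj ρ a
    have e1 : star ((1 / 2 : ℚ) • (u₀ - star u₀)) = -((1 / 2 : ℚ) • (u₀ - star u₀)) := by
      rw [star_rat_smul, star_sub, star_star, ← smul_neg, neg_sub]
    have e2 : qm ρ ((1 / 2 : ℚ) • (u₀ - star u₀)) = qm ρ u₀ := by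
      rw [map_smul, map_sub, ← hq, ha, sub_neg_eq_add, ← two_smul ℚ, smul_smul]
      norm_num
    rw [← e2] at hl
    exact H.of_rootsIn hinj _ (h2 _ e1) hl

lemma PosQ.of_isom (H : RatRep ρ) (hst : StarTrace ρ) (hinj : Function.Injective ρ)
    (h : ∀ U : Matrix (Fin 2) (Fin 2) R₀, star U * U = 1 →
      RootsIn (RatRep.mrep ρ 2 U) {z | ‖z‖ = 1}) : PosQ H hst := by
  letI := hst.starRing
  have hTD := hst.trData H
  by_contra hn
  obtain ⟨z, lam, hz, hl, hre⟩ := hTD.exists_skew hn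
  obtain ⟨z₁, rfl⟩ := RatRep.mqm_surj 2 z
  have h1 : star ((1 / 2 : ℚ) • (z₁ - star z₁)) = -((1 / 2 : ℚ) • (z₁ - star z₁)) := by
    rw [star_rat_smul, star_sub, star_star, ← smul_neg, neg_sub]
  have h2 : RatRep.mqm ρ 2 ((1 / 2 : ℚ) • (z₁ - star z₁)) = RatRep.mqm ρ 2 z₁ := by
    have e1 : RatRep.mqm ρ 2 (star z₁) = -RatRep.mqm ρ 2 z₁ := by
      rw [← hz]
      exact (star_mqm hst 2 z₁).symm
    rw [map_smul, map_sub, e1, sub_neg_eq_add, ← two_smul ℚ, smul_smul]
    norm_num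
  generalize (1 / 2 : ℚ) • (z₁ - star z₁) = z₀ at h1 h2
  rw [← h2] at hl
  have hint := H.integral_mat hinj 2 z₀
  have hl' : aeval lam (minpoly ℚ z₀) = 0 := by
    have h3 : aeval (RatRep.mqm ρ 2 z₀) (minpoly ℚ z₀) = 0 := by
      rw [Polynomial.aeval_algHom_apply, minpoly.aeval, map_zero]
    obtain ⟨r, hr⟩ := minpoly.dvd ℚ _ h3
    rw [hr, map_mul, hl, zero_mul]
  obtain ⟨u, mu, hu, hmu, hmu1⟩ := exists_cayley hint h1 hl' hre
  obtain ⟨P, hP0, hP, hPS⟩ := h u hu
  apply hmu1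
  apply hPS
  rw [← H.aeval_mrep_aux] at hP
  have h5 : aeval u P = 0 := mrep_injective hinj 2 (by rw [hP, map_zero])
  obtain ⟨r, hr⟩ := minpoly.dvd ℚ _ h5
  rw [hr, map_mul, hmu, zero_mul]

end Star

end Pool.Agent.R911.Iso
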