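import Pool.Agent.R911.Iso.Geo2
import Pool.Agent.R911.Iso.Tfae

/-!
# Spectra of self-adjoint correspondences and of algebraic isometries
-/

open CategoryTheory AlgebraicGeometry Finset Polynomial

universe u v

namespace Pool.Agent.R911.Iso

open Pool.Agent.H914 Pool.Agent.H914.VarClass Pool.Agent.H914.VarClass.Obj
  Pool.Agent.H914.WeilCohomology Pool.Agent.H281R3.HT Pool.Agent.W552 Pool.Agent.W539.Ker


variable {k : Type u} [Field k] {𝒱 : VarClass k} {ops : CycleOps 𝒱}
  {W : WeilCohomology.{u, v} ops} {X : 𝒱.Obj} {D : X.Cycles} {f : Module.End W.K (W.H X)}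
  (G : Gd W X D f)

lemma rho_injective : Function.Injective (rho W X) := Subtype.val_injective

lemma matOp_eq {m : ℕ} {u : Fin m → Fin m → (X.prod X).Cycles}
    (hu : ∀ i j, (X.prod X).IsCyc X.dim (u i j)) :
    matOp0 W X m u = RatRep.mrep (rho W X) m (Matrix.of fun i j => cR W (hu i j)) := by
  apply LinearMap.ext
  intro x
  funext i
  rw [RatRep.mrep_apply, matOp0, LinearMap.pi_apply, LinearMap.sum_apply]
  rfl

include G

/-- Preserving the form means `u* u = 1`. -/
lemma isometry_iff {s : Module.End W.K (W.H X)} (hs : IsStar0 W X D s) {m : ℕ}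
    {u : Fin m → Fin m → (X.prod X).Cycles} (hu : ∀ i j, (X.prod X).IsCyc X.dim (u i j)) :
    letI := starR G
    (∀ x y, ∑ i, W.tr X (matOp0 W X m u x i * s (matOp0 W X m u y i)) =
      ∑ i, W.tr X (x i * s (y i))) ↔
    star (Matrix.of fun i j => cR W (hu i j)) * (Matrix.of fun i j => cR W (hu i j)) = 1 := by
  letI i1 := starR G
  set U : Matrix (Fin m) (Fin m) (AR W X) := Matrix.of fun i j => cR W (hu i j) with hU
  have hpp : ∀ y : W.H X, par (W.isInternal X) (par (W.isInternal X) y) = y := by
    intro y
    rw [← Module.End.mul_apply, H914.par_mul_par, Module.End.one_apply]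
  have h1 : ∀ x y : W.H X, W.tr X (x * s y) = bf W X D f x (par (W.isInternal X) y) := by
    intro x y
    rw [star_eq G hs, bf_apply]
  have hop : ∀ (x : Fin m → W.H X) (i : Fin m), matOp0 W X m u x i =
      ∑ j, (U i j : Module.End W.K (W.H X)) (x j) := by
    intro x i
    rw [matOp_eq hu, RatRep.mrep_apply]
    rfl
  have hsU : ∀ i j, (star U * U) i j = ∑ l, adjR G (U l i) * U l j := by
    intro i j
    rw [Matrix.mul_apply]
    rfl
  -- the value of the transported form on coordinate vectors
  have hval : ∀ x y : Fin m → W.H X,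
      ∑ i, W.tr X (matOp0 W X m u x i * s (matOp0 W X m u y i)) =
      ∑ i, ∑ j, bf W X D f (x i) ((((star U * U) i j : AR W X) : Module.End W.K (W.H X))
        (par (W.isInternal X) (y j))) := by
    intro x y
    have e1 : ∀ l, W.tr X (matOp0 W X m u x l * s (matOp0 W X m u y l)) =
        ∑ i, ∑ j, bf W X D f (x i) (((adjR G (U l i) * U l j : AR W X) :
          Module.End W.K (W.H X)) (par (W.isInternal X) (y j))) := by
      intro l
      rw [h1, hop, hop, map_sum, map_sum, LinearMap.sum_apply]
      apply Finset.sum_congr rfl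
      intro i _
      rw [map_sum]
      apply Finset.sum_congr rfl
      intro j _
      rw [← par_comm_of_rop (U l j).2, adjR_spec G]
      rfl
    rw [Finset.sum_congr rfl (fun l _ => e1 l), Finset.sum_comm]
    apply Finset.sum_congr rfl
    intro i _
    rw [Finset.sum_comm]
    apply Finset.sum_congr rfl
    intro j _
    rw [hsU]
    have e2 : ((∑ l, adjR G (U l i) * U l j : AR W X) : Module.End W.K (W.H X)) =
        ∑ l, ((adjR G (U l i) * U l j : AR W X) : Module.End W.K (W.H X)) :=
      map_sum (AR W X).subtype _ _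
    rw [e2, LinearMap.sum_apply, map_sum]
  constructor
  · intro h
    apply Matrix.ext
    intro i j
    apply Subtype.ext
    apply LinearMap.ext
    intro y
    rw [← sub_eq_zero]
    apply G.nondeg
    intro x
    have h2 := h (Pi.single i x) (Pi.single j (par (W.isInternal X) y))
    rw [hval] at h2
    rw [Finset.sum_eq_single i, Finset.sum_eq_single j] at h2
    · rw [Pi.single_eq_same, Pi.single_eq_same, hpp] at h2
      rw [map_sub, h2, sub_eq_zero]
      rw [Finset.sum_eq_single i]
      · rw [Pi.single_eq_same, h1, Matrix.one_apply]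
        by_cases hij : i = j
        · subst hij
          rw [if_pos rfl, Pi.single_eq_same, hpp]
          rfl
        · rw [if_neg hij, Pi.single_eq_of_ne hij]
          simp
      · intro l _ hl
        rw [Pi.single_eq_of_ne hl, zero_mul, map_zero]
      · intro h; exact absurd (Finset.mem_univ _) h
    · intro l _ hl
      rw [Pi.single_eq_of_ne hl, map_zero, map_zero, map_zero]
    · intro h; exact absurd (Finset.mem_univ _) h
    · intro l _ hl
      apply Finset.sum_eq_zero
      intro j _
      rw [Pi.single_eq_of_ne hl, map_zero, LinearMap.zero_apply]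
    · intro h; exact absurd (Finset.mem_univ _) h
  · intro h x y
    rw [hval, h]
    apply Finset.sum_congr rfl
    intro i _
    rw [Finset.sum_eq_single i, h1]
    · rw [Matrix.one_apply_eq]
      rfl
    · intro j _ hj
      rw [Matrix.one_apply_ne (Ne.symm hj)]
      change bf W X D f (x i) ((0 : Module.End W.K (W.H X)) _) = 0
      rw [LinearMap.zero_apply, map_zero]
    · intro h; exact absurd (Finset.mem_univ _) h

omit G in
lemma corr_neg' (c : W.H (X.prod X)) : W.corr (-c) = -W.corr c := by
  apply LinearMap.ext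
  intro a
  rw [corr_apply, LinearMap.neg_apply, corr_apply, neg_mul, map_neg]

/-- The positivity. -/
lemma hodge_iff_posQ : HodgeStandard W (X.prod X) (boxSum ops D) ↔
    @PosQ _ _ _ _ _ _ _ _ _ _ _ (starR G) (ratRep G) (starTrace G) := hodge_iff G

/-- **The spectral form of the standard conjecture of Hodge type for `X × X`.** -/
theorem spectral_tfae {s : Module.End W.K (W.H X)} (hs : IsStar0 W X D s) :
    List.TFAE [HodgeStandard W (X.prod X) (boxSum ops D), RealSpectrum0 W X s,
      IsometriesRiemann0 W X s 2, ∀ m, IsometriesRiemann0 W X s m] := by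
  letI i1 := starR G
  have hneg : ∀ {z : (X.prod X).Cycles}, (X.prod X).IsCyc X.dim z →
      (X.prod X).IsCyc X.dim (-z) := by
    intro z hz
    have := SmVar.IsCyc.smul (-1) hz
    rwa [neg_one_smul] at this
  have h0 : ∀ {z : (X.prod X).Cycles} (hz : (X.prod X).IsCyc X.dim z),
      cR W (hneg hz) = -cR W hz := by
    intro z hz
    apply Subtype.ext
    change W.corr (W.cl _ (-z)) = -W.corr (W.cl _ z)
    rw [map_neg, corr_neg']
  have hU : ∀ (m : ℕ) (U : Matrix (Fin m) (Fin m) (AR W X)),
      ∃ (c : Fin m → Fin m → (X.prod X).Cycles) (hc : ∀ i j, (X.prod X).IsCyc X.dim (c i j)),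
        (Matrix.of fun i j => cR W (hc i j)) = U := by
    intro m U
    choose c hc hcu using fun i j => exists_cR (U i j)
    refine ⟨c, hc, ?_⟩
    apply Matrix.ext
    intro i j
    exact hcu i j
  rw [hodge_iff_posQ G]
  tfae_have 1 → 2 := by
    intro hp u hu
    obtain ⟨e1, e2⟩ := PosQ.real (ratRep G) (starTrace G) hp (cR W hu)
    exact ⟨fun hadj => e1 ((isAdjoint_iff G hs hu hu).1 hadj),
      fun hadj => e2 (((isAdjoint_iff G hs hu (hneg hu)).1 hadj).trans (h0 hu))⟩
  tfae_have 2 → 1 := by
    intro hR
    apply PosQ.of_real (ratRep G) (starTrace G) rho_injective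
    · intro u hu
      obtain ⟨z, hz, rfl⟩ := exists_cR u
      exact (hR z hz).1 ((isAdjoint_iff G hs hz hz).2 hu)
    · intro u hu
      obtain ⟨z, hz, rfl⟩ := exists_cR u
      exact (hR z hz).2 ((isAdjoint_iff G hs hz (hneg hz)).2 (hu.trans (h0 hz).symm))
  tfae_have 1 → 4 := by
    intro hp m u hu hiso
    rw [matOp_eq hu]
    exact PosQ.isom (ratRep G) (starTrace G) hp m _ ((isometry_iff G hs hu).1 hiso)
  tfae_have 4 → 3 := fun h => h 2
  tfae_have 3 → 1 := by
    intro hR
    apply PosQ.of_isom (ratRep G) (starTrace G) rho_injective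
    intro U hUU
    obtain ⟨c, hc, rfl⟩ := hU 2 U
    rw [← matOp_eq hc]
    exact hR c hc ((isometry_iff G hs hc).2 hUU)
  tfae_finish

end Pool.Agent.R911.Iso
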