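import Pool.Agent.R911.Iso.Geo3

/-!
# Integral correspondences and the finiteness of the groups of isometries
-/

open CategoryTheory AlgebraicGeometry Finset Polynomial

universe u v

namespace Pool.Agent.R911.Iso

open Pool.Agent.H914 Pool.Agent.H914.VarClass Pool.Agent.H914.VarClass.Obj
  Pool.Agent.H914.WeilCohomology Pool.Agent.H281R3.HT Pool.Agent.W552 Pool.Agent.W539.Ker

variable {k : Type u} [Field k] {𝒱 : VarClass k} {ops : CycleOps 𝒱}

section Cyc

variable {X : 𝒱.Obj}

lemma coeff_add (z w : X.Cycles) (x) : X.V.coeff (z + w) x = X.V.coeff z x + X.V.coeff w x :=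
  Finsupp.add_apply (M := ℚ) (ι := X.V.X) z w x

lemma coeff_smul (q : ℚ) (z : X.Cycles) (x) : X.V.coeff (q • z) x = q * X.V.coeff z x :=
  Finsupp.smul_apply (M := ℚ) (α := X.V.X) q z x

lemma IntegralCycle.add {z w : X.Cycles} (hz : IntegralCycle X z) (hw : IntegralCycle X w) :
    IntegralCycle X (z + w) := by
  intro x
  obtain ⟨a, ha⟩ := hz x
  obtain ⟨b, hb⟩ := hw x
  exact ⟨a + b, by rw [coeff_add, ha, hb]; push_cast; rfl⟩

lemma IntegralCycle.neg {z : X.Cycles} (hz : IntegralCycle X z) : IntegralCycle X (-z) := by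
  intro x
  obtain ⟨a, ha⟩ := hz x
  refine ⟨-a, ?_⟩
  rw [← neg_one_smul ℚ z, coeff_smul, ha]
  push_cast
  ring

lemma IntegralCycle.zero : IntegralCycle X 0 := fun x => ⟨0, by rw [Int.cast_zero]; rfl⟩

lemma IntegralCycle.fund : IntegralCycle X X.V.fundCycle := by
  classical
  intro x
  have h1 : X.V.coeff X.V.fundCycle x = if genericPoint X.V.X = x then 1 else 0 := by
    change (Finsupp.single (genericPoint X.V.X) (1 : ℚ)) x = _
    rw [Finsupp.single_apply]
  rw [h1]
  split_ifs
  · exact ⟨1, by norm_num⟩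
  · exact ⟨0, by norm_num⟩

/-- Every cycle has an integral multiple. -/
lemma exists_integral (z : X.Cycles) : ∃ c : ℕ, 0 < c ∧ IntegralCycle X ((c : ℚ) • z) := by
  classical
  let z' : X.V.X →₀ ℚ := z
  refine ⟨∏ x ∈ z'.support, (z' x).den, Finset.prod_pos (fun x _ => (z' x).den_pos), ?_⟩
  intro x
  rw [coeff_smul]
  change ∃ n : ℤ, ((∏ x ∈ z'.support, (z' x).den : ℕ) : ℚ) * z' x = n
  by_cases hx : x ∈ z'.support
  · rw [← Finset.prod_erase_mul z'.support _ hx]
    refine ⟨((∏ y ∈ z'.support.erase x, (z' y).den : ℕ) : ℤ) * (z' x).num, ?_⟩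
    push_cast
    rw [mul_assoc, mul_comm ((z' x).den : ℚ), Rat.mul_den_eq_num]
  · rw [Finsupp.notMem_support_iff.1 hx]
    exact ⟨0, by simp⟩

/-- The degree of an integral cycle. -/
lemma deg_integral {z : X.Cycles} (hz : IntegralCycle X z) : ∃ n : ℤ, X.V.degCycle z = n := by
  classical
  choose g hg using hz
  let z' : X.V.X →₀ ℚ := z
  refine ⟨∑ x ∈ z'.support, g x, ?_⟩
  rw [Int.cast_sum]
  change Finset.sum z'.support (fun x => z' x) = _
  exact Finset.sum_congr rfl (fun x _ => hg x)

lemma comp_integral (hI : IntegralOps ops) {z w : (X.prod X).Cycles}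
    (hz : (X.prod X).IsCyc X.dim z) (hw : (X.prod X).IsCyc X.dim w)
    (hz' : IntegralCycle _ z) (hw' : IntegralCycle _ w) :
    IntegralCycle (X.prod X) (compCyc ops z w) := by
  have h1 := ops.pull_mem (p12 X X X) hz
  have h2 := ops.pull_mem (p23 X X X) hw
  exact hI.push _ (ops.mul_mem h1 h2) (hI.mul h1 h2 (hI.pull _ hz hz') (hI.pull _ hw hw'))

lemma diag_mem : (X.prod X).IsCyc X.dim (ops.push (diag X) X.V.fundCycle) :=
  ops.push_mem _ X.V.fundCycle_mem (by rw [dim_prod]; ring)

end Cyc

variable {W : WeilCohomology.{u, v} ops} {X : 𝒱.Obj}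

lemma corr_diag_one : W.corr (W.cl _ (ops.push (diag X) X.V.fundCycle)) = 1 := by
  apply LinearMap.ext
  intro a
  rw [W.cl_push, W.cl_fund, corr_diag, one_mul, Module.End.one_apply]

/-- The ring of integral correspondences. -/
def IR (W : WeilCohomology.{u, v} ops) (hI : IntegralOps ops) (X : 𝒱.Obj) :
    Subring (AR W X) where
  carrier := {u | ∃ (z : (X.prod X).Cycles) (hz : (X.prod X).IsCyc X.dim z),
    IntegralCycle _ z ∧ cR W hz = u}
  mul_mem' := by
    rintro _ _ ⟨z, hz, hz', rfl⟩ ⟨w, hw, hw', rfl⟩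
    refine ⟨compCyc ops w z, compCyc_mem hw hz (by omega), comp_integral hI hw hz hw' hz', ?_⟩
    apply Subtype.ext
    change W.corr (W.cl _ (compCyc ops w z)) = W.corr (W.cl _ z) * W.corr (W.cl _ w)
    rw [corr_compCyc W hz]
    rfl
  one_mem' := ⟨_, diag_mem, hI.push _ X.V.fundCycle_mem IntegralCycle.fund,
    Subtype.ext corr_diag_one⟩
  add_mem' := by
    rintro _ _ ⟨z, hz, hz', rfl⟩ ⟨w, hw, hw', rfl⟩
    refine ⟨z + w, hz.add hw, hz'.add hw', ?_⟩
    apply Subtype.ext
    change W.corr (W.cl _ (z + w)) = W.corr (W.cl _ z) + W.corr (W.cl _ w)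
    rw [map_add, corr_add]
  zero_mem' := by
    refine ⟨0, SmVar.IsCyc.zero _ _, IntegralCycle.zero, ?_⟩
    apply Subtype.ext
    change W.corr (W.cl _ 0) = 0
    rw [map_zero, corr_zero]
  neg_mem' := by
    rintro _ ⟨z, hz, hz', rfl⟩
    have h1 : (X.prod X).IsCyc X.dim (-z) := by
      have := SmVar.IsCyc.smul (-1) hz
      rwa [neg_one_smul] at this
    refine ⟨-z, h1, hz'.neg, ?_⟩
    apply Subtype.ext
    change W.corr (W.cl _ (-z)) = -W.corr (W.cl _ z)
    rw [map_neg, corr_neg']

/-- The ring of integral correspondences modulo numerical equivalence. -/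
noncomputable def IQ (W : WeilCohomology.{u, v} ops) (hI : IntegralOps ops) (X : 𝒱.Obj) :
    Subring (QA (rho W X)) := (IR W hI X).map (qm (rho W X)).toRingHom

lemma mem_IQ {hI : IntegralOps ops} {a : QA (rho W X)} : a ∈ IQ W hI X ↔
    ∃ (z : (X.prod X).Cycles) (hz : (X.prod X).IsCyc X.dim z), IntegralCycle _ z ∧
      qm (rho W X) (cR W hz) = a := by
  constructor
  · rintro ⟨u, ⟨z, hz, hz', rfl⟩, rfl⟩
    exact ⟨z, hz, hz', rfl⟩
  · rintro ⟨z, hz, hz', rfl⟩
    exact ⟨_, ⟨z, hz, hz', rfl⟩, rfl⟩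

lemma natCast_AR (c : ℕ) (u : AR W X) :
    (((c : AR W X) * u : AR W X) : Module.End W.K (W.H X)) =
      (c : W.K) • (u : Module.End W.K (W.H X)) := by
  rw [← nsmul_eq_mul]
  change (c • (u : Module.End W.K (W.H X))) = _
  rw [Nat.cast_smul_eq_nsmul]

/-- Denominators. -/
lemma IQ_denom (hI : IntegralOps ops) (a : QA (rho W X)) :
    ∃ c : ℕ, 0 < c ∧ (c : QA (rho W X)) * a ∈ IQ W hI X := by
  obtain ⟨u, rfl⟩ := qm_surj (rho W X) a
  obtain ⟨z, hz, rfl⟩ := exists_cR u
  obtain ⟨c, hc, hc'⟩ := exists_integral z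
  refine ⟨c, hc, mem_IQ.2 ⟨(c : ℚ) • z, hz.smul c, hc', ?_⟩⟩
  rw [← map_natCast (qm (rho W X)), ← map_mul]
  congr 1
  apply Subtype.ext
  rw [natCast_AR, cR_coe, cR_coe, W.cl_smul, corr_smul, Rat.cast_natCast]

section One

variable {D : X.Cycles} {f : Module.End W.K (W.H X)} (G : Gd W X D f)

/-- Traces against integral correspondences have bounded denominators. -/
lemma IQ_int (hI : IntegralOps ops) (a : QA (rho W X)) : ∃ N : ℕ, 0 < N ∧ ∀ r ∈ IQ W hI X,
    ∃ n : ℤ, (N : ℚ) * (ratRep G).tQ (a * r) = n := by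
  obtain ⟨v, rfl⟩ := qm_surj (rho W X) a
  obtain ⟨z', hz', hzv⟩ := cyc_of_rop (rop_mul0 (par_rop G) v.2)
  obtain ⟨N, hN, hN'⟩ := exists_integral z'
  refine ⟨N, hN, ?_⟩
  intro r hr
  obtain ⟨z, hz, hzi, rfl⟩ := mem_IQ.1 hr
  have hNz' : (X.prod X).IsCyc X.dim ((N : ℚ) • z') := hz'.smul N
  have hcm : (X.prod X).IsCyc X.dim (compCyc ops z ((N : ℚ) • z')) :=
    compCyc_mem hz hNz' (by omega)
  have h1 := comp_integral hI hz hNz' hzi hN'
  have h2 := hI.pull (diag X) hcm h1
  obtain ⟨n, hn⟩ := deg_integral h2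
  refine ⟨n, ?_⟩
  have h3 : (((N : ℚ) * (ratRep G).tQ (qm (rho W X) v * qm (rho W X) (cR W hz)) : ℚ) : W.K) =
      ((n : ℚ) : W.K) := by
    rw [← hn, ← W.tr_cl (ops.pull_mem (diag X) hcm), W.cl_pull, ← trace_par_corr,
      corr_compCyc W hNz', W.cl_smul, corr_smul, hzv, Rat.cast_mul, ← map_mul,
      (ratRep G).tQ_cast]
    have h4 : par (W.isInternal X) * ((((N : ℚ) : W.K) • (par (W.isInternal X) *
        (v : Module.End W.K (W.H X)))) ∘ₗ W.corr (W.cl _ z)) =
        ((N : ℚ) : W.K) • ((v : Module.End W.K (W.H X)) * W.corr (W.cl _ z)) := by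
      change par (W.isInternal X) * ((((N : ℚ) : W.K) • (par (W.isInternal X) *
        (v : Module.End W.K (W.H X)))) * W.corr (W.cl _ z)) = _
      rw [smul_mul_assoc, mul_smul_comm, mul_assoc (par (W.isInternal X)), ← mul_assoc
        (par (W.isInternal X)), H914.par_mul_par, one_mul]
    rw [h4, map_smul, smul_eq_mul]
    rfl
  exact_mod_cast h3

include G

/-- Numerically equivalent cycles. -/
lemma numZero_sub_iff {z w : (X.prod X).Cycles} (hz : (X.prod X).IsCyc X.dim z)
    (hw : (X.prod X).IsCyc X.dim w) : NumZero ops (X.prod X) X.dim (z - w) ↔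
      qm (rho W X) (cR W hz) = qm (rho W X) (cR W hw) := by
  have hnw : (X.prod X).IsCyc X.dim (-w) := by
    have := SmVar.IsCyc.smul (-1) hw
    rwa [neg_one_smul] at this
  have h1 : (X.prod X).IsCyc X.dim (z - w) := by rw [sub_eq_add_neg]; exact hz.add hnw
  rw [numZero_iff G h1, ← sub_eq_zero (a := qm (rho W X) (cR W hz)), ← map_sub]
  have h2 : cR W h1 = cR W hz - cR W hw := by
    apply Subtype.ext
    change W.corr (W.cl _ (z - w)) = W.corr (W.cl _ z) - W.corr (W.cl _ w)
    rw [sub_eq_add_neg z w, map_add, map_neg, corr_add, corr_neg', sub_eq_add_neg]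
  rw [h2]

/-- Numerical isometries in terms of the numerical algebra. -/
lemma isNumIsometry_iff {s : Module.End W.K (W.H X)} (hs : IsStar0 W X D s) {m : ℕ}
    {u : Fin m → Fin m → (X.prod X).Cycles} (hu : ∀ i j, (X.prod X).IsCyc X.dim (u i j)) :
    letI := starR G
    letI := (starTrace G).starRing
    IsNumIsometry0 W X s m u ↔
      star (Matrix.of fun i j => qm (rho W X) (cR W (hu i j))) *
        (Matrix.of fun i j => qm (rho W X) (cR W (hu i j))) = 1 := by
  letI i1 := starR G
  letI i2 := (starTrace G).starRing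
  have hst : ∀ w : AR W X, star (qm (rho W X) w) = qm (rho W X) (adjR G w) :=
    (starTrace G).star_qm
  have hent : ∀ i j, (star (Matrix.of fun i j => qm (rho W X) (cR W (hu i j))) *
        (Matrix.of fun i j => qm (rho W X) (cR W (hu i j)))) i j =
      qm (rho W X) (∑ l, adjR G (cR W (hu l i)) * cR W (hu l j)) := by
    intro i j
    rw [Matrix.mul_apply, map_sum]
    apply Finset.sum_congr rfl
    intro l _
    rw [Matrix.star_apply, Matrix.of_apply, Matrix.of_apply, map_mul, hst]
  -- the cycle of an entry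
  have hcyc : ∀ (v : Fin m → Fin m → (X.prod X).Cycles)
      (hv : ∀ i j, (X.prod X).IsCyc X.dim (v i j)) (i j : Fin m),
      (∀ i j, IsAdjoint0 W X s (u j i) (v i j)) →
      (NumZero ops (X.prod X) X.dim ((∑ l, compCyc ops (u l j) (v i l)) -
        if i = j then ops.push (diag X) X.V.fundCycle else 0) ↔
      qm (rho W X) (∑ l, adjR G (cR W (hu l i)) * cR W (hu l j)) =
        (1 : Matrix (Fin m) (Fin m) (QA (rho W X))) i j) := by
    intro v hv i j hadj
    have e1 : (X.prod X).IsCyc X.dim (∑ l, compCyc ops (u l j) (v i l)) := by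
      have : ∀ S : Finset (Fin m), (X.prod X).IsCyc X.dim
          (∑ l ∈ S, compCyc ops (u l j) (v i l)) := by
        intro S
        induction S using Finset.induction_on with
        | empty => rw [Finset.sum_empty]; exact SmVar.IsCyc.zero _ _
        | insert a S ha ih =>
          rw [Finset.sum_insert ha]
          exact SmVar.IsCyc.add (compCyc_mem (hu a j) (hv i a) (by omega)) ih
      exact this _
    have e2 : (X.prod X).IsCyc X.dim
        (if i = j then ops.push (diag X) X.V.fundCycle else 0) := by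
      split_ifs
      · exact diag_mem
      · exact SmVar.IsCyc.zero _ _
    rw [numZero_sub_iff G e1 e2]
    have e3 : cR W e1 = ∑ l, adjR G (cR W (hu l i)) * cR W (hu l j) := by
      apply Subtype.ext
      have e4 : ((∑ l, adjR G (cR W (hu l i)) * cR W (hu l j) : AR W X) :
          Module.End W.K (W.H X)) = ∑ l, ((adjR G (cR W (hu l i)) * cR W (hu l j) : AR W X) :
            Module.End W.K (W.H X)) := map_sum (AR W X).subtype _ _
      rw [e4, cR_coe, map_sum]
      have e5 : ∀ S : Finset (Fin m), W.corr (∑ l ∈ S, W.cl _ (compCyc ops (u l j) (v i l))) =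
          ∑ l ∈ S, W.corr (W.cl _ (compCyc ops (u l j) (v i l))) := by
        intro S
        induction S using Finset.induction_on with
        | empty => rw [Finset.sum_empty, Finset.sum_empty, corr_zero]
        | insert a S ha ih => rw [Finset.sum_insert ha, Finset.sum_insert ha, corr_add, ih]
      rw [e5]
      apply Finset.sum_congr rfl
      intro l _
      rw [corr_compCyc W (hv i l), (isAdjoint_iff G hs (hu l i) (hv i l)).1 (hadj i l)]
      rfl
    have e6 : ∀ (y : (X.prod X).Cycles) (hy : (X.prod X).IsCyc X.dim y),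
        y = (if i = j then ops.push (diag X) X.V.fundCycle else 0) →
        qm (rho W X) (cR W hy) = (1 : Matrix (Fin m) (Fin m) (QA (rho W X))) i j := by
      intro y hy hyy
      rw [Matrix.one_apply]
      by_cases hij : i = j
      · rw [if_pos hij] at hyy ⊢
        subst hyy
        rw [← map_one (qm (rho W X))]
        congr 1
        exact Subtype.ext corr_diag_one
      · rw [if_neg hij] at hyy ⊢
        subst hyy
        rw [← map_zero (qm (rho W X))]
        congr 1
        apply Subtype.ext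
        rw [cR_coe, map_zero, corr_zero]
        rfl
    rw [e3, e6 _ e2 rfl]
  constructor
  · rintro ⟨_, v, hv, hnum⟩
    apply Matrix.ext
    intro i j
    rw [hent]
    exact (hcyc v (fun i j => (hv i j).1) i j (fun i j => (hv i j).2)).1 (hnum i j)
  · intro h
    choose v hv hvu using fun i j => exists_cR (adjR G (cR W (hu j i)))
    have hadj : ∀ i j, IsAdjoint0 W X s (u j i) (v i j) := fun i j =>
      (isAdjoint_iff G hs (hu j i) (hv i j)).2 (hvu i j).symm
    refine ⟨hu, v, fun i j => ⟨hv i j, hadj i j⟩, fun i j => ?_⟩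
    rw [hcyc v hv i j hadj, ← hent, h]

/-- Finiteness. -/
lemma finitely_iff (hI : IntegralOps ops) {s : Module.End W.K (W.H X)} (hs : IsStar0 W X D s)
    (m : ℕ) :
    letI := starR G
    letI := (starTrace G).starRing
    FinitelyManyIsometries0 W X s m ↔ (isoSet (IQ W hI X) m).Finite := by
  classical
  letI i1 := starR G
  letI i2 := (starTrace G).starRing
  constructor
  · rintro ⟨S, hS, hfin⟩
    let cls : (Fin m → Fin m → (X.prod X).Cycles) → Matrix (Fin m) (Fin m) (QA (rho W X)) :=
      fun u => if hu : ∀ i j, (X.prod X).IsCyc X.dim (u i j) then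
        Matrix.of fun i j => qm (rho W X) (cR W (hu i j)) else 0
    apply Set.Finite.subset (S.image cls).finite_toSet
    rintro M ⟨hM, hMM⟩
    choose z hz hzi hzM using fun i j => mem_IQ.1 (hM i j)
    have hM2 : (Matrix.of fun i j => qm (rho W X) (cR W (hz i j))) = M := by
      apply Matrix.ext
      intro i j
      exact hzM i j
    have h1 : IsNumIsometry0 W X s m z := by
      rw [isNumIsometry_iff G hs hz, hM2]
      exact hMM
    obtain ⟨u', hu', hnum⟩ := hfin z h1 hzi
    rw [Finset.coe_image, Set.mem_image]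
    refine ⟨u', hu', ?_⟩
    have hc : cls u' = Matrix.of fun i j => qm (rho W X) (cR W (hS u' hu' i j)) :=
      dif_pos (hS u' hu')
    rw [hc, ← hM2]
    apply Matrix.ext
    intro i j
    exact ((numZero_sub_iff G (hz i j) (hS u' hu' i j)).1 (hnum i j)).symm
  · intro hfin
    have hrep : ∀ M ∈ isoSet (IQ W hI X) m, ∃ (z : Fin m → Fin m → (X.prod X).Cycles)
        (hz : ∀ i j, (X.prod X).IsCyc X.dim (z i j)),
        (Matrix.of fun i j => qm (rho W X) (cR W (hz i j))) = M := by
      rintro M ⟨hM, hMM⟩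
      choose z hz hzi hzM using fun i j => mem_IQ.1 (hM i j)
      refine ⟨z, hz, ?_⟩
      apply Matrix.ext
      intro i j
      exact hzM i j
    choose! z hz hzM using hrep
    refine ⟨hfin.toFinset.image z, ?_, ?_⟩
    · intro u hu i j
      rw [Finset.mem_image] at hu
      obtain ⟨M, hM, rfl⟩ := hu
      exact hz M (hfin.mem_toFinset.1 hM) i j
    · intro u hu hui
      have h1 := (isNumIsometry_iff G hs hu.1).1 hu
      have hmem : (Matrix.of fun i j => qm (rho W X) (cR W (hu.1 i j))) ∈
          isoSet (IQ W hI X) m :=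
        ⟨fun i j => mem_IQ.2 ⟨u i j, hu.1 i j, hui i j, rfl⟩, h1⟩
      refine ⟨z _, Finset.mem_image.2 ⟨_, hfin.mem_toFinset.2 hmem, rfl⟩, ?_⟩
      intro i j
      rw [numZero_sub_iff G (hu.1 i j) (hz _ hmem i j)]
      exact (congrArg (fun M => M i j) (hzM _ hmem)).symm

/-- **The standard conjecture of Hodge type for `X × X` and the finiteness of the groups of
integral isometries.** -/
theorem finite_tfae (hI : IntegralOps ops) {s : Module.End W.K (W.H X)} (hs : IsStar0 W X D s) :
    List.TFAE [HodgeStandard W (X.prod X) (boxSum ops D), FinitelyManyIsometries0 W X s 3,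
      ∀ m, FinitelyManyIsometries0 W X s m] := by
  letI i1 := starR G
  letI i2 := (starTrace G).starRing
  have hTD := (starTrace G).trData (ratRep G)
  have hfin : Module.Finite ℚ (QA (rho W X)) := (ratRep G).finite
  tfae_have 1 → 3 := by
    intro hH m
    rw [finitely_iff G hI hs]
    exact hTD.finite_of_pos ((hodge_iff G).1 hH) _ (IQ_int G hI) m
  tfae_have 3 → 2 := fun h => h 3
  tfae_have 2 → 1 := by
    intro h
    rw [finitely_iff G hI hs] at h
    exact (hodge_iff G).2 (hTD.pos_of_finite _ (IQ_denom hI) h)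
  tfae_finish

end One

end Pool.Agent.R911.Iso
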