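import Mathlib

/-!
# Traces of squares and complex roots of annihilating polynomials with rational coefficients
-/

open Polynomial Matrix

namespace Pool.Agent.R911.Iso

section Sq

variable {F : Type*} [Field F] [IsAlgClosed F] {n : Type*} [Fintype n] [DecidableEq n]

lemma eval_charpoly_roots (M : Matrix n n F) (t : F) :
    (Matrix.scalar n t - M).det = (M.charpoly.roots.map (fun x => t - x)).prod := by
  rw [← Matrix.eval_charpoly]
  conv_lhs => rw [(IsAlgClosed.splits M.charpoly).eq_prod_roots_of_monic (Matrix.charpoly_monic M)]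
  rw [eval_multiset_prod, Multiset.map_map]
  congr 1
  apply Multiset.map_congr rfl
  intro x _
  simp

lemma card_roots (M : Matrix n n F) : M.charpoly.roots.card = Fintype.card n := by
  rw [← (IsAlgClosed.splits M.charpoly).natDegree_eq_card_roots,
    Matrix.charpoly_natDegree_eq_dim]

/-- The trace of the square of a matrix. -/
theorem trace_mul_self (M : Matrix n n F) :
    (M * M).trace = (M.charpoly.roots.map (fun x => x * x)).sum := by
  have h1 : (M * M).charpoly = ((M.charpoly.roots.map (fun x => x * x)).map
      (fun y => X - C y)).prod := by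
    apply Polynomial.funext
    intro s
    obtain ⟨t, rfl⟩ := IsAlgClosed.exists_eq_mul_self s
    have e1 : Matrix.scalar n (t * t) - M * M = (Matrix.scalar n t - M) *
        (Matrix.scalar n t + M) := by
      have hc : M * Matrix.scalar n t = Matrix.scalar n t * M :=
        (Matrix.scalar_commute t (fun r => mul_comm _ _) M).eq.symm
      rw [map_mul, sub_mul, mul_add, mul_add, hc]
      abel
    have e2 : (Matrix.scalar n t + M).det = (M.charpoly.roots.map (fun x => t + x)).prod := by
      have : Matrix.scalar n t + M = -(Matrix.scalar n (-t) - M) := by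
        rw [map_neg]; abel
      rw [this, Matrix.det_neg, eval_charpoly_roots, ← card_roots M, ← Multiset.card_map
        (fun x => -t - x), ← Multiset.prod_map_neg, Multiset.map_map]
      congr 1
      apply Multiset.map_congr rfl
      intro x _
      simp only [Function.comp]
      ring
    rw [Matrix.eval_charpoly, e1, Matrix.det_mul, eval_charpoly_roots, e2, ← Multiset.prod_map_mul,
      eval_multiset_prod, Multiset.map_map, Multiset.map_map]
    congr 1
    apply Multiset.map_congr rfl
    intro x _
    simp
    ring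
  rw [Matrix.trace_eq_sum_roots_charpoly, h1, Polynomial.roots_multiset_prod_X_sub_C]

end Sq

section Main

variable {K : Type*} [Field K] [CharZero K] {V : Type*} [AddCommGroup V] [Module K V]
  [Module.Finite K V]

/-- **The complex eigenvalues.** -/
theorem exists_spec (y : Module.End K V) {p : ℚ[X]} (hp0 : p ≠ 0)
    (hp : IsNilpotent (aeval y (p.map (algebraMap ℚ K)))) {q : ℚ}
    (hq : LinearMap.trace K V (y * y) = q) :
    ∃ S : Multiset ℂ, (∀ l ∈ S, aeval l p = 0) ∧ (q : ℂ) = (S.map (fun l => l * l)).sum := by
  classical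
  let b := Module.finBasis K V
  set M : Matrix _ _ K := LinearMap.toMatrix b b y with hM
  let F := AlgebraicClosure K
  let M' : Matrix (Fin (Module.finrank K V)) (Fin (Module.finrank K V)) F :=
    M.map (algebraMap K F)
  -- eigenvalues are roots of `p`
  have hroot : ∀ μ ∈ M'.charpoly.roots, aeval μ p = 0 := by
    intro μ hμ
    rw [mem_roots (Matrix.charpoly_monic M').ne_zero, IsRoot.def, Matrix.eval_charpoly] at hμ
    obtain ⟨v, hv, hv2⟩ := Matrix.exists_mulVec_eq_zero_iff.2 hμ
    rw [Matrix.sub_mulVec, sub_eq_zero] at hv2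
    have h1 : M' *ᵥ v = μ • v := by
      rw [← hv2, Matrix.scalar_apply, Matrix.diagonal_const_mulVec]
    have h2 : ∀ P : F[X], (aeval M' P) *ᵥ v = (P.eval μ) • v := by
      intro P
      induction P using Polynomial.induction_on' with
      | add P Q hP hQ => rw [map_add, Matrix.add_mulVec, hP, hQ, eval_add, add_smul]
      | monomial m a =>
        have h3 : ∀ m : ℕ, (M' ^ m) *ᵥ v = (μ ^ m) • v := by
          intro m
          induction m with
          | zero => simp
          | succ m ih => rw [pow_succ, ← Matrix.mulVec_mulVec, h1, Matrix.mulVec_smul, ih,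
              smul_smul, pow_succ, mul_comm]
        rw [aeval_monomial, eval_monomial, ← Algebra.smul_def, Matrix.smul_mulVec, h3,
          smul_smul]
    obtain ⟨N, hN⟩ := hp
    have h4 : aeval M' ((p.map (algebraMap ℚ F)) ^ N) = 0 := by
      have h5 : aeval M ((p.map (algebraMap ℚ K)) ^ N) = 0 := by
        have h6 := congrArg (LinearMap.toMatrixAlgEquiv b) hN
        rw [map_zero, ← map_pow, ← Polynomial.aeval_algHom_apply] at h6
        exact h6
      have h7 := congrArg (fun A : Matrix _ _ K => A.map (algebraMap K F)) h5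
      have h8 : ∀ P : K[X], (aeval M P).map (algebraMap K F) =
          aeval M' (P.map (algebraMap K F)) := by
        intro P
        have h9 : (Algebra.ofId K F).mapMatrix (aeval M P) =
            aeval ((Algebra.ofId K F).mapMatrix M) P :=
          (Polynomial.aeval_algHom_apply _ M P).symm
        rw [Polynomial.aeval_map_algebraMap]
        exact h9
      rw [h8, Polynomial.map_pow, Polynomial.map_map] at h7
      have h10 : (algebraMap K F).comp (algebraMap ℚ K) = algebraMap ℚ F :=
        Subsingleton.elim _ _
      rw [h10] at h7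
      rw [h7]
      simp
    have h5 := h2 ((p.map (algebraMap ℚ F)) ^ N)
    rw [h4, Matrix.zero_mulVec, eval_pow] at h5
    have h6 : (eval μ (p.map (algebraMap ℚ F))) ^ N = 0 := by
      rcases smul_eq_zero.1 h5.symm with h | h
      · exact h
      · exact absurd h hv
    have h7 : eval μ (p.map (algebraMap ℚ F)) = 0 := by
      by_contra h
      exact absurd h6 (pow_ne_zero N h)
    rw [eval_map_algebraMap] at h7
    exact h7
  -- the subfield of algebraic numbers
  let L := algebraicClosure ℚ F
  have hL : ∀ μ ∈ M'.charpoly.roots, μ ∈ L := by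
    intro μ hμ
    rw [mem_algebraicClosure_iff]
    exact ⟨p, hp0, hroot μ hμ⟩
  have : Algebra.IsAlgebraic ℚ L := algebraicClosure.isAlgebraic ℚ F
  let φ : L →ₐ[ℚ] ℂ := IsAlgClosed.lift
  have htr : (M' * M').trace = (q : F) := by
    have h1 : M' * M' = (M * M).map (algebraMap K F) := by
      rw [Matrix.map_mul]
    have h2 : (M * M).trace = (q : K) := by
      rw [hM, ← LinearMap.toMatrix_mul, ← hq, LinearMap.trace_eq_matrix_trace K b]
    rw [h1, ← AddMonoidHom.map_trace (algebraMap K F), h2]
    exact map_ratCast (algebraMap K F) q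
  rw [trace_mul_self] at htr
  refine ⟨M'.charpoly.roots.attach.map (fun μ => φ ⟨μ.1, hL μ.1 μ.2⟩), ?_, ?_⟩
  · intro l hl
    obtain ⟨μ, _, rfl⟩ := Multiset.mem_map.1 hl
    have h1 : aeval (⟨μ.1, hL μ.1 μ.2⟩ : L) p = 0 := by
      apply Subtype.ext
      have h2 := hroot μ.1 μ.2
      exact (Polynomial.aeval_algHom_apply L.val (⟨μ.1, hL μ.1 μ.2⟩ : L) p).symm.trans h2
    rw [Polynomial.aeval_algHom_apply, h1, map_zero]
  · rw [Multiset.map_map]
    have h1 : ((M'.charpoly.roots.attach.map (fun μ => (⟨μ.1, hL μ.1 μ.2⟩ : L) *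
        ⟨μ.1, hL μ.1 μ.2⟩)).sum : L) = (q : L) := by
      apply Subtype.ext
      have h2 : (((M'.charpoly.roots.attach.map (fun μ => (⟨μ.1, hL μ.1 μ.2⟩ : L) *
        ⟨μ.1, hL μ.1 μ.2⟩)).sum : L) : F) = L.val ((M'.charpoly.roots.attach.map
          (fun μ => (⟨μ.1, hL μ.1 μ.2⟩ : L) * ⟨μ.1, hL μ.1 μ.2⟩)).sum) := rfl
      rw [h2, map_multiset_sum, Multiset.map_map]
      have h3 : ((M'.charpoly.roots.attach.map (L.val ∘ fun μ => (⟨μ.1, hL μ.1 μ.2⟩ : L) *
          ⟨μ.1, hL μ.1 μ.2⟩)).sum : F) = (M'.charpoly.roots.map (fun x => x * x)).sum := by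
        rw [← Multiset.attach_map_val' M'.charpoly.roots (fun x => x * x)]
        rfl
      rw [h3, htr]
      exact (map_ratCast L.val q).symm
    have h2 := congrArg φ h1
    rw [map_multiset_sum, Multiset.map_map, map_ratCast] at h2
    rw [← h2]
    congr 1
    apply Multiset.map_congr rfl
    intro μ _
    simp only [Function.comp, map_mul]

end Main

end Pool.Agent.R911.Iso
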