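import Pool.Agent.R911.Iso.Abs2
import Pool.Agent.R911.Iso.Spec
import Pool.Agent.H914R2.Core0

/-!
# The quotient of a rational algebra of operators by the radical of the trace form
-/

open Polynomial Matrix

namespace Pool.Agent.R911.Iso

variable {K : Type*} [Field K] [CharZero K] {V : Type*} [AddCommGroup V] [Module K V]
  [Module.Finite K V] {R₀ : Type*} [Ring R₀] [Algebra ℚ R₀]

/-- A representation with rational traces. -/
structure RatRep (ρ : R₀ →+* Module.End K V) : Prop where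
  smul : ∀ (q : ℚ) r, ρ (q • r) = (q : K) • ρ r
  rat : ∀ r, ∃ q : ℚ, LinearMap.trace K V (ρ r) = q

/-- The radical of the trace form. -/
def nId (ρ : R₀ →+* Module.End K V) : Ideal R₀ where
  carrier := {u | ∀ v, LinearMap.trace K V (ρ (u * v)) = 0}
  zero_mem' := fun v => by rw [zero_mul, map_zero, map_zero]
  add_mem' := by
    intro a b ha hb v
    rw [add_mul, map_add, map_add, ha v, hb v, add_zero]
  smul_mem' := by
    intro c a ha v
    rw [smul_eq_mul, mul_assoc, map_mul, LinearMap.trace_mul_comm, ← map_mul, mul_assoc]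
    exact ha _

lemma mem_nId {ρ : R₀ →+* Module.End K V} {u : R₀} :
    u ∈ nId ρ ↔ ∀ v, LinearMap.trace K V (ρ (u * v)) = 0 := Iff.rfl

instance (ρ : R₀ →+* Module.End K V) : (nId ρ).IsTwoSided where
  mul_mem_of_left := by
    intro a b ha v
    rw [mul_assoc]
    exact ha _

/-- The quotient algebra. -/
abbrev QA (ρ : R₀ →+* Module.End K V) : Type _ := R₀ ⧸ nId ρ

/-- The quotient map. -/
def qm (ρ : R₀ →+* Module.End K V) : R₀ →ₐ[ℚ] QA ρ := Ideal.Quotient.mkₐ ℚ (nId ρ)

lemma qm_surj (ρ : R₀ →+* Module.End K V) : Function.Surjective (qm ρ) :=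
  Ideal.Quotient.mk_surjective

lemma qm_eq_zero {ρ : R₀ →+* Module.End K V} {u : R₀} :
    qm ρ u = 0 ↔ ∀ v, LinearMap.trace K V (ρ (u * v)) = 0 :=
  Ideal.Quotient.eq_zero_iff_mem

namespace RatRep

variable {ρ : R₀ →+* Module.End K V} (H : RatRep ρ)

/-- The rational trace, as a function. -/
noncomputable def tqf (r : R₀) : ℚ := (H.rat r).choose

lemma tqf_spec (r : R₀) : ((H.tqf r : ℚ) : K) = LinearMap.trace K V (ρ r) :=
  (H.rat r).choose_spec.symm

/-- The rational trace. -/
noncomputable def tq : R₀ →ₗ[ℚ] ℚ where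
  toFun r := H.tqf r
  map_add' a b := by
    apply Rat.cast_injective (α := K)
    rw [Rat.cast_add, tqf_spec, tqf_spec, tqf_spec, map_add, map_add]
  map_smul' q a := by
    apply Rat.cast_injective (α := K)
    rw [RingHom.id_apply, smul_eq_mul, Rat.cast_mul, tqf_spec, tqf_spec, H.smul, map_smul,
      smul_eq_mul]

lemma tq_spec (r : R₀) : ((H.tq r : ℚ) : K) = LinearMap.trace K V (ρ r) :=
  (H.rat r).choose_spec.symm

/-- The trace on the quotient. -/
noncomputable def tQ : QA ρ →ₗ[ℚ] ℚ :=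
  Submodule.liftQ ((nId ρ).restrictScalars ℚ) H.tq (by
    intro u hu
    have h1 : ((H.tq u : ℚ) : K) = 0 := by
      rw [H.tq_spec]
      have h2 := mem_nId.1 (show u ∈ nId ρ from hu) 1
      rwa [mul_one] at h2
    have h2 : H.tq u = 0 := by exact_mod_cast h1
    exact h2)

lemma tQ_mk (r : R₀) : H.tQ (qm ρ r) = H.tq r := rfl

lemma tQ_cast (r : R₀) : ((H.tQ (qm ρ r) : ℚ) : K) = LinearMap.trace K V (ρ r) := by
  rw [tQ_mk, tq_spec]

include H in
/-- The quotient is finite-dimensional. -/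
theorem finite : Module.Finite ℚ (QA ρ) := by
  classical
  -- a basis of the span consisting of operators
  let Sp := Submodule.span K (Set.range ρ)
  obtain ⟨κ, hκ⟩ : ∃ κ : Finset R₀, Sp = Submodule.span K (ρ '' (κ : Set R₀)) := by
    obtain ⟨b, hb1, hb2, hb3⟩ := exists_linearIndependent K (Set.range ρ)
    have hfin : b.Finite := Set.finite_coe_iff.1 hb3.finite
    choose! g hg using fun x (hx : x ∈ b) => hb1 hx
    refine ⟨hfin.toFinset.image g, ?_⟩
    change Submodule.span K (Set.range ρ) = _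
    rw [← hb2]
    congr 1
    ext x
    simp only [Finset.coe_image, Set.Finite.coe_toFinset, Set.mem_image, exists_exists_and_eq_and]
    constructor
    · intro hx; exact ⟨x, hx, hg x hx⟩
    · rintro ⟨y, hy, rfl⟩; rw [hg y hy]; exact hy
  -- the map to `ℚ^κ`
  let Φ : QA ρ →ₗ[ℚ] (κ → ℚ) := LinearMap.pi (fun v => Submodule.liftQ
    ((nId ρ).restrictScalars ℚ) (H.tq ∘ₗ LinearMap.mulRight ℚ (v : R₀)) (by
      intro u hu
      have h1 : ((H.tq (u * (v : R₀)) : ℚ) : K) = 0 := by
        rw [H.tq_spec]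
        exact mem_nId.1 (show u ∈ nId ρ from hu) _
      have h2 : H.tq (u * (v : R₀)) = 0 := by exact_mod_cast h1
      exact h2))
  have hΦ : Function.Injective Φ := by
    rw [injective_iff_map_eq_zero]
    intro x hx
    obtain ⟨u, rfl⟩ := qm_surj ρ x
    rw [qm_eq_zero]
    have h1 : ∀ v ∈ κ, LinearMap.trace K V (ρ u * ρ v) = 0 := by
      intro v hv
      have h2 := congrFun hx ⟨v, hv⟩
      have h3 : H.tq (u * v) = 0 := h2
      rw [← map_mul, ← H.tq_spec, h3, Rat.cast_zero]
    intro v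
    rw [map_mul]
    have h4 : ρ v ∈ Submodule.span K (ρ '' (κ : Set R₀)) := by
      rw [← hκ]; exact Submodule.subset_span ⟨v, rfl⟩
    refine Submodule.span_induction (p := fun x _ => LinearMap.trace K V (ρ u * x) = 0)
      ?_ ?_ ?_ ?_ h4
    · rintro x ⟨w, hw, rfl⟩
      exact h1 w hw
    · rw [mul_zero, map_zero]
    · intro x y _ _ hx hy
      rw [mul_add, map_add, hx, hy, add_zero]
    · intro a x _ hx
      rw [mul_smul_comm, map_smul, hx, smul_zero]
  exact Module.Finite.of_injective Φ hΦ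

/-- The matrices as operators. -/
noncomputable def mrep (ρ : R₀ →+* Module.End K V) (m : ℕ) :
    Matrix (Fin m) (Fin m) R₀ →+* Module.End K (Fin m → V) :=
  (endVecRingEquivMatrixEnd (Fin m) K V).symm.toRingHom.comp ρ.mapMatrix

lemma mrep_apply (m : ℕ) (z : Matrix (Fin m) (Fin m) R₀) (x : Fin m → V) (i : Fin m) :
    mrep ρ m z x i = ∑ j, ρ (z i j) (x j) := rfl

include H in
lemma mrep_smul (m : ℕ) (q : ℚ) (z : Matrix (Fin m) (Fin m) R₀) :
    mrep ρ m (q • z) = (q : K) • mrep ρ m z := by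
  apply LinearMap.ext
  intro x
  funext i
  rw [mrep_apply, LinearMap.smul_apply, Pi.smul_apply, mrep_apply, Finset.smul_sum]
  apply Finset.sum_congr rfl
  intro j _
  rw [Matrix.smul_apply, H.smul, LinearMap.smul_apply]

lemma trace_mrep (m : ℕ) (z : Matrix (Fin m) (Fin m) R₀) :
    LinearMap.trace K (Fin m → V) (mrep ρ m z) = ∑ i, LinearMap.trace K V (ρ (z i i)) := by
  classical
  have h1 : mrep ρ m z = ∑ i, ∑ j, (LinearMap.single K (fun _ : Fin m => V) i ∘ₗ ρ (z i j)) ∘ₗ
      LinearMap.proj j := by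
    apply LinearMap.ext
    intro x
    funext i
    rw [mrep_apply]
    simp only [LinearMap.sum_apply, Finset.sum_apply, LinearMap.comp_apply, LinearMap.proj_apply]
    rw [Finset.sum_comm]
    apply Finset.sum_congr rfl
    intro j _
    rw [Finset.sum_eq_single i]
    · simp
    · intro i' _ hi'
      simp [Ne.symm hi']
    · intro h; exact absurd (Finset.mem_univ _) h
  rw [h1, map_sum]
  apply Finset.sum_congr rfl
  intro i _
  rw [map_sum, Finset.sum_eq_single i]
  · rw [LinearMap.trace_comp_comm']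
    congr 1
    apply LinearMap.ext
    intro x
    simp
  · intro j _ hj
    rw [LinearMap.trace_comp_comm']
    have h2 : LinearMap.proj j ∘ₗ LinearMap.single K (fun _ : Fin m => V) i ∘ₗ ρ (z i j) = 0 := by
      apply LinearMap.ext
      intro x
      simp [hj]
    rw [h2, map_zero]
  · intro h; exact absurd (Finset.mem_univ _) h

lemma aeval_mrep_aux (H : RatRep ρ) (m : ℕ) (z : Matrix (Fin m) (Fin m) R₀) (p : ℚ[X]) :
    mrep ρ m (aeval z p) = aeval (mrep ρ m z) (p.map (algebraMap ℚ K)) := by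
  induction p using Polynomial.induction_on' with
  | add p q hp hq => rw [map_add, map_add, hp, hq, Polynomial.map_add, map_add]
  | monomial n a =>
    rw [aeval_monomial, Polynomial.map_monomial, aeval_monomial, ← Algebra.smul_def,
      ← Algebra.smul_def, H.mrep_smul, map_pow]
    rfl

/-- A matrix over the radical is nilpotent. -/
theorem nilpotent_of_rad (m : ℕ) {z : Matrix (Fin m) (Fin m) R₀} (hz : ∀ i j, qm ρ (z i j) = 0) :
    IsNilpotent (mrep ρ m z) := by
  apply H914.isNilpotent_of_trace_pow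
  intro r
  have h1 : ∀ i j, qm ρ ((z ^ (r + 1)) i j) = 0 := by
    intro i j
    rw [pow_succ, Matrix.mul_apply, map_sum]
    apply Finset.sum_eq_zero
    intro l _
    rw [map_mul, hz, mul_zero]
  rw [← map_pow, trace_mrep]
  apply Finset.sum_eq_zero
  intro i _
  have h2 := qm_eq_zero.1 (h1 i i) 1
  rwa [mul_one] at h2

/-- The matrices over the quotient. -/
noncomputable def mqm (ρ : R₀ →+* Module.End K V) (m : ℕ) :
    Matrix (Fin m) (Fin m) R₀ →ₐ[ℚ] Matrix (Fin m) (Fin m) (QA ρ) := (qm ρ).mapMatrix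

lemma mqm_apply (m : ℕ) (z : Matrix (Fin m) (Fin m) R₀) (i j : Fin m) :
    mqm ρ m z i j = qm ρ (z i j) := rfl

lemma mqm_surj (m : ℕ) (z : Matrix (Fin m) (Fin m) (QA ρ)) : ∃ z₀, mqm ρ m z₀ = z := by
  choose g hg using fun x => qm_surj ρ x
  refine ⟨fun i j => g (z i j), ?_⟩
  ext i j
  exact hg _

include H in
/-- Annihilating polynomials in the quotient annihilate up to nilpotents. -/
theorem nilpotent_of_aeval (m : ℕ) (z : Matrix (Fin m) (Fin m) R₀) {p : ℚ[X]}
    (hp : aeval (mqm ρ m z) p = 0) :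
    IsNilpotent (aeval (mrep ρ m z) (p.map (algebraMap ℚ K))) := by
  rw [← H.aeval_mrep_aux]
  apply nilpotent_of_rad
  intro i j
  rw [← mqm_apply, ← Polynomial.aeval_algHom_apply, hp]
  rfl

include H in
theorem spec (m : ℕ) (z : Matrix (Fin m) (Fin m) (QA ρ)) : ∃ S : Multiset ℂ,
    (∀ l ∈ S, aeval l (minpoly ℚ z) = 0) ∧
      ((mtr H.tQ m (z * z) : ℚ) : ℂ) = (S.map (fun l => l * l)).sum := by
  have : Module.Finite ℚ (QA ρ) := H.finite
  obtain ⟨z₀, rfl⟩ := mqm_surj m z
  apply exists_spec (mrep ρ m z₀) (minpoly.ne_zero (Algebra.IsIntegral.isIntegral _))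
  · exact H.nilpotent_of_aeval m z₀ (minpoly.aeval _ _)
  · rw [← map_mul, trace_mrep, mtr_apply, Rat.cast_sum]
    apply Finset.sum_congr rfl
    intro i _
    rw [← map_mul, mqm_apply, H.tQ_cast]

end RatRep

section Star

variable [StarRing R₀] {ρ : R₀ →+* Module.End K V}

/-- The involution preserves the trace. -/
def StarTrace (ρ : R₀ →+* Module.End K V) : Prop :=
  ∀ r, LinearMap.trace K V (ρ (star r)) = LinearMap.trace K V (ρ r)

lemma StarTrace.mem (h : StarTrace ρ) {u : R₀} (hu : qm ρ u = 0) : qm ρ (star u) = 0 := by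
  rw [qm_eq_zero] at hu ⊢
  intro v
  rw [← h, star_mul, star_star, map_mul, LinearMap.trace_mul_comm, ← map_mul]
  exact hu _

/-- The involution on the quotient. -/
@[reducible]
noncomputable def StarTrace.starRing (h : StarTrace ρ) : StarRing (QA ρ) where
  star x := qm ρ (star (qm_surj ρ x).choose)
  star_involutive := by
    intro x
    have h1 : ∀ u, qm ρ (star (qm_surj ρ (qm ρ u)).choose) = qm ρ (star u) := by
      intro u
      have h2 := (qm_surj ρ (qm ρ u)).choose_spec
      rw [← sub_eq_zero, ← map_sub, ← star_sub]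
      apply h.mem
      rw [map_sub, h2, sub_self]
    obtain ⟨u, rfl⟩ := qm_surj ρ x
    change qm ρ (star (qm_surj ρ (qm ρ (star (qm_surj ρ (qm ρ u)).choose))).choose) = qm ρ u
    rw [h1, star_star]
    exact (qm_surj ρ (qm ρ u)).choose_spec
  star_mul := by
    intro x y
    have h1 : ∀ u, qm ρ (star (qm_surj ρ (qm ρ u)).choose) = qm ρ (star u) := by
      intro u
      have h2 := (qm_surj ρ (qm ρ u)).choose_spec
      rw [← sub_eq_zero, ← map_sub, ← star_sub]
      apply h.mem
      rw [map_sub, h2, sub_self]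
    obtain ⟨u, rfl⟩ := qm_surj ρ x
    obtain ⟨v, rfl⟩ := qm_surj ρ y
    change qm ρ (star (qm_surj ρ (qm ρ u * qm ρ v)).choose) =
      qm ρ (star (qm_surj ρ (qm ρ v)).choose) * qm ρ (star (qm_surj ρ (qm ρ u)).choose)
    rw [← map_mul, h1, h1, h1, star_mul, map_mul]
  star_add := by
    intro x y
    have h1 : ∀ u, qm ρ (star (qm_surj ρ (qm ρ u)).choose) = qm ρ (star u) := by
      intro u
      have h2 := (qm_surj ρ (qm ρ u)).choose_spec
      rw [← sub_eq_zero, ← map_sub, ← star_sub]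
      apply h.mem
      rw [map_sub, h2, sub_self]
    obtain ⟨u, rfl⟩ := qm_surj ρ x
    obtain ⟨v, rfl⟩ := qm_surj ρ y
    change qm ρ (star (qm_surj ρ (qm ρ u + qm ρ v)).choose) =
      qm ρ (star (qm_surj ρ (qm ρ u)).choose) + qm ρ (star (qm_surj ρ (qm ρ v)).choose)
    rw [← map_add, h1, h1, h1, star_add, map_add]

lemma StarTrace.star_qm (h : StarTrace ρ) (u : R₀) :
    h.starRing.star (qm ρ u) = qm ρ (star u) := by
  have h2 := (qm_surj ρ (qm ρ u)).choose_spec
  change qm ρ (star (qm_surj ρ (qm ρ u)).choose) = qm ρ (star u)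
  rw [← sub_eq_zero, ← map_sub, ← star_sub]
  apply h.mem
  rw [map_sub, h2, sub_self]

/-- The quotient with its involution and trace. -/
theorem StarTrace.trData (h : StarTrace ρ) (H : RatRep ρ) :
    @TrData _ _ h.starRing _ H.tQ := by
  letI := h.starRing
  refine ⟨?_, ?_, ?_, H.spec⟩
  · intro a b
    obtain ⟨u, rfl⟩ := qm_surj ρ a
    obtain ⟨v, rfl⟩ := qm_surj ρ b
    have h1 : ((H.tQ (qm ρ u * qm ρ v) : ℚ) : K) = ((H.tQ (qm ρ v * qm ρ u) : ℚ) : K) := by
      rw [← map_mul, ← map_mul, H.tQ_cast, H.tQ_cast, map_mul ρ, map_mul ρ,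
        LinearMap.trace_mul_comm]
    exact_mod_cast h1
  · intro a
    obtain ⟨u, rfl⟩ := qm_surj ρ a
    have h1 : ((H.tQ (star (qm ρ u)) : ℚ) : K) = ((H.tQ (qm ρ u) : ℚ) : K) := by
      have h2 : star (qm ρ u) = qm ρ (star u) := h.star_qm u
      rw [h2, H.tQ_cast, H.tQ_cast, h]
    exact_mod_cast h1
  · intro a ha
    obtain ⟨u, rfl⟩ := qm_surj ρ a
    rw [qm_eq_zero]
    intro v
    rw [← H.tQ_cast, map_mul, ha, Rat.cast_zero]

end Star

end Pool.Agent.R911.Iso
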