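import Pool.Agent.R911.Iso.Unit

/-!
# Isometries of infinite order in orders of anisotropic algebras with involution
-/

open Polynomial NumberField

namespace Pool.Agent.R911.Iso

section Poly

/-- The polynomial `P (-T)`. -/
noncomputable def ng (P : ℚ[X]) : ℚ[X] := P.comp (-X)

lemma ng_mul (P Q : ℚ[X]) : ng (P * Q) = ng P * ng Q := mul_comp _ _ _

lemma ng_add (P Q : ℚ[X]) : ng (P + Q) = ng P + ng Q := add_comp

lemma ng_one : ng 1 = 1 := one_comp

lemma ng_ng (P : ℚ[X]) : ng (ng P) = P := by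
  rw [ng, ng, comp_assoc, neg_comp, X_comp, neg_neg, comp_X]

lemma ng_dvd {P Q : ℚ[X]} (h : P ∣ Q) : ng P ∣ ng Q := by
  obtain ⟨R, rfl⟩ := h
  rw [ng_mul]
  exact Dvd.intro _ rfl

end Poly

variable {B : Type*} [Ring B] [StarRing B] [Algebra ℚ B]

lemma star_rat_smul (q : ℚ) (b : B) : star (q • b) = q • star b :=
  map_rat_smul (starAddEquiv : B ≃+ B) q b

lemma star_aeval (z : B) (P : ℚ[X]) : star (aeval z P) = aeval (star z) P := by
  induction P using Polynomial.induction_on' with
  | add p q hp hq => rw [map_add, star_add, hp, hq, map_add]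
  | monomial n a =>
    rw [aeval_monomial, aeval_monomial, ← Algebra.smul_def, ← Algebra.smul_def, star_rat_smul,
      star_pow]

omit [StarRing B] in
lemma aeval_ng (z : B) (P : ℚ[X]) : aeval z (ng P) = aeval (-z) P := by
  rw [ng, aeval_comp, map_neg, aeval_X]

/-- A skew element of an anisotropic algebra with involution, with a root of the minimal
polynomial off the imaginary axis. -/
structure SkewData (z : B) (lam : ℂ) : Prop where
  skew : star z = -z
  an : ∀ w : B, star w * w = 0 → w = 0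
  int : IsIntegral ℚ z
  root : aeval lam (minpoly ℚ z) = 0
  re : lam.re ≠ 0

namespace SkewData

variable {z : B} {lam : ℂ} (S : SkewData z lam)

include S

lemma star_ev (P : ℚ[X]) : star (aeval z P) = aeval z (ng P) := by
  rw [star_aeval, aeval_ng, S.skew]

lemma int_lam : IsIntegral ℚ lam :=
  ⟨minpoly ℚ z, minpoly.monic S.int, by rw [← aeval_def]; exact S.root⟩

lemma reduced {P : ℚ[X]} (h : aeval z (P * P) = 0) : aeval z P = 0 := by
  apply S.an
  have h1 : star (star (aeval z P) * aeval z P) * (star (aeval z P) * aeval z P) = 0 := by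
    rw [S.star_ev, ← map_mul, S.star_ev, ← map_mul, ng_mul, ng_ng]
    rw [show P * ng P * (ng P * P) = ng P * ng P * (P * P) by ring, map_mul, h, mul_zero]
  exact S.an _ h1

/-- The irreducible factor belonging to the root. -/
lemma exists_cofactor : ∃ h : ℚ[X], minpoly ℚ z = minpoly ℚ lam * h ∧
    IsCoprime (minpoly ℚ lam) h := by
  obtain ⟨h, hh⟩ := minpoly.dvd ℚ lam S.root
  refine ⟨h, hh, ?_⟩
  have hirr := minpoly.irreducible S.int_lam
  rcases EuclideanDomain.dvd_or_coprime (minpoly ℚ lam) h hirr with h1 | h1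
  · exfalso
    obtain ⟨r, hr⟩ := h1
    have h2 : aeval z (minpoly ℚ lam * r) = 0 := by
      apply S.reduced
      have : minpoly ℚ lam * r * (minpoly ℚ lam * r) = minpoly ℚ z * r := by
        rw [hh, hr]; ring
      rw [this, map_mul, minpoly.aeval, zero_mul]
    have h3 := minpoly.dvd ℚ z h2
    rw [hh, hr] at h3
    have hr0 : r ≠ 0 := by
      rintro rfl
      rw [hr, mul_zero, mul_zero] at hh
      exact minpoly.ne_zero S.int hh
    have h4 : minpoly ℚ lam * (minpoly ℚ lam * r) ∣ 1 * (minpoly ℚ lam * r) := by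
      rw [one_mul]; exact h3
    have h5 := (mul_dvd_mul_iff_right (mul_ne_zero hirr.ne_zero hr0)).1 h4
    exact hirr.not_isUnit (isUnit_of_dvd_one h5)
  · exact h1

lemma dvd_ng : minpoly ℚ z ∣ ng (minpoly ℚ z) := by
  apply minpoly.dvd
  rw [← S.star_ev, minpoly.aeval, star_zero]

lemma fac_dvd_ng : minpoly ℚ lam ∣ ng (minpoly ℚ lam) := by
  obtain ⟨h, hh, hc⟩ := S.exists_cofactor
  have hirr := minpoly.irreducible S.int_lam
  have h1 : minpoly ℚ lam ∣ ng (minpoly ℚ lam) * ng h := by
    rw [← ng_mul, ← hh]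
    exact (Dvd.intro _ hh.symm).trans S.dvd_ng
  rcases hirr.prime.dvd_or_dvd h1 with h2 | h2
  · exact h2
  · exfalso
    obtain ⟨r, hr⟩ := h2
    have h3 : aeval z h = 0 := by
      apply S.an
      rw [S.star_ev, ← map_mul, hr, show minpoly ℚ lam * r * h = minpoly ℚ z * r by rw [hh]; ring,
        map_mul, minpoly.aeval, zero_mul]
    have h4 := minpoly.dvd ℚ z h3
    have hh0 : h ≠ 0 := by
      rintro rfl
      rw [mul_zero] at hh
      exact minpoly.ne_zero S.int hh
    have h5 : minpoly ℚ lam * h ∣ 1 * h := by rw [one_mul, ← hh]; exact h4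
    have h6 := (mul_dvd_mul_iff_right hh0).1 h5
    exact hirr.not_isUnit (isUnit_of_dvd_one h6)

/-- The idempotent cutting out the factor. -/
lemma exists_idem : ∃ E : ℚ[X],
    (∀ P : ℚ[X], minpoly ℚ lam ∣ P → aeval z (P * E) = 0) ∧
    (minpoly ℚ lam ∣ E - 1) ∧ aeval z (E * E) = aeval z E ∧
    aeval z (ng E) = aeval z E ∧ (∀ P : ℚ[X], aeval z (P * E) = 0 → minpoly ℚ lam ∣ P) := by
  obtain ⟨h, hh, hc⟩ := S.exists_cofactor
  have hirr := minpoly.irreducible S.int_lam
  obtain ⟨a, b, hab⟩ := id hc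
  have hk : ∀ P : ℚ[X], minpoly ℚ lam ∣ P → aeval z (P * (b * h)) = 0 := by
    rintro _ ⟨r, rfl⟩
    rw [show minpoly ℚ lam * r * (b * h) = minpoly ℚ z * (r * b) by rw [hh]; ring, map_mul,
      minpoly.aeval, zero_mul]
  have h1 : ∀ r : ℚ[X], aeval z (h * r * (b * h)) = aeval z (h * r) := by
    intro r
    have : h * r * (b * h) = h * r - minpoly ℚ z * (r * a) := by
      rw [hh]; linear_combination (h * r) * hab
    rw [this, map_sub, map_mul (aeval z) (minpoly ℚ z), minpoly.aeval, zero_mul, sub_zero]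
  -- `h` divides `ng h`
  have hgn := S.fac_dvd_ng
  have hdeg : (ng (minpoly ℚ lam)).natDegree = (minpoly ℚ lam).natDegree := by
    rw [ng, natDegree_comp, natDegree_neg, natDegree_X, mul_one]
  have hg0 : ng (minpoly ℚ lam) ≠ 0 := by
    intro h0
    have := ng_ng (minpoly ℚ lam)
    rw [h0] at this
    exact hirr.ne_zero (by rw [← this]; exact zero_comp)
  obtain ⟨c, hcc⟩ := hgn
  have hc0 : c ≠ 0 := by rintro rfl; rw [mul_zero] at hcc; exact hg0 hcc
  have hcdeg : c.natDegree = 0 := by
    have := congrArg natDegree hcc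
    rw [hdeg, natDegree_mul hirr.ne_zero hc0] at this
    omega
  have hcu : IsUnit c := by
    rw [eq_C_of_natDegree_eq_zero hcdeg, isUnit_C, isUnit_iff_ne_zero]
    intro h0
    apply hc0
    rw [eq_C_of_natDegree_eq_zero hcdeg, h0, C_0]
  have hhn : h ∣ ng h := by
    have h2 := S.dvd_ng
    rw [hh, ng_mul, hcc, mul_assoc] at h2
    have h3 := (mul_dvd_mul_iff_left hirr.ne_zero).1 h2
    exact (hcu.dvd_mul_left).1 h3
  obtain ⟨r, hr⟩ := hhn
  refine ⟨b * h, hk, ?_, ?_, ?_, ?_⟩
  · exact ⟨-a, by linear_combination hab⟩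
  · rw [show b * h * (b * h) = h * b * (b * h) by ring, h1, mul_comm h b]
  · have e1 : aeval z (ng (b * h) * (b * h)) = aeval z (ng (b * h)) := by
      rw [ng_mul, hr, show ng b * (h * r) * (b * h) = h * (r * ng b) * (b * h) by ring, h1]
      congr 1; ring
    have e2 := congrArg star e1
    rw [S.star_ev, S.star_ev, ng_mul, ng_ng, mul_comm, e1] at e2
    exact e2
  · intro P hP
    have h2 := minpoly.dvd ℚ z hP
    have h3 : minpoly ℚ lam ∣ P * (b * h) := (Dvd.intro _ hh.symm).trans h2
    rcases hirr.prime.dvd_or_dvd h3 with h4 | h4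
    · exact h4
    · exfalso
      have h5 : minpoly ℚ lam ∣ 1 := by
        rw [← hab]
        exact dvd_add (dvd_mul_left _ _) h4
      exact hirr.not_isUnit (isUnit_of_dvd_one h5)

end SkewData

end Pool.Agent.R911.Iso
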