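import Pool.Agent.R911.Iso.Skew

/-!
# Isometries of infinite order in orders of anisotropic algebras with involution: the proof
-/

open Polynomial NumberField

namespace Pool.Agent.R911.Iso

variable {B : Type*} [Ring B] [StarRing B] [Algebra ℚ B]

/-- **An order in an anisotropic algebra with involution contains an isometry of infinite order as
soon as some skew element of the algebra has an eigenvalue which is not purely imaginary.** -/
theorem SkewData.exists_isometry {z : B} {lam : ℂ} (S : SkewData z lam) (R : Subring B)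
    (hR : ∀ b : B, ∃ c : ℕ, 0 < c ∧ (c : B) * b ∈ R) :
    ∃ u : B, u ∈ R ∧ star u * u = 1 ∧ Function.Injective (fun j : ℕ => u ^ j) := by
  classical
  obtain ⟨E, hE0, hE1, hEE, hEn, hEinj⟩ := S.exists_idem
  have hirr := minpoly.irreducible S.int_lam
  set g := minpoly ℚ lam with hg
  have : Fact (Irreducible g) := ⟨hirr⟩
  have hmk0 : ∀ P : ℚ[X], AdjoinRoot.mk g P = 0 ↔ g ∣ P := fun P => AdjoinRoot.mk_eq_zero
  have : CharZero (AdjoinRoot g) := charZero_of_injective_algebraMap (algebraMap ℚ _).injective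
  have : FiniteDimensional ℚ (AdjoinRoot g) := (AdjoinRoot.powerBasis hirr.ne_zero).finite
  have : NumberField (AdjoinRoot g) := ⟨⟩
  have hrt : ∀ Q : ℚ[X], aeval (AdjoinRoot.root g) Q = AdjoinRoot.mk g Q := by
    intro Q
    induction Q using Polynomial.induction_on' with
    | add p q hp hq => rw [map_add, map_add, hp, hq]
    | monomial n a =>
      rw [aeval_monomial, ← C_mul_X_pow_eq_monomial, map_mul, map_pow, AdjoinRoot.mk_X]
      congr 1
  -- the involution
  have haev : ∀ P : ℚ[X], aeval (-AdjoinRoot.root g) P = AdjoinRoot.mk g (ng P) := by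
    intro P
    rw [← aeval_ng, hrt]
  let σ : AdjoinRoot g →+* AdjoinRoot g := AdjoinRoot.lift (algebraMap ℚ _) (-AdjoinRoot.root g) (by
    rw [← aeval_def, haev, hmk0]
    exact S.fac_dvd_ng)
  have hσmk : ∀ P : ℚ[X], σ (AdjoinRoot.mk g P) = AdjoinRoot.mk g (ng P) := by
    intro P
    change AdjoinRoot.lift _ _ _ (AdjoinRoot.mk g P) = _
    rw [AdjoinRoot.lift_mk, ← aeval_def, haev]
  have hσσ : ∀ x, σ (σ x) = x := by
    intro x
    obtain ⟨P, rfl⟩ := AdjoinRoot.mk_surjective x
    rw [hσmk, hσmk, ng_ng]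
  -- the complex place
  let φ : AdjoinRoot g →+* ℂ := AdjoinRoot.lift (algebraMap ℚ ℂ) lam (by
    rw [← aeval_def]; exact minpoly.aeval ℚ lam)
  have hφ : φ (AdjoinRoot.root g) = lam := AdjoinRoot.lift_root _
  have hσr : σ (AdjoinRoot.root g) = -AdjoinRoot.root g := AdjoinRoot.lift_root _
  have hw : (InfinitePlace.mk φ).comap σ ≠ InfinitePlace.mk φ := by
    rw [InfinitePlace.comap_mk, Ne, InfinitePlace.mk_eq_iff]
    rintro (h | h)
    · have := congrArg (fun ψ : AdjoinRoot g →+* ℂ => ψ (AdjoinRoot.root g)) h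
      simp only [RingHom.comp_apply, hσr, map_neg, hφ] at this
      apply S.re
      have h2 := congrArg Complex.re this
      rw [Complex.neg_re] at h2
      linarith
    · have := congrArg (fun ψ : AdjoinRoot g →+* ℂ => ψ (AdjoinRoot.root g)) h
      simp only [ComplexEmbedding.conjugate_coe_eq, RingHom.comp_apply, hσr, map_neg, hφ] at this
      apply S.re
      have h2 := congrArg Complex.re this
      rw [Complex.neg_re, Complex.conj_re] at h2
      linarith
  obtain ⟨ε, hε1, hε2⟩ := exists_norm_one_unit σ hσσ _ hw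
  -- the embedding
  have hsurj : ∀ x : AdjoinRoot g, ∃ P : ℚ[X], AdjoinRoot.mk g P = x := AdjoinRoot.mk_surjective
  choose rep hrep using hsurj
  let ι : AdjoinRoot g → B := fun x => aeval z (rep x * E)
  have hι : ∀ P : ℚ[X], ι (AdjoinRoot.mk g P) = aeval z (P * E) := by
    intro P
    have h1 : g ∣ rep (AdjoinRoot.mk g P) - P := by
      rw [← hmk0, map_sub, hrep, sub_self]
    have h2 := hE0 _ h1
    rw [sub_mul, map_sub, sub_eq_zero] at h2
    exact h2
  have hιadd : ∀ x y, ι (x + y) = ι x + ι y := by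
    intro x y
    obtain ⟨P, rfl⟩ := AdjoinRoot.mk_surjective x
    obtain ⟨Q, rfl⟩ := AdjoinRoot.mk_surjective y
    rw [← map_add, hι, hι, hι, add_mul, map_add]
  have hιneg : ∀ x, ι (-x) = -ι x := by
    intro x
    obtain ⟨P, rfl⟩ := AdjoinRoot.mk_surjective x
    rw [← map_neg, hι, hι, neg_mul, map_neg]
  have hιzero : ι 0 = 0 := by
    rw [← map_zero (AdjoinRoot.mk g), hι, zero_mul, map_zero]
  have hιmul : ∀ x y, ι (x * y) = ι x * ι y := by
    intro x y
    obtain ⟨P, rfl⟩ := AdjoinRoot.mk_surjective x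
    obtain ⟨Q, rfl⟩ := AdjoinRoot.mk_surjective y
    rw [← map_mul, hι, hι, hι, ← map_mul, show P * E * (Q * E) = P * Q * (E * E) by ring,
      map_mul (aeval z) (P * Q) (E * E), hEE, ← map_mul]
  have hιstar : ∀ x, star (ι x) = ι (σ x) := by
    intro x
    obtain ⟨P, rfl⟩ := AdjoinRoot.mk_surjective x
    rw [hσmk, hι, hι, S.star_ev, ng_mul, map_mul, hEn, ← map_mul]
  have hιinj : ∀ x, ι x = 0 → x = 0 := by
    intro x hx
    obtain ⟨P, rfl⟩ := AdjoinRoot.mk_surjective x
    rw [hι] at hx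
    exact (hmk0 P).2 (hEinj P hx)
  have hιnat : ∀ (c : ℕ) x, ι ((c : AdjoinRoot g) * x) = (c : B) * ι x := by
    intro c x
    induction c with
    | zero => rw [Nat.cast_zero, zero_mul, hιzero, Nat.cast_zero, zero_mul]
    | succ c ih =>
      rw [Nat.cast_succ, add_mul, one_mul, hιadd, ih, Nat.cast_succ, add_mul, one_mul]
  -- integrality
  have hint : ∃ c : ℕ, 0 < c ∧ ∀ y : 𝓞 (AdjoinRoot g),
      (c : B) * ι (algebraMap (𝓞 (AdjoinRoot g)) (AdjoinRoot g) y) ∈ R := by
    have hfg : (⊤ : Submodule ℤ (𝓞 (AdjoinRoot g))).FG := Module.Finite.fg_top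
    obtain ⟨s, hs⟩ := hfg
    choose c hc hcR using fun y : 𝓞 (AdjoinRoot g) =>
      hR (ι (algebraMap (𝓞 (AdjoinRoot g)) (AdjoinRoot g) y))
    refine ⟨∏ y ∈ s, c y, Finset.prod_pos (fun y _ => hc y), ?_⟩
    intro y
    have hy : y ∈ Submodule.span ℤ (s : Set (𝓞 (AdjoinRoot g))) := by rw [hs]; trivial
    refine Submodule.span_induction (p := fun y _ => ((∏ y ∈ s, c y : ℕ) : B) *
      ι (algebraMap (𝓞 (AdjoinRoot g)) (AdjoinRoot g) y) ∈ R) ?_ ?_ ?_ ?_ hy
    · intro x hx
      rw [← Finset.prod_erase_mul s c hx, Nat.cast_mul, mul_assoc]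
      exact R.mul_mem (natCast_mem R _) (hcR x)
    · rw [map_zero, hιzero, mul_zero]; exact R.zero_mem
    · intro x y _ _ hx hy
      rw [map_add, hιadd, mul_add]
      exact R.add_mem hx hy
    · intro n x _ hx
      have h2 : ∀ m : ℕ, ι (algebraMap (𝓞 (AdjoinRoot g)) (AdjoinRoot g) ((m : ℤ) • x)) =
          (m : B) * ι (algebraMap (𝓞 (AdjoinRoot g)) (AdjoinRoot g) x) := by
        intro m
        rw [← hιnat, zsmul_eq_mul, map_mul, Int.cast_natCast, map_natCast]
      have h3 : ∀ m : ℕ, ((∏ y ∈ s, c y : ℕ) : B) *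
          ι (algebraMap (𝓞 (AdjoinRoot g)) (AdjoinRoot g) ((m : ℤ) • x)) ∈ R := by
        intro m
        rw [h2, ← mul_assoc, (Nat.cast_commute (∏ y ∈ s, c y) (m : B)).eq, mul_assoc]
        exact R.mul_mem (natCast_mem R _) hx
      rcases Int.eq_nat_or_neg n with ⟨m, rfl | rfl⟩
      · exact h3 m
      · rw [neg_smul, map_neg, hιneg, mul_neg]
        exact R.neg_mem (h3 m)
  obtain ⟨c, hc, hcR⟩ := hint
  obtain ⟨k, hk, y, hy⟩ := exists_pow_sub_one ε hc
  obtain ⟨e, he⟩ : ∃ e : AdjoinRoot g, e = algebraMap (𝓞 (AdjoinRoot g)) (AdjoinRoot g) ε :=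
    ⟨_, rfl⟩
  rw [← he] at hε1 hε2 hy
  -- the multiplicative map
  let U : AdjoinRoot g → B := fun x => 1 + ι (x - 1)
  have hU : ∀ x y, U (x * y) = U x * U y := by
    intro x y
    change 1 + ι (x * y - 1) = (1 + ι (x - 1)) * (1 + ι (y - 1))
    rw [mul_add, mul_one, add_mul, one_mul, ← hιmul, show x * y - 1 =
      (x - 1) + ((y - 1) + (x - 1) * (y - 1)) by ring, hιadd, hιadd]
    abel
  have hU1 : U 1 = 1 := by
    change 1 + ι (1 - 1) = 1
    rw [sub_self, hιzero, add_zero]
  have hUpow : ∀ (x : AdjoinRoot g) (n : ℕ), U (x ^ n) = U x ^ n := by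
    intro x n
    induction n with
    | zero => rw [pow_zero, pow_zero, hU1]
    | succ n ih => rw [pow_succ, hU, ih, pow_succ]
  have hUstar : ∀ x, star (U x) = U (σ x) := by
    intro x
    change star (1 + ι (x - 1)) = 1 + ι (σ x - 1)
    rw [star_add, star_one, hιstar, map_sub, map_one]
  have hUinj : Function.Injective U := by
    intro x y hxy
    have h1 : ι (x - 1) = ι (y - 1) := add_left_cancel hxy
    have h2 : ι (x - y) = 0 := by
      rw [show x - y = (x - 1) + -(y - 1) by ring, hιadd, hιneg, h1, add_neg_cancel]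
    exact sub_eq_zero.1 (hιinj _ h2)
  refine ⟨U (e ^ k), ?_, ?_, ?_⟩
  · change 1 + ι (e ^ k - 1) ∈ R
    rw [hy, hιnat]
    exact R.add_mem R.one_mem (hcR y)
  · rw [hUstar, ← hU, map_pow, ← mul_pow, hε1, one_pow, hU1]
  · intro i j hij
    simp only [← hUpow] at hij
    have h1 := hUinj hij
    rw [← pow_mul, ← pow_mul] at h1
    have h2 : (InfinitePlace.mk φ) e ^ (k * i) = (InfinitePlace.mk φ) e ^ (k * j) := by
      rw [← map_pow, ← map_pow, h1]
    have h3 := pow_right_injective₀ (zero_lt_one.trans hε2) hε2.ne' h2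
    exact Nat.eq_of_mul_eq_mul_left hk h3

end Pool.Agent.R911.Iso
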