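import Mathlib

/-!
# Units of relative norm one in fields with an involution which is not the complex conjugation
-/

open NumberField NumberField.InfinitePlace NumberField.Units.dirichletUnitTheorem

namespace Pool.Agent.R911.Iso

variable {K : Type*} [Field K] [NumberField K]

/-- A unit `ε` with `σ ε = ε⁻¹` and `|ε| > 1` at a place which is not fixed by the involution. -/
theorem exists_norm_one_unit (σ : K →+* K) (hσ : ∀ x, σ (σ x) = x) (w₁ : InfinitePlace K)
    (hw : w₁.comap σ ≠ w₁) :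
    ∃ ε : (𝓞 K)ˣ, σ (algebraMap (𝓞 K) K ε) * algebraMap (𝓞 K) K ε = 1 ∧
      1 < w₁ (algebraMap (𝓞 K) K ε) := by
  obtain ⟨u, hu⟩ := exists_unit K w₁
  have h1 : w₁ (σ (algebraMap (𝓞 K) K u)) < 1 := by
    have h2 := hu _ hw
    rw [comap_apply] at h2
    by_contra h3
    exact absurd (Real.log_nonneg (not_lt.1 h3)) (not_le.2 h2)
  have h2 : 1 ≤ w₁ (algebraMap (𝓞 K) K u) := by
    by_contra h3
    have h4 : ∀ w : InfinitePlace K, Real.log (w (algebraMap (𝓞 K) K u)) < 0 := by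
      intro w
      by_cases h5 : w = w₁
      · rw [h5]
        exact Real.log_neg (NumberField.Units.pos_at_place u w₁) (not_le.1 h3)
      · exact hu w h5
    have h5 := NumberField.Units.sum_mult_mul_log u
    have h6 : ∑ w : InfinitePlace K, (w.mult : ℝ) * Real.log (w (algebraMap (𝓞 K) K u)) < 0 := by
      apply Finset.sum_neg
      · intro w _
        exact mul_neg_of_pos_of_neg (by exact_mod_cast w.mult_pos) (h4 w)
      · exact ⟨w₁, Finset.mem_univ _⟩
    exact absurd h5 (ne_of_lt h6)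
  set s : (𝓞 K)ˣ := Units.map (RingOfIntegers.mapRingHom σ).toMonoidHom u with hs
  have hsc : algebraMap (𝓞 K) K s = σ (algebraMap (𝓞 K) K u) := rfl
  have hu0 : algebraMap (𝓞 K) K u ≠ 0 := by
    intro h
    rw [h, map_zero] at h2
    linarith
  have hs0 : σ (algebraMap (𝓞 K) K u) ≠ 0 := by
    rw [map_ne_zero]; exact hu0
  have hinv : algebraMap (𝓞 K) K ((s⁻¹ : (𝓞 K)ˣ) : 𝓞 K) = (σ (algebraMap (𝓞 K) K u))⁻¹ := by
    have h3 : algebraMap (𝓞 K) K ((s⁻¹ : (𝓞 K)ˣ) : 𝓞 K) * algebraMap (𝓞 K) K s = 1 := by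
      rw [← map_mul, ← Units.val_mul, inv_mul_cancel, Units.val_one, map_one]
    rw [hsc] at h3
    exact eq_inv_of_mul_eq_one_left h3
  refine ⟨u * s⁻¹, ?_, ?_⟩
  · rw [Units.val_mul, map_mul (algebraMap (𝓞 K) K), hinv, map_mul, map_inv₀, hσ]
    field_simp
  · rw [Units.val_mul, map_mul (algebraMap (𝓞 K) K), hinv, map_mul, map_inv₀]
    have h3 : 0 < w₁ (σ (algebraMap (𝓞 K) K u)) := InfinitePlace.pos_iff.2 hs0
    rw [← div_eq_mul_inv, lt_div_iff₀ h3, one_mul]
    linarith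

/-- A power of a unit is congruent to one modulo a given natural number. -/
theorem exists_pow_sub_one (ε : (𝓞 K)ˣ) {c : ℕ} (hc : 0 < c) :
    ∃ k : ℕ, 0 < k ∧ ∃ y : 𝓞 K, (algebraMap (𝓞 K) K ε) ^ k - 1 = (c : K) * algebraMap (𝓞 K) K y := by
  have hne : Ideal.span {((c : ℕ) : 𝓞 K)} ≠ ⊥ := by
    rw [Ne, Ideal.span_singleton_eq_bot]
    exact_mod_cast hc.ne'
  have : Finite (𝓞 K ⧸ Ideal.span {((c : ℕ) : 𝓞 K)}) := Ideal.finiteQuotientOfFreeOfNeBot _ hne
  obtain ⟨k, hk, h1⟩ := isOfFinOrder_iff_pow_eq_one.1 (isOfFinOrder_of_finite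
    (Units.map (Ideal.Quotient.mk (Ideal.span {((c : ℕ) : 𝓞 K)})).toMonoidHom ε))
  refine ⟨k, hk, ?_⟩
  have h2 : Ideal.Quotient.mk (Ideal.span {((c : ℕ) : 𝓞 K)}) ((ε : 𝓞 K) ^ k) =
      Ideal.Quotient.mk _ 1 := by
    have := congrArg Units.val h1
    simpa using this
  rw [Ideal.Quotient.eq, Ideal.mem_span_singleton] at h2
  obtain ⟨y, hy⟩ := h2
  refine ⟨y, ?_⟩
  have := congrArg (algebraMap (𝓞 K) K) hy
  simpa only [map_sub, map_pow, map_one, map_mul, map_natCast] using this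

end Pool.Agent.R911.Iso
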